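import Pool.Agent.H49.GSB.Units

/-!
# Matrix units adapted to a right ideal
-/

open MulOpposite

namespace Pool.Agent.H49.GSB

/-- Conjugate matrix units. -/
theorem IsUnits.conj {ι R : Type*} [Fintype ι] [DecidableEq ι] [Ring R] {E : ι → ι → R}
    (hE : IsUnits E) (v : Rˣ) : IsUnits fun a b => (v : R) * E a b * ((v⁻¹ : Rˣ) : R) := by
  refine ⟨fun a b c => ?_, fun a b c d h => ?_, ?_⟩
  · have h1 : (v : R) * E a b * ((v⁻¹ : Rˣ) : R) * ((v : R) * E b c * ((v⁻¹ : Rˣ) : R)) =
        (v : R) * (E a b * (((v⁻¹ : Rˣ) : R) * (v : R)) * E b c) * ((v⁻¹ : Rˣ) : R) := by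
      simp only [mul_assoc]
    change (v : R) * E a b * ((v⁻¹ : Rˣ) : R) * ((v : R) * E b c * ((v⁻¹ : Rˣ) : R)) = _
    rw [h1, Units.inv_mul, mul_one, hE.mul_same]
  · have h1 : (v : R) * E a b * ((v⁻¹ : Rˣ) : R) * ((v : R) * E c d * ((v⁻¹ : Rˣ) : R)) =
        (v : R) * (E a b * (((v⁻¹ : Rˣ) : R) * (v : R)) * E c d) * ((v⁻¹ : Rˣ) : R) := by
      simp only [mul_assoc]
    change (v : R) * E a b * ((v⁻¹ : Rˣ) : R) * ((v : R) * E c d * ((v⁻¹ : Rˣ) : R)) = _
    rw [h1, Units.inv_mul, mul_one, hE.mul_ne _ _ _ _ h, mul_zero, zero_mul]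
  · rw [← Finset.sum_mul, ← Finset.mul_sum, hE.sum, mul_one, Units.mul_inv]

section

variable {K R : Type*} [Field K] [Ring R] [Algebra K R]

/-- The right ideal of an idempotent. -/
def idl (K : Type*) {R : Type*} [Field K] [Ring R] [Algebra K R] (e : R) : Submodule K R where
  carrier := {x | e * x = x}
  add_mem' := fun {x y} hx hy => by
    simp only [Set.mem_setOf_eq] at *
    rw [mul_add, hx, hy]
  zero_mem' := by simp
  smul_mem' := fun c x hx => by
    simp only [Set.mem_setOf_eq] at *
    rw [mul_smul_comm, hx]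

theorem mem_idl {e x : R} : x ∈ idl K e ↔ e * x = x := Iff.rfl

theorem idl_right {e : R} : ∀ x ∈ idl K e, ∀ y, x * y ∈ idl K e := fun x hx y => by
  rw [mem_idl] at hx ⊢
  rw [← mul_assoc, hx]

/-- The dimension of the right ideal of a sum of diagonal matrix units. -/
theorem finrank_idl_sum {S U : Type*} [Fintype S] [Fintype U] [DecidableEq S] [DecidableEq U]
    [FiniteDimensional K R] {E : (S ⊕ U) → (S ⊕ U) → R} (hE : IsUnits E) (o : S ⊕ U) :
    Module.finrank K (idl K (∑ i : S, E (Sum.inl i) (Sum.inl i))) =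
      Fintype.card S * Module.finrank K (idl K (E o o)) := by
  have h1 : ∀ (i : S) (x : R), E o (.inl i) * x ∈ idl K (E o o) := by
    intro i x
    rw [mem_idl, ← mul_assoc, hE.mul_same]
  let f : idl K (∑ i : S, E (Sum.inl i) (Sum.inl i)) →ₗ[K] (S → idl K (E o o)) :=
    { toFun := fun x i => ⟨E o (.inl i) * x, h1 i x⟩
      map_add' := fun x y => by
        funext i; apply Subtype.ext
        exact mul_add _ _ _
      map_smul' := fun c x => by
        funext i; apply Subtype.ext
        exact mul_smul_comm _ _ _ }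
  have hf : ∀ x i, (f x i : R) = E o (.inl i) * x := fun x i => rfl
  have h2 : ∀ z : idl K (∑ i : S, E (Sum.inl i) (Sum.inl i)),
      (z : R) = ∑ i : S, E (.inl i) o * (f z i : R) := by
    intro z
    have h3 : (∑ i : S, E (Sum.inl i) (Sum.inl i)) * (z : R) = z := z.2
    conv_lhs => rw [← h3, Finset.sum_mul]
    refine Finset.sum_congr rfl fun i _ => ?_
    rw [hf, ← mul_assoc, hE.mul_same]
  have hbij : Function.Bijective f := by
    constructor
    · intro x y hxy
      apply Subtype.ext
      rw [h2 x, h2 y, hxy]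
    · intro g
      have h4 : (∑ i : S, E (.inl i) o * (g i : R)) ∈
          idl K (∑ i : S, E (Sum.inl i) (Sum.inl i)) := by
        rw [mem_idl, Finset.sum_mul_sum]
        refine Finset.sum_congr rfl fun i _ => ?_
        rw [Finset.sum_eq_single i]
        · rw [← mul_assoc, hE.mul_same]
        · intro j _ hj
          rw [← mul_assoc, hE.mul_ne _ _ _ _ (fun h => hj (Sum.inl_injective h).symm), zero_mul]
        · intro h; exact absurd (Finset.mem_univ _) h
      refine ⟨⟨_, h4⟩, ?_⟩
      funext j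
      apply Subtype.ext
      rw [hf]
      change E o (.inl j) * (∑ i : S, E (.inl i) o * (g i : R)) = g j
      rw [Finset.mul_sum, Finset.sum_eq_single j]
      · have h5 : E o o * (g j : R) = g j := (g j).2
        rw [← mul_assoc, hE.mul_same, h5]
      · intro i _ hij
        rw [← mul_assoc, hE.mul_ne _ _ _ _ (fun h => hij (Sum.inl_injective h).symm), zero_mul]
      · intro h; exact absurd (Finset.mem_univ _) h
  rw [(LinearEquiv.ofBijective f hbij).finrank_eq, Module.finrank_pi_fintype]
  simp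

/-- Right ideals of the same dimension are conjugate under left multiplication by a unit. -/
theorem exists_unit_mul [FiniteDimensional K R] [IsSimpleRing R] {J J' : Submodule K R}
    (hJ : ∀ x ∈ J, ∀ y, x * y ∈ J) (hJ' : ∀ x ∈ J', ∀ y, x * y ∈ J')
    (h : Module.finrank K J = Module.finrank K J') :
    ∃ v : Rˣ, ∀ x, x ∈ J' ↔ ((v⁻¹ : Rˣ) : R) * x ∈ J := by
  let M : Submodule Rᵐᵒᵖ R :=
    { carrier := J
      add_mem' := J.add_mem
      zero_mem' := J.zero_mem
      smul_mem' := fun c x hx => hJ x hx c.unop }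
  let M' : Submodule Rᵐᵒᵖ R :=
    { carrier := J'
      add_mem' := J'.add_mem
      zero_mem' := J'.zero_mem
      smul_mem' := fun c x hx => hJ' x hx c.unop }
  have hMJ : ∀ x, x ∈ M ↔ x ∈ J := fun x => Iff.rfl
  have hMJ' : ∀ x, x ∈ M' ↔ x ∈ J' := fun x => Iff.rfl
  have : IsArtinianRing Rᵐᵒᵖ := IsArtinianRing.of_finite K Rᵐᵒᵖ
  obtain ⟨C, hC⟩ := exists_isCompl M
  obtain ⟨C', hC'⟩ := exists_isCompl M'
  have hf1 : FiniteDimensional K M :=
    FiniteDimensional.of_injective (M.subtype.restrictScalars K) M.subtype_injective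
  have hf2 : FiniteDimensional K M' :=
    FiniteDimensional.of_injective (M'.subtype.restrictScalars K) M'.subtype_injective
  have hf3 : FiniteDimensional K C :=
    FiniteDimensional.of_injective (C.subtype.restrictScalars K) C.subtype_injective
  have hf4 : FiniteDimensional K C' :=
    FiniteDimensional.of_injective (C'.subtype.restrictScalars K) C'.subtype_injective
  have hM : Module.finrank K M = Module.finrank K M' := h
  have hs : Module.finrank K M + Module.finrank K C = Module.finrank K R := by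
    have e := Submodule.prodEquivOfIsCompl M C hC
    rw [← (e.restrictScalars K).finrank_eq, Module.finrank_prod]
  have hs' : Module.finrank K M' + Module.finrank K C' = Module.finrank K R := by
    have e := Submodule.prodEquivOfIsCompl M' C' hC'
    rw [← (e.restrictScalars K).finrank_eq, Module.finrank_prod]
  obtain ⟨e1⟩ := exists_linearEquiv (K := K) (S := Rᵐᵒᵖ) hM
  obtain ⟨e2⟩ := exists_linearEquiv (K := K) (S := Rᵐᵒᵖ) (M := C) (N := C') (by omega)
  let Φ : R ≃ₗ[Rᵐᵒᵖ] R := (Submodule.prodEquivOfIsCompl M C hC).symm.trans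
    ((e1.prodCongr e2).trans (Submodule.prodEquivOfIsCompl M' C' hC'))
  have hΦ : ∀ x : M, Φ x ∈ M' := by
    intro x
    have h1 : (Submodule.prodEquivOfIsCompl M C hC).symm (x : R) = (x, 0) := by
      rw [LinearEquiv.symm_apply_eq]
      simp
    change Submodule.prodEquivOfIsCompl M' C' hC' ((e1.prodCongr e2)
      ((Submodule.prodEquivOfIsCompl M C hC).symm (x : R))) ∈ M'
    rw [h1]
    simp
  have hΦs : ∀ x : M', Φ.symm x ∈ M := by
    intro x
    have h1 : (Submodule.prodEquivOfIsCompl M' C' hC').symm (x : R) = (x, 0) := by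
      rw [LinearEquiv.symm_apply_eq]
      simp
    change Submodule.prodEquivOfIsCompl M C hC ((e1.prodCongr e2).symm
      ((Submodule.prodEquivOfIsCompl M' C' hC').symm (x : R))) ∈ M
    rw [h1]
    simp
  have hmul : ∀ (f : R ≃ₗ[Rᵐᵒᵖ] R) (x : R), f x = f 1 * x := by
    intro f x
    have h := f.map_smul (op x) 1
    rwa [op_smul_eq_mul, op_smul_eq_mul, one_mul] at h
  refine ⟨⟨Φ 1, Φ.symm 1, ?_, ?_⟩, ?_⟩
  · rw [← hmul, LinearEquiv.apply_symm_apply]
  · rw [← hmul, LinearEquiv.symm_apply_apply]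
  · intro x
    change x ∈ J' ↔ Φ.symm 1 * x ∈ J
    rw [← hmul]
    constructor
    · intro hx
      exact hΦs ⟨x, hx⟩
    · intro hx
      have := hΦ ⟨_, hx⟩
      rwa [LinearEquiv.apply_symm_apply] at this

end

/-- Matrix units such that a given right ideal is the right ideal of a sum of diagonal matrix
units. -/
theorem exists_adapted_units {K R S U : Type*} [Field K] [Ring R] [Algebra K R]
    [FiniteDimensional K R] [IsSimpleRing R] [Fintype S] [Fintype U] [DecidableEq S]
    [DecidableEq U] {s : ℕ} (_hs : 0 < s)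
    (hR : Module.finrank K R = (Fintype.card S + Fintype.card U) * s) (J1 : Submodule K R)
    (hJ1 : ∀ x ∈ J1, ∀ y, x * y ∈ J1) (hd1 : Module.finrank K J1 = s) (J : Submodule K R)
    (hJ : ∀ x ∈ J, ∀ y, x * y ∈ J) (hd : Module.finrank K J = Fintype.card S * s) :
    ∃ E : (S ⊕ U) → (S ⊕ U) → R, IsUnits E ∧
      ∀ x, x ∈ J ↔ (∑ i : S, E (Sum.inl i) (Sum.inl i)) * x = x := by
  have hpos : 0 < Module.finrank K R := Module.finrank_pos
  have hcard : Fintype.card (S ⊕ U) = Fintype.card S + Fintype.card U := Fintype.card_sum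
  have hne : 0 < Fintype.card (S ⊕ U) := by
    rw [hcard]
    rcases Nat.eq_zero_or_pos (Fintype.card S + Fintype.card U) with h | h
    · rw [h, zero_mul] at hR; omega
    · exact h
  obtain ⟨o⟩ := Fintype.card_pos_iff.1 hne
  obtain ⟨E, hE, hEo⟩ := exists_units (ι := S ⊕ U) J1 hJ1 o (by rw [hd1, hR, hcard])
  have h1 : idl K (E o o) = J1 := by
    ext x
    rw [hEo x, mem_idl]
  have h2 : Module.finrank K (idl K (∑ i : S, E (Sum.inl i) (Sum.inl i))) =
      Module.finrank K J := by
    rw [finrank_idl_sum hE o, h1, hd1, hd]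
  obtain ⟨v, hv⟩ := exists_unit_mul (idl_right (K := K)) hJ h2
  refine ⟨_, hE.conj v, fun x => ?_⟩
  rw [hv x, mem_idl, ← Finset.sum_mul, ← Finset.mul_sum]
  constructor
  · intro h
    rw [mul_assoc, mul_assoc, h, Units.mul_inv_cancel_left]
  · intro h
    have h3 := congrArg (fun y => ((v⁻¹ : Rˣ) : R) * y) h
    simp only [mul_assoc, Units.inv_mul_cancel_left] at h3
    exact h3

end Pool.Agent.H49.GSB
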