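import Pool.Agent.H49.Cop.Adapt
import Pool.Agent.H72.Br.Base

/-!
# The block of a right ideal
-/

set_option autoImplicit false

open Module Matrix TensorProduct

namespace Pool.Agent.H49.Cop

open Pool.Agent.H49.GSB

universe u

/-- The block of a right ideal. -/
theorem exists_block {k K : Type u} [Field k] [Field K] [Algebra k K] (Q : CSA.{u, u} k)
    (D : CSA.{u, u} K) {e e' h c : ℕ} (_hQ : finrank k Q = e ^ 2) (he : e = e' * h)
    (_he' : 0 < e') (hD : finrank K D = e' ^ 2)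
    (θ : (K ⊗[k] Q) ≃ₐ[K] Matrix (Fin h) (Fin h) D) (_hc : 0 < c) (hch : c ≤ h)
    (J : Submodule K (K ⊗[k] Q)) (hJ : ∀ x ∈ J, ∀ y, x * y ∈ J)
    (hdim : finrank K J = e' * c * e) :
    ∃ (p : K ⊗[k] Q) (j : Matrix (Fin c) (Fin c) D →ₗ[K] K ⊗[k] Q),
      p * p = p ∧ (∀ x, x ∈ J ↔ p * x = x) ∧ (∀ x y, j (x * y) = j x * j y) ∧ j 1 = p ∧
      ∀ q, ∃ x, j x = p * q * p := by
  classical
  obtain ⟨w, rfl⟩ := Nat.exists_eq_add_of_le hch
  have hs : IsSimpleRing (K ⊗[k] Q) := Pool.Agent.H72.SB.isSimpleRing_tensor k K Q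
  let Θ : (K ⊗[k] Q) ≃ₐ[K] Matrix (Fin c ⊕ Fin w) (Fin c ⊕ Fin w) D :=
    θ.trans (Matrix.reindexAlgEquiv K D finSumFinEquiv).symm
  let b : Matrix (Fin c) (Fin c) D → Matrix (Fin c ⊕ Fin w) (Fin c ⊕ Fin w) D :=
    fun x => Matrix.fromBlocks x 0 0 0
  let p₀ : K ⊗[k] Q := Θ.symm (b 1)
  have hbmul : ∀ x y, b x * b y = b (x * y) := by
    intro x y
    change Matrix.fromBlocks x 0 0 0 * Matrix.fromBlocks y 0 0 0 = Matrix.fromBlocks (x * y) 0 0 0
    rw [Matrix.fromBlocks_multiply]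
    simp
  have hbM : ∀ M : Matrix (Fin c ⊕ Fin w) (Fin c ⊕ Fin w) D,
      b 1 * M = Matrix.fromBlocks M.toBlocks₁₁ M.toBlocks₁₂ 0 0 := by
    intro M
    change Matrix.fromBlocks 1 0 0 0 * M = _
    conv_lhs => rw [← Matrix.fromBlocks_toBlocks M]
    rw [Matrix.fromBlocks_multiply]
    simp
  have hbMb : ∀ M : Matrix (Fin c ⊕ Fin w) (Fin c ⊕ Fin w) D,
      b 1 * M * b 1 = b M.toBlocks₁₁ := by
    intro M
    rw [hbM]
    change Matrix.fromBlocks _ _ 0 0 * Matrix.fromBlocks 1 0 0 0 = Matrix.fromBlocks _ 0 0 0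
    rw [Matrix.fromBlocks_multiply]
    simp
  have hp₀ : p₀ * p₀ = p₀ := by
    change Θ.symm (b 1) * Θ.symm (b 1) = Θ.symm (b 1)
    rw [← map_mul, hbmul, mul_one]
  have hmem : ∀ x : K ⊗[k] Q, p₀ * x = x ↔ b 1 * Θ x = Θ x := by
    intro x
    constructor
    · intro h
      have h1 := congrArg Θ h
      rw [map_mul] at h1
      change Θ (Θ.symm (b 1)) * Θ x = Θ x at h1
      rwa [AlgEquiv.apply_symm_apply] at h1
    · intro h
      apply Θ.injective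
      rw [map_mul]
      change Θ (Θ.symm (b 1)) * Θ x = Θ x
      rw [AlgEquiv.apply_symm_apply, h]
  -- the dimension of the standard ideal
  let f : idl K p₀ →ₗ[K] Matrix (Fin c) (Fin c ⊕ Fin w) D :=
    { toFun := fun x => Matrix.of fun i j => Θ (x : K ⊗[k] Q) (Sum.inl i) j
      map_add' := fun x y => by
        ext i j
        change Θ ((x : K ⊗[k] Q) + y) (Sum.inl i) j = _
        rw [map_add]
        rfl
      map_smul' := fun a x => by
        ext i j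
        change Θ (a • (x : K ⊗[k] Q)) (Sum.inl i) j = _
        rw [map_smul]
        rfl }
  have hf : ∀ x i j, f x i j = Θ (x : K ⊗[k] Q) (Sum.inl i) j := fun x i j => rfl
  have hbij : Function.Bijective f := by
    constructor
    · intro x y hxy
      apply Subtype.ext
      apply Θ.injective
      have hx := (hmem x).1 x.2
      have hy := (hmem y).1 y.2
      ext i j
      rcases i with i | i
      · exact congrFun (congrFun hxy i) j
      · rw [← hx, ← hy, hbM, hbM]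
        rcases j with j | j <;> rfl
    · intro M
      let N : Matrix (Fin c ⊕ Fin w) (Fin c ⊕ Fin w) D := Matrix.of fun i j =>
        Sum.elim (fun i => M i j) (fun _ => 0) i
      have hN : b 1 * N = N := by
        rw [hbM]
        ext i j
        rcases i with i | i <;> rcases j with j | j <;> rfl
      have hmemN : Θ.symm N ∈ idl K p₀ := by
        rw [mem_idl, hmem, AlgEquiv.apply_symm_apply, hN]
      refine ⟨⟨Θ.symm N, hmemN⟩, ?_⟩
      ext i j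
      rw [hf]
      change Θ (Θ.symm N) (Sum.inl i) j = M i j
      rw [AlgEquiv.apply_symm_apply]
      rfl
  have hdim₀ : finrank K (idl K p₀) = finrank K J := by
    rw [(LinearEquiv.ofBijective f hbij).finrank_eq, Module.finrank_matrix, hD, hdim, he]
    simp only [Fintype.card_fin, Fintype.card_sum]
    ring
  obtain ⟨v, hv⟩ := exists_unit_mul (idl_right (K := K)) hJ hdim₀
  refine ⟨(v : K ⊗[k] Q) * p₀ * ((v⁻¹ : (K ⊗[k] Q)ˣ) : K ⊗[k] Q),
    { toFun := fun x => (v : K ⊗[k] Q) * Θ.symm (b x) * ((v⁻¹ : (K ⊗[k] Q)ˣ) : K ⊗[k] Q)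
      map_add' := fun x y => ?_
      map_smul' := fun a x => ?_ }, ?_, ?_, ?_, ?_, ?_⟩
  · have h1 : b (x + y) = b x + b y := by
      change Matrix.fromBlocks (x + y) 0 0 0 = Matrix.fromBlocks x 0 0 0 + Matrix.fromBlocks y 0 0 0
      rw [Matrix.fromBlocks_add]
      simp
    rw [h1, map_add, mul_add, add_mul]
  · have h1 : b (a • x) = a • b x := by
      change Matrix.fromBlocks (a • x) 0 0 0 = a • Matrix.fromBlocks x 0 0 0
      rw [Matrix.fromBlocks_smul]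
      simp
    rw [h1, map_smul, mul_smul_comm, smul_mul_assoc]
    rfl
  · have h1 : (v : K ⊗[k] Q) * p₀ * ((v⁻¹ : (K ⊗[k] Q)ˣ) : K ⊗[k] Q) *
        ((v : K ⊗[k] Q) * p₀ * ((v⁻¹ : (K ⊗[k] Q)ˣ) : K ⊗[k] Q)) =
        (v : K ⊗[k] Q) * (p₀ * (((v⁻¹ : (K ⊗[k] Q)ˣ) : K ⊗[k] Q) * v) * p₀) *
          ((v⁻¹ : (K ⊗[k] Q)ˣ) : K ⊗[k] Q) := by
      simp only [mul_assoc]
    rw [h1, Units.inv_mul, mul_one, hp₀]
  · intro x
    rw [hv x, mem_idl]
    constructor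
    · intro h
      rw [mul_assoc, mul_assoc, h, Units.mul_inv_cancel_left]
    · intro h
      have h3 := congrArg (fun y => ((v⁻¹ : (K ⊗[k] Q)ˣ) : K ⊗[k] Q) * y) h
      simp only [mul_assoc, Units.inv_mul_cancel_left] at h3
      exact h3
  · intro x y
    change (v : K ⊗[k] Q) * Θ.symm (b (x * y)) * ((v⁻¹ : (K ⊗[k] Q)ˣ) : K ⊗[k] Q) =
      (v : K ⊗[k] Q) * Θ.symm (b x) * ((v⁻¹ : (K ⊗[k] Q)ˣ) : K ⊗[k] Q) *
      ((v : K ⊗[k] Q) * Θ.symm (b y) * ((v⁻¹ : (K ⊗[k] Q)ˣ) : K ⊗[k] Q))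
    have h1 : (v : K ⊗[k] Q) * Θ.symm (b x) * ((v⁻¹ : (K ⊗[k] Q)ˣ) : K ⊗[k] Q) *
        ((v : K ⊗[k] Q) * Θ.symm (b y) * ((v⁻¹ : (K ⊗[k] Q)ˣ) : K ⊗[k] Q)) =
        (v : K ⊗[k] Q) * (Θ.symm (b x) * (((v⁻¹ : (K ⊗[k] Q)ˣ) : K ⊗[k] Q) * v) * Θ.symm (b y)) *
          ((v⁻¹ : (K ⊗[k] Q)ˣ) : K ⊗[k] Q) := by
      simp only [mul_assoc]
    rw [h1, Units.inv_mul, mul_one, ← map_mul, hbmul]
  · rfl
  · intro q
    obtain ⟨q', hq'⟩ : ∃ q', q' = ((v⁻¹ : (K ⊗[k] Q)ˣ) : K ⊗[k] Q) * q * v := ⟨_, rfl⟩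
    refine ⟨(Θ q').toBlocks₁₁, ?_⟩
    change (v : K ⊗[k] Q) * Θ.symm (b (Θ q').toBlocks₁₁) *
      ((v⁻¹ : (K ⊗[k] Q)ˣ) : K ⊗[k] Q) = _
    have h1 : Θ.symm (b (Θ q').toBlocks₁₁) = p₀ * q' * p₀ := by
      rw [← hbMb, map_mul, map_mul, AlgEquiv.symm_apply_apply]
    rw [h1, hq']
    simp only [mul_assoc]

end Pool.Agent.H49.Cop
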