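import Pool.Agent.H49.GSB.Main

/-!
# Families of vectors depending on parameters
-/

open TensorProduct

namespace Pool.Agent.H49.Cop

open Pool.Agent.H49.GSB

universe u

variable {k : Type u} [Field k] {K : Type u} [Field K] [Algebra k K]
  {L : Type u} [Field L] [Algebra K L] {J τ D : Type*} [Fintype J] [Fintype τ]

/-- An affine family which spans for one value of the parameters spans for a rational value of the
parameters. -/
theorem exists_rational_fam [Infinite k] (w₀ : D → J → K) (w : D → τ → J → K) (t₀ : τ → K)
    (h : Submodule.span K (Set.range (fam K w₀ w t₀)) = ⊤) :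
    ∃ t : τ → k, Submodule.span K (Set.range (fam K w₀ w fun z => algebraMap k K (t z))) = ⊤ := by
  classical
  obtain ⟨P, hP, hP'⟩ := exists_poly w₀ w t₀ h
  obtain ⟨t, ht⟩ : ∃ t : τ → k, MvPolynomial.aeval (fun z => algebraMap k K (t z)) P ≠ 0 := by
    by_contra! hcon
    have hP0 : P = 0 := by
      refine MvPolynomial.funext_set (fun _ => Set.range (algebraMap k K))
        (fun _ => Set.infinite_range_of_injective (algebraMap k K).injective) ?_
      intro x hx
      have hx' : ∀ z, ∃ c, algebraMap k K c = x z := fun z => hx z (Set.mem_univ z)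
      choose t ht using hx'
      have h1 := hcon t
      have h2 : (fun z => algebraMap k K (t z)) = x := funext ht
      rw [h2, MvPolynomial.aeval_eq_eval] at h1
      rw [map_zero]
      exact h1
    rw [hP0, map_zero] at hP
    exact hP rfl
  exact ⟨t, hP' K _ ht⟩

/-- An affine family which spans at the origin spans for independent parameters. -/
theorem generic_fam (X : τ → L) (hX : AlgebraicIndependent K X) (w₀ : D → J → K)
    (w : D → τ → J → K) (h : Submodule.span K (Set.range w₀) = ⊤) :
    Submodule.span L (Set.range (fam L w₀ w X)) = ⊤ := by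
  classical
  obtain ⟨P, hP, hP'⟩ := exists_poly w₀ w (fun _ => (0 : K)) (by
    have h1 : fam K w₀ w (fun _ => (0 : K)) = w₀ := by
      funext d j
      simp [fam]
    rw [h1]
    exact h)
  have hP0 : P ≠ 0 := by
    rintro rfl
    exact hP (map_zero _)
  exact hP' L X fun h0 => hP0 (hX (by rw [h0, map_zero]))

theorem span_equiv {R M N : Type*} [Field R] [AddCommGroup M] [Module R M] [AddCommGroup N]
    [Module R N] (e : M ≃ₗ[R] N) (v : D → M) :
    Submodule.span R (Set.range v) = ⊤ ↔ Submodule.span R (Set.range fun d => e (v d)) = ⊤ := by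
  have h : Submodule.span R (Set.range fun d => e (v d)) =
      (Submodule.span R (Set.range v)).map e.toLinearMap := by
    rw [Submodule.map_span, ← Set.range_comp]
    rfl
  rw [h]
  constructor
  · intro h1
    rw [h1, Submodule.map_top, LinearEquiv.range]
  · intro h1
    rw [eq_top_iff]
    intro x _
    have hx : e x ∈ (Submodule.span R (Set.range v)).map e.toLinearMap := by rw [h1]; trivial
    obtain ⟨y, hy, hyx⟩ := Submodule.mem_map.1 hx
    rwa [e.injective hyx] at hy

/-- Rational values of the parameters, for a finite-dimensional space. -/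
theorem exists_rational_mod [Infinite k] {W : Type*} [AddCommGroup W] [Module K W]
    [FiniteDimensional K W] (w₀ : D → W) (w : D → τ → W) (t₀ : τ → K)
    (h : Submodule.span K (Set.range fun d => w₀ d + ∑ z, t₀ z • w d z) = ⊤) :
    ∃ t : τ → k,
      Submodule.span K (Set.range fun d => w₀ d + ∑ z, algebraMap k K (t z) • w d z) = ⊤ := by
  classical
  let e := (Module.finBasis K W).equivFun
  have hfam : ∀ t : τ → K, fam K (fun d => e (w₀ d)) (fun d z => e (w d z)) t =
      fun d => e (w₀ d + ∑ z, t z • w d z) := by
    intro t
    funext d j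
    simp only [fam, map_add, map_sum, map_smul, Pi.add_apply, Finset.sum_apply, Pi.smul_apply,
      smul_eq_mul, Algebra.algebraMap_self, RingHom.id_apply]
  obtain ⟨t, ht⟩ := exists_rational_fam (k := k) (fun d => e (w₀ d)) (fun d z => e (w d z)) t₀ (by
    rw [hfam]
    exact (span_equiv e _).1 h)
  refine ⟨t, ?_⟩
  rw [hfam] at ht
  exact (span_equiv e _).2 ht

/-- Independent parameters, for spaces with bases. -/
theorem generic_mod {W W' : Type*} [AddCommGroup W] [Module K W] [AddCommGroup W'] [Module L W']
    (b : Module.Basis J K W) (b' : Module.Basis J L W') (β : W → W')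
    (hβ : ∀ w j, b'.repr (β w) j = algebraMap K L (b.repr w j))
    (X : τ → L) (hX : AlgebraicIndependent K X) (w₀ : D → W) (w : D → τ → W)
    (h : Submodule.span K (Set.range w₀) = ⊤) :
    Submodule.span L (Set.range fun d => β (w₀ d) + ∑ z, X z • β (w d z)) = ⊤ := by
  classical
  have h1 := generic_fam X hX (fun d => b.equivFun (w₀ d)) (fun d z => b.equivFun (w d z))
    ((span_equiv b.equivFun _).1 h)
  have h2 : fam L (fun d => b.equivFun (w₀ d)) (fun d z => b.equivFun (w d z)) X =
      fun d => b'.equivFun (β (w₀ d) + ∑ z, X z • β (w d z)) := by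
    funext d j
    simp only [fam, map_add, map_sum, map_smul, Pi.add_apply, Finset.sum_apply, Pi.smul_apply,
      smul_eq_mul, Module.Basis.equivFun_apply, hβ]
  rw [h2] at h1
  exact (span_equiv b'.equivFun _).2 h1

end Pool.Agent.H49.Cop
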