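import Pool.Agent.H49.Cop.Lin
import Pool.Agent.H49.Cop.Fam
import Pool.Agent.H49.Cop.Adapt

/-!
# An explicit right ideal
-/

open TensorProduct

namespace Pool.Agent.H49.Cop

open Pool.Agent.H49.GSB

/-- The algebra `A = P ⊗ Q` over `Q`: `p` is a basis of `P` and `p'` the dual basis. -/
structure IsDatum {K A Q σ : Type*} [Field K] [Ring A] [Algebra K A] [Ring Q] [Algebra K Q]
    [DecidableEq σ] (ι : Q →ₐ[K] A) (τ : A →ₗ[K] Q) (p p' : σ → A) (o : σ) : Prop where
  comm : ∀ s q, ι q * p s = p s * ι q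
  tau : ∀ s t q, τ (p s * (p' t * ι q)) = if s = t then q else 0
  tau_mul : ∀ q x, τ (ι q * x) = q * τ x
  one : p o = 1

section

variable {K A Q : Type*} [Field K] [Ring A] [Algebra K A] [Ring Q] [Algebra K Q]
  {C U R : Type*} [Fintype C] [Fintype U] [Fintype R] [DecidableEq C] [DecidableEq U]
  [DecidableEq R]

/-- The first idempotent of `Q`. -/
def eps (E : (Option C ⊕ U) → (Option C ⊕ U) → Q) : Q := ∑ i : U, E (.inr i) (.inr i)

/-- The second idempotent of `Q`. -/
def cee (E : (Option C ⊕ U) → (Option C ⊕ U) → Q) : Q := ∑ i : Option C, E (.inl i) (.inl i)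

/-- The idempotent `f`. -/
def eff (ι : Q →ₐ[K] A) (E : (Option C ⊕ U) → (Option C ⊕ U) → Q) : A :=
  ι (E (.inl none) (.inl none))

/-- The idempotent `f'`. -/
def eff' (ι : Q →ₐ[K] A) (E : (Option C ⊕ U) → (Option C ⊕ U) → Q) : A :=
  ∑ i : C, ι (E (.inl (some i)) (.inl (some i)))

/-- The special value of `z`. -/
def zed (ι : Q →ₐ[K] A) (E : (Option C ⊕ U) → (Option C ⊕ U) → Q)
    (p : Option C ⊕ (R × (Option C ⊕ U)) → A) : A :=
  ∑ i : C, p (.inl (some i)) * ι (E (.inl (some i)) (.inl none))

/-- The special values of `a`. -/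
def ave (ι : Q →ₐ[K] A) (E : (Option C ⊕ U) → (Option C ⊕ U) → Q)
    (p : Option C ⊕ (R × (Option C ⊕ U)) → A) (j : R) : A :=
  ∑ l : Option C ⊕ U, ι (E l (.inl none)) * p (.inr (j, l))

variable {ι : Q →ₐ[K] A} {τ : A →ₗ[K] Q} {E : (Option C ⊕ U) → (Option C ⊕ U) → Q}
  {p p' : Option C ⊕ (R × (Option C ⊕ U)) → A}

theorem isUnits_map (hE : IsUnits E) : IsUnits fun a b => ι (E a b) :=
  ⟨fun a b c => by rw [← map_mul, hE.mul_same],
    fun a b c d h => by rw [← map_mul, hE.mul_ne _ _ _ _ h, map_zero],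
    by rw [← map_sum, hE.sum, map_one]⟩

theorem eps_add_cee (hE : IsUnits E) : eps E + cee E = 1 := by
  have h := hE.sum
  rw [Fintype.sum_sum_type] at h
  rw [add_comm, ← h]
  rfl

theorem eps_mul_cee (hE : IsUnits E) : eps E * cee E = 0 := by
  rw [eps, cee, Finset.sum_mul_sum]
  refine Finset.sum_eq_zero fun i _ => Finset.sum_eq_zero fun j _ => ?_
  exact hE.mul_ne _ _ _ _ (by simp)

theorem eff_add : eff ι E + eff' ι E = ι (cee E) := by
  rw [cee, Fintype.sum_option, map_add, map_sum]
  rfl

theorem eff_mul_eff (hE : IsUnits E) : eff ι E * eff ι E = eff ι E := by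
  rw [eff, ← map_mul, hE.mul_same]

theorem eff_mul_eff' (hE : IsUnits E) : eff ι E * eff' ι E = 0 := by
  rw [eff, eff', Finset.mul_sum]
  refine Finset.sum_eq_zero fun i _ => ?_
  rw [← map_mul, hE.mul_ne _ _ _ _ (by simp), map_zero]

theorem eff'_mul_eff (hE : IsUnits E) : eff' ι E * eff ι E = 0 := by
  rw [eff, eff', Finset.sum_mul]
  refine Finset.sum_eq_zero fun i _ => ?_
  rw [← map_mul, hE.mul_ne _ _ _ _ (by simp), map_zero]

theorem eff'_mul (hE : IsUnits E) (i : C) (b : Option C ⊕ U) :
    eff' ι E * ι (E (.inl (some i)) b) = ι (E (.inl (some i)) b) := by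
  rw [eff', Finset.sum_mul, Finset.sum_eq_single i]
  · rw [← map_mul, hE.mul_same]
  · intro j _ hj
    rw [← map_mul, hE.mul_ne _ _ _ _ (by simpa using hj), map_zero]
  · intro h; exact absurd (Finset.mem_univ _) h

/-- The frame. -/
theorem isFrame (hE : IsUnits E) (htau : ∀ q x, τ (ι q * x) = q * τ x) {z : A} {γ : R → Q}
    (hz : eff' ι E * z = z) (hz' : z * eff ι E = z) (hγ : ∀ j, eps E * γ j = γ j) :
    IsFrame ι τ (eps E) (cee E) (eff ι E) (eff' ι E) z γ where
  tau_mul := htau
  add_one := eps_add_cee hE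
  mul_zero := eps_mul_cee hE
  f_add := eff_add
  ff := eff_mul_eff hE
  ff' := eff_mul_eff' hE
  f'f := eff'_mul_eff hE
  f'z := hz
  zf := hz'
  εγ := hγ

theorem eff'_mul_zed (hE : IsUnits E) (h : IsDatum ι τ p p' (.inl none)) :
    eff' ι E * zed ι E p = zed ι E p := by
  rw [zed, Finset.mul_sum]
  refine Finset.sum_congr rfl fun i _ => ?_
  rw [← h.comm, ← mul_assoc, eff'_mul hE]

theorem zed_mul_eff (hE : IsUnits E) : zed ι E p * eff ι E = zed ι E p := by
  rw [zed, Finset.sum_mul]
  refine Finset.sum_congr rfl fun i _ => ?_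
  rw [mul_assoc, eff, ← map_mul, hE.mul_same]

/-- The element `u`. -/
theorem one_add_zed (hE : IsUnits E) (h : IsDatum ι τ p p' (.inl none)) :
    (1 + zed ι E p) * eff ι E = ∑ i : Option C, p (.inl i) * ι (E (.inl i) (.inl none)) := by
  rw [add_mul, one_mul, zed_mul_eff hE, Fintype.sum_option, h.one, one_mul]
  rfl

/-- `x ↦ (τ (u x), τ (a_j u x))` is surjective. -/
theorem ex_surj (hE : IsUnits E) (h : IsDatum ι τ p p' (.inl none)) (v : Q) (w : R → Q) :
    ∃ x : A, τ ((1 + zed ι E p) * eff ι E * x) = cee E * v ∧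
      ∀ j, τ (ave ι E p j * ((1 + zed ι E p) * eff ι E * x)) = w j := by
  let q : Option C ⊕ (R × (Option C ⊕ U)) → Q := fun s =>
    match s with
    | .inl i => E (.inl none) (.inl i) * v
    | .inr (j, l) => E (.inl none) l * w j
  have hq : ∀ s, τ (p s * ∑ t, p' t * ι (q t)) = q s := by
    intro s
    rw [Finset.mul_sum, map_sum, Finset.sum_eq_single s]
    · rw [h.tau, if_pos rfl]
    · intro t _ ht
      rw [h.tau, if_neg (Ne.symm ht)]
    · intro h; exact absurd (Finset.mem_univ _) h
  refine ⟨∑ t, p' t * ι (q t), ?_, ?_⟩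
  · rw [one_add_zed hE h, Finset.sum_mul, map_sum, cee, Finset.sum_mul]
    refine Finset.sum_congr rfl fun i _ => ?_
    rw [← h.comm, mul_assoc, h.tau_mul, hq, ← mul_assoc, hE.mul_same]
  · intro j
    have h1 : ave ι E p j * ((1 + zed ι E p) * eff ι E) = ave ι E p j := by
      rw [one_add_zed hE h, Fintype.sum_option, mul_add, h.one, one_mul]
      have h2 : ave ι E p j * ∑ i : C, p (.inl (some i)) * ι (E (.inl (some i)) (.inl none)) = 0 := by
        rw [ave, Finset.sum_mul_sum]
        refine Finset.sum_eq_zero fun l _ => Finset.sum_eq_zero fun i _ => ?_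
        rw [← h.comm, mul_assoc, ← mul_assoc (p (.inr (j, l))), ← h.comm, mul_assoc,
          ← mul_assoc (ι (E l (.inl none))), ← map_mul, hE.mul_ne _ _ _ _ (by simp), map_zero,
          zero_mul]
      rw [h2, add_zero, ave, Finset.sum_mul]
      refine Finset.sum_congr rfl fun l _ => ?_
      rw [mul_assoc, ← h.comm, ← mul_assoc, ← map_mul, hE.mul_same]
    rw [← mul_assoc, h1, ave, Finset.sum_mul, map_sum]
    have h3 : ∀ l, τ (ι (E l (.inl none)) * p (.inr (j, l)) * ∑ t, p' t * ι (q t)) =
        E l l * w j := by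
      intro l
      rw [mul_assoc, h.tau_mul, hq]
      change E l (.inl none) * (E (.inl none) l * w j) = _
      rw [← mul_assoc, hE.mul_same]
    rw [Finset.sum_congr rfl fun l _ => h3 l, ← Finset.sum_mul, hE.sum, one_mul]

theorem range_mulLeft {e : A} (he : e * e = e) : LinearMap.range (LinearMap.mulLeft K e) =
    idl K e := by
  ext x
  rw [mem_idl]
  constructor
  · rintro ⟨w, rfl⟩
    rw [LinearMap.mulLeft_apply, ← mul_assoc, he]
  · intro hx
    exact ⟨x, hx⟩

theorem isUnits_swap (hE : IsUnits E) : IsUnits fun a b : U ⊕ Option C => E a.swap b.swap :=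
  ⟨fun a b c => hE.mul_same _ _ _, fun a b c d h => hE.mul_ne _ _ _ _ fun h' => h
      (Sum.swap_leftInverse.injective h'),
    by rw [← hE.sum]; exact Equiv.sum_comp (Equiv.sumComm U (Option C)) fun a => E a a⟩

theorem finrank_eps [FiniteDimensional K Q] (hE : IsUnits E) :
    Module.finrank K (idl K (eps E)) =
      Fintype.card U * Module.finrank K (idl K (E (.inl none) (.inl none))) :=
  finrank_idl_sum (isUnits_swap hE) (.inr none)

theorem finrank_cee [FiniteDimensional K Q] (hE : IsUnits E) :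
    Module.finrank K (idl K (cee E)) =
      (Fintype.card C + 1) * Module.finrank K (idl K (E (.inl none) (.inl none))) := by
  rw [← Fintype.card_option]
  exact finrank_idl_sum hE (.inl none)

theorem cee_mul_cee (hE : IsUnits E) : cee E * cee E = cee E := by
  have h1 : (eps E + cee E) * cee E = cee E := by rw [eps_add_cee hE, one_mul]
  rwa [add_mul, eps_mul_cee hE, zero_add] at h1

theorem cee_mul_eps (hE : IsUnits E) : cee E * eps E = 0 := by
  have h1 : cee E * (eps E + cee E) = cee E := by rw [eps_add_cee hE, mul_one]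
  rw [mul_add, cee_mul_cee hE] at h1
  exact add_eq_right.1 h1

theorem eps_mul_eps (hE : IsUnits E) : eps E * eps E = eps E := by
  have h1 : eps E * (eps E + cee E) = eps E := by rw [eps_add_cee hE, mul_one]
  rwa [mul_add, eps_mul_cee hE, add_zero] at h1

theorem finrank_all [FiniteDimensional K Q] (hE : IsUnits E) :
    Module.finrank K Q = (Fintype.card C + 1 + Fintype.card U) *
      Module.finrank K (idl K (E (.inl none) (.inl none))) := by
  have h1 : LinearMap.ker (LinearMap.mulLeft K (eps E)) = idl K (cee E) := by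
    ext q
    rw [LinearMap.mem_ker, LinearMap.mulLeft_apply, mem_idl]
    constructor
    · intro hq
      have h2 : (eps E + cee E) * q = q := by rw [eps_add_cee hE, one_mul]
      rwa [add_mul, hq, zero_add] at h2
    · intro hq
      rw [← hq, ← mul_assoc, eps_mul_cee hE, zero_mul]
  have h2 := LinearMap.finrank_range_add_finrank_ker (LinearMap.mulLeft K (eps E))
  rw [h1, range_mulLeft (eps_mul_eps hE), finrank_eps hE, finrank_cee hE] at h2
  rw [← h2]
  ring

/-- The dimensions. -/
theorem dims [FiniteDimensional K Q] [FiniteDimensional K A] (hE : IsUnits E)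
    (hA : Module.finrank K A = (Fintype.card C + 1 + Fintype.card R *
      (Fintype.card C + 1 + Fintype.card U)) * Module.finrank K Q) :
    Module.finrank K (LinearMap.range (LinearMap.mulLeft K (eff ι E))) =
      Module.finrank K (LinearMap.range (LinearMap.mulLeft K (cee E))) +
        Fintype.card R * Module.finrank K Q := by
  rw [range_mulLeft (eff_mul_eff hE), range_mulLeft (cee_mul_cee hE)]
  have h1 := finrank_all (K := K) (isUnits_map (ι := ι) hE)
  have h2 := finrank_all (K := K) hE
  have h3 := finrank_cee (K := K) hE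
  have h4 : Module.finrank K (idl K (ι (E (.inl none) (.inl none)))) =
    Module.finrank K (idl K (eff ι E)) := rfl
  rw [h4, hA] at h1
  rw [h3]
  have h5 : 0 < Fintype.card C + 1 + Fintype.card U := by omega
  apply Nat.eq_of_mul_eq_mul_left h5
  rw [← h1]
  generalize Module.finrank K (idl K (E (Sum.inl none) (Sum.inl none))) = s at h2 ⊢
  rw [h2]
  ring

end

end Pool.Agent.H49.Cop
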