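import Pool.Agent.H49.Cop.Main

/-!
# Fibrations of generalized Brauer-Severi varieties: linear maps
-/

open TensorProduct MulOpposite

namespace Pool.Agent.H49.Cop

open Pool.Agent.H49.GSB

/-- The algebra `A = P ⊗ Q` over `Q`: `τ` is linear over `Q` from both sides, `p` and `p'` are dual
bases. -/
structure IsExp {K A Q σ : Type*} [Field K] [Ring A] [Algebra K A] [Ring Q] [Algebra K Q]
    [Fintype σ] (ι : Q →ₐ[K] A) (τ : A →ₗ[K] Q) (p p' : σ → A) : Prop where
  tau_mul : ∀ q x, τ (ι q * x) = q * τ x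
  mul_tau : ∀ x q, τ (x * ι q) = τ x * q
  expand : ∀ x, ∑ s, p' s * ι (τ (p s * x)) = x

section

variable {K A Q σ R : Type*} [Field K] [Ring A] [Algebra K A] [Ring Q] [Algebra K Q]
  [Fintype σ] [Fintype R] {ι : Q →ₐ[K] A} {τ : A →ₗ[K] Q} {p p' : σ → A}

/-- The linear maps over `Q` from `A` to `Q`. -/
theorem IsExp.hom (h : IsExp ι τ p p') (ψ : A →ₗ[K] Q) (hψ : ∀ x q, ψ (x * ι q) = ψ x * q)
    (x : A) : τ ((∑ s, ι (ψ (p' s)) * p s) * x) = ψ x := by
  conv_rhs => rw [← h.expand x, map_sum]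
  rw [Finset.sum_mul, map_sum]
  refine Finset.sum_congr rfl fun s _ => ?_
  rw [mul_assoc, h.tau_mul, hψ]

/-- A surjective map from `φ A` to `c Q × Q ^ R`. -/
theorem IsExp.exists_point [FiniteDimensional K A] [FiniteDimensional K Q] [IsSimpleRing Q]
    (h : IsExp ι τ p p') {φ : A} (hφ : φ * φ = φ) {c : Q}
    (hdim : Module.finrank K (idl K φ) = Module.finrank K (idl K c) +
      Fintype.card R * Module.finrank K Q) :
    ∃ (u : A) (a : R → A), ι c * u = u ∧ ∀ (v : Q) (w : R → Q), c * v = v →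
      ∃ x, φ * x = x ∧ τ (u * x) = v ∧ ∀ j, τ (a j * x) = w j := by
  let _ : Module Qᵐᵒᵖ A := Module.compHom A (RingHom.op (ι : Q →+* A))
  have hsm : ∀ (q : Qᵐᵒᵖ) (x : A), q • x = x * ι q.unop := fun _ _ => rfl
  have _ : IsScalarTower K Qᵐᵒᵖ A := ⟨fun s q x => by
    rw [hsm, hsm, unop_smul, map_smul, mul_smul_comm]⟩
  let M : Submodule Qᵐᵒᵖ A :=
    { carrier := {x | φ * x = x}
      add_mem' := fun {x y} hx hy => by
        rw [Set.mem_setOf_eq] at *
        rw [mul_add, hx, hy]
      zero_mem' := mul_zero _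
      smul_mem' := fun q x hx => by
        rw [Set.mem_setOf_eq] at *
        rw [hsm, ← mul_assoc, hx] }
  let N : Submodule Qᵐᵒᵖ Q :=
    { carrier := {x | c * x = x}
      add_mem' := fun {x y} hx hy => by
        rw [Set.mem_setOf_eq] at *
        rw [mul_add, hx, hy]
      zero_mem' := mul_zero _
      smul_mem' := fun q x hx => by
        rw [Set.mem_setOf_eq] at *
        change c * (x * q.unop) = x * q.unop
        rw [← mul_assoc, hx] }
  have hMfin : FiniteDimensional K M :=
    FiniteDimensional.of_injective (M.subtype.restrictScalars K) M.subtype_injective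
  have hNfin : FiniteDimensional K N :=
    FiniteDimensional.of_injective (N.subtype.restrictScalars K) N.subtype_injective
  have hM : Module.finrank K M = Module.finrank K (idl K φ) := rfl
  have hN : Module.finrank K N = Module.finrank K (idl K c) := rfl
  obtain ⟨e⟩ := exists_linearEquiv (K := K) (S := Qᵐᵒᵖ) (M := M) (N := N × (R → Q)) (by
    rw [hM, hdim, Module.finrank_prod, hN, Module.finrank_pi_fintype]
    simp only [Finset.sum_const, Finset.card_univ, smul_eq_mul])
  have hmem : ∀ x, φ * x ∈ M := fun x => by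
    change φ * (φ * x) = φ * x
    rw [← mul_assoc, hφ]
  let g : A →ₗ[Qᵐᵒᵖ] M :=
    { toFun := fun x => ⟨φ * x, hmem x⟩
      map_add' := fun x y => Subtype.ext (mul_add _ _ _)
      map_smul' := fun q x => Subtype.ext (by
        change φ * (x * ι q.unop) = φ * x * ι q.unop
        rw [mul_assoc]) }
  let G : A →ₗ[Qᵐᵒᵖ] N × (R → Q) := e.toLinearMap ∘ₗ g
  have hG : ∀ x q, G (x * ι q) = op q • G x := fun x q => G.map_smul (op q) x
  let ψ₀ : A →ₗ[K] Q :=
    { toFun := fun x => ((G x).1 : Q)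
      map_add' := fun x y => by rw [map_add]; rfl
      map_smul' := fun s x => by
        have : G (s • x) = s • G x := (G.restrictScalars K).map_smul s x
        rw [this]; rfl }
  let ψ : R → A →ₗ[K] Q := fun j =>
    { toFun := fun x => (G x).2 j
      map_add' := fun x y => by rw [map_add]; rfl
      map_smul' := fun s x => by
        have : G (s • x) = s • G x := (G.restrictScalars K).map_smul s x
        rw [this]; rfl }
  have hψ₀ : ∀ x q, ψ₀ (x * ι q) = ψ₀ x * q := fun x q => by
    change ((G (x * ι q)).1 : Q) = _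
    rw [hG]; rfl
  have hψ : ∀ j x q, ψ j (x * ι q) = ψ j x * q := fun j x q => by
    change (G (x * ι q)).2 j = _
    rw [hG]; rfl
  refine ⟨∑ s, ι (ψ₀ (p' s)) * p s, fun j => ∑ s, ι (ψ j (p' s)) * p s, ?_, fun v w hv => ?_⟩
  · rw [Finset.mul_sum]
    refine Finset.sum_congr rfl fun s _ => ?_
    rw [← mul_assoc, ← map_mul]
    congr 2
    exact (G (p' s)).1.2
  · let x := e.symm (⟨v, hv⟩, w)
    have hx : φ * (x : A) = x := x.2
    have hGx : G (x : A) = (⟨v, hv⟩, w) := by
      have h1 : g (x : A) = x := Subtype.ext hx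
      change e (g (x : A)) = _
      rw [h1, LinearEquiv.apply_symm_apply]
    refine ⟨x, hx, ?_, fun j => ?_⟩
    · rw [h.hom ψ₀ hψ₀]
      change ((G (x : A)).1 : Q) = v
      rw [hGx]
    · rw [h.hom (ψ j) (hψ j)]
      change (G (x : A)).2 j = w j
      rw [hGx]

end

end Pool.Agent.H49.Cop
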