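import Pool.Agent.H49.Cop.FibA

/-!
# Fibrations of generalized Brauer-Severi varieties: choice of constants
-/

open TensorProduct MulOpposite

namespace Pool.Agent.H49.Cop

open Pool.Agent.H49.GSB

universe u

section two

variable {k : Type u} [Field k] {K : Type u} [Field K] [Algebra k K] {T : Type*} [Fintype T]

/-- Rational values of the parameters for two families. -/
theorem exists_rational_two [Infinite k] {W W' D D' : Type*} [AddCommGroup W] [Module K W]
    [FiniteDimensional K W] [AddCommGroup W'] [Module K W'] [FiniteDimensional K W']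
    (w₀ : D → W) (w : D → T → W) (t₀ : T → K)
    (h : Submodule.span K (Set.range fun d => w₀ d + ∑ z, t₀ z • w d z) = ⊤)
    (w₀' : D' → W') (w' : D' → T → W') (t₀' : T → K)
    (h' : Submodule.span K (Set.range fun d => w₀' d + ∑ z, t₀' z • w' d z) = ⊤) :
    ∃ t : T → k,
      Submodule.span K (Set.range fun d => w₀ d + ∑ z, algebraMap k K (t z) • w d z) = ⊤ ∧
      Submodule.span K (Set.range fun d => w₀' d + ∑ z, algebraMap k K (t z) • w' d z) = ⊤ := by
  classical
  let e := (Module.finBasis K W).equivFun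
  let e' := (Module.finBasis K W').equivFun
  have hfam : ∀ t : T → K, fam K (fun d => e (w₀ d)) (fun d z => e (w d z)) t =
      fun d => e (w₀ d + ∑ z, t z • w d z) := by
    intro t
    funext d j
    simp only [fam, map_add, map_sum, map_smul, Pi.add_apply, Finset.sum_apply, Pi.smul_apply,
      smul_eq_mul, Algebra.algebraMap_self, RingHom.id_apply]
  have hfam' : ∀ t : T → K, fam K (fun d => e' (w₀' d)) (fun d z => e' (w' d z)) t =
      fun d => e' (w₀' d + ∑ z, t z • w' d z) := by
    intro t
    funext d j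
    simp only [fam, map_add, map_sum, map_smul, Pi.add_apply, Finset.sum_apply, Pi.smul_apply,
      smul_eq_mul, Algebra.algebraMap_self, RingHom.id_apply]
  obtain ⟨P, hP, hP1⟩ := exists_poly (fun d => e (w₀ d)) (fun d z => e (w d z)) t₀ (by
    rw [hfam]
    exact (span_equiv e _).1 h)
  obtain ⟨P', hP', hP1'⟩ := exists_poly (fun d => e' (w₀' d)) (fun d z => e' (w' d z)) t₀' (by
    rw [hfam']
    exact (span_equiv e' _).1 h')
  have hPn : P ≠ 0 := by rintro rfl; exact hP (map_zero _)
  have hPn' : P' ≠ 0 := by rintro rfl; exact hP' (map_zero _)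
  obtain ⟨t, ht⟩ : ∃ t : T → k,
      MvPolynomial.aeval (fun z => algebraMap k K (t z)) (P * P') ≠ 0 := by
    by_contra! hcon
    have hP0 : P * P' = 0 := by
      refine MvPolynomial.funext_set (fun _ => Set.range (algebraMap k K))
        (fun _ => Set.infinite_range_of_injective (algebraMap k K).injective) ?_
      intro x hx
      have hx' : ∀ z, ∃ c, algebraMap k K c = x z := fun z => hx z (Set.mem_univ z)
      choose t ht using hx'
      have h1 := hcon t
      have h2 : (fun z => algebraMap k K (t z)) = x := funext ht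
      rw [h2, MvPolynomial.aeval_eq_eval] at h1
      rw [map_zero]
      exact h1
    exact mul_ne_zero hPn hPn' hP0
  rw [map_mul] at ht
  have h1 := hP1 K _ (left_ne_zero_of_mul ht)
  have h2 := hP1' K _ (right_ne_zero_of_mul ht)
  rw [hfam] at h1
  rw [hfam'] at h2
  exact ⟨t, (span_equiv e _).2 h1, (span_equiv e' _).2 h2⟩

end two

section choice

variable {k : Type u} [Field k] {A Q : Type u} [Ring A] [Algebra k A] [Ring Q] [Algebra k Q]
  {K : Type u} [Field K] [Algebra k K] {R : Type} [Fintype R] [DecidableEq R]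

/-- The constants can be chosen over `k`. -/
theorem exists_ave_of_span [Infinite k] [FiniteDimensional k A] [FiniteDimensional k Q]
    (τ : K ⊗[k] A →ₗ[K] K ⊗[k] Q) (u : K ⊗[k] A) (ε : K ⊗[k] Q) (a' : R → K ⊗[k] A)
    (h : Submodule.span K (Set.range (vecs τ u ε a')) = ⊤) :
    ∃ a : R → A, Submodule.span K (Set.range (vecs τ u ε fun j => (1 : K) ⊗ₜ[k] a j)) = ⊤ := by
  classical
  let b := Module.finBasis k A
  let w₀ : (K ⊗[k] A) ⊕ (K ⊗[k] Q) → Option R → K ⊗[k] Q := fun d =>
    match d with
    | .inl x => Pi.single none (τ (u * x))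
    | .inr q => Pi.single none (ε * q)
  let w : (K ⊗[k] A) ⊕ (K ⊗[k] Q) → (R × Fin (Module.finrank k A)) → Option R → K ⊗[k] Q :=
    fun d z =>
      match d with
      | .inl x => Pi.single (some z.1) (τ ((1 : K) ⊗ₜ[k] b z.2 * (u * x)))
      | .inr _ => 0
  have key : ∀ t : R × Fin (Module.finrank k A) → K,
      (fun d => w₀ d + ∑ z, t z • w d z) =
        vecs τ u ε fun j => ∑ i, t (j, i) • ((1 : K) ⊗ₜ[k] b i) := by
    intro t
    funext d j
    rcases d with x | q
    · rw [Pi.add_apply, Finset.sum_apply]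
      rcases j with _ | j
      · simp only [w₀, w, vecs, Pi.single_eq_same, Pi.smul_apply, Option.elim_none]
        rw [Finset.sum_eq_zero, add_zero]
        intro z _
        rw [Pi.single_eq_of_ne (by simp), smul_zero]
      · simp only [w₀, w, vecs, Pi.smul_apply, Option.elim_some]
        rw [Pi.single_eq_of_ne (by simp), zero_add, Fintype.sum_prod_type,
          Finset.sum_eq_single j]
        · rw [Finset.sum_mul, map_sum]
          refine Finset.sum_congr rfl fun i _ => ?_
          rw [Pi.single_eq_same, smul_mul_assoc, map_smul]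
        · intro j' _ hj'
          refine Finset.sum_eq_zero fun i _ => ?_
          rw [Pi.single_eq_of_ne (by simpa using Ne.symm hj'), smul_zero]
        · intro h; exact absurd (Finset.mem_univ _) h
    · simp only [w₀, w, vecs, smul_zero, Finset.sum_const_zero, add_zero]
  obtain ⟨t, ht⟩ := exists_rational_mod (k := k) w₀ w
    (fun z => (bas K b).repr (a' z.1) z.2) (by
      rw [key]
      have h1 : ∀ j : R, ∑ i, (bas K b).repr (a' j) i • ((1 : K) ⊗ₜ[k] b i) = a' j := by
        intro j
        conv_rhs => rw [← (bas K b).sum_repr (a' j)]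
        exact Finset.sum_congr rfl fun i _ => by rw [Algebra.TensorProduct.basis_apply]
      simp only [h1]
      exact h)
  refine ⟨fun j => ∑ i, t (j, i) • b i, ?_⟩
  rw [key fun z => algebraMap k K (t z)] at ht
  have h3 : (fun j : R => (1 : K) ⊗ₜ[k] ∑ i, t (j, i) • b i) =
      fun j => ∑ i, algebraMap k K (t (j, i)) • ((1 : K) ⊗ₜ[k] b i) := by
    funext j
    rw [TensorProduct.tmul_sum]
    refine Finset.sum_congr rfl fun i _ => ?_
    rw [TensorProduct.tmul_smul, algebraMap_smul]
  rw [h3]
  exact ht

end choice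

section choice2

variable {k : Type u} [Field k] {A Q : Type u} [Ring A] [Algebra k A] [Ring Q] [Algebra k Q]
  {K : Type u} [Field K] [Algebra k K] {M : Type u} [Field M] [Algebra k M] [Algebra K M]
  [IsScalarTower k K M] {R : Type} [Fintype R] [DecidableEq R]

/-- Choice of a unit of the corner over `K` and of the constants over `k`. -/
theorem exists_unit_ave [Infinite k] [FiniteDimensional k A] [FiniteDimensional k Q]
    (τ : M ⊗[k] A →ₗ[M] M ⊗[k] Q) (c : K ⊗[k] A) (hc : c * c = c) (ε : M ⊗[k] Q)
    (φ : M ⊗[k] A) (hcφ : bc k A K M c * φ = φ)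
    (u₁ : M ⊗[k] A) (hu₁ : bc k A K M c * u₁ = u₁) (a₁ : R → M ⊗[k] A)
    (h : Submodule.span M (Set.range fun d : (M ⊗[k] A) ⊕ (M ⊗[k] Q) => (match d with
      | .inl x => fun j => j.elim (τ (u₁ * (φ * x))) fun j => τ (a₁ j * (φ * x))
      | .inr q => Pi.single none (ε * q) : Option R → M ⊗[k] Q)) = ⊤) :
    ∃ (u v : K ⊗[k] A) (a : R → A), c * u = u ∧ u * c = u ∧ (u + (1 - c)) * v = 1 ∧
      v * (u + (1 - c)) = 1 ∧ Submodule.span M (Set.range (vecs τ (bc k A K M u * φ) ε
        fun j => (1 : M) ⊗ₜ[k] a j)) = ⊤ := by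
  classical
  have : Infinite K := Infinite.of_injective _ (algebraMap k K).injective
  let b := Module.finBasis k A
  let T := Fin (Module.finrank k A) ⊕ (R × Fin (Module.finrank k A))
  -- the first family
  let w₀ : (M ⊗[k] A) ⊕ (M ⊗[k] Q) → Option R → M ⊗[k] Q := fun d =>
    match d with
    | .inl _ => 0
    | .inr q => Pi.single none (ε * q)
  let w : (M ⊗[k] A) ⊕ (M ⊗[k] Q) → T → Option R → M ⊗[k] Q := fun d z =>
    match d, z with
    | .inl x, .inl i => Pi.single none
        (τ (bc k A K M (c * (1 ⊗ₜ b i) * c) * (φ * x)))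
    | .inl x, .inr (j, i) => Pi.single (some j) (τ (((1 : M) ⊗ₜ[k] b i) * (φ * x)))
    | .inr _, _ => 0
  have key : ∀ t : T → M, (fun d => w₀ d + ∑ z, t z • w d z) =
      fun d : (M ⊗[k] A) ⊕ (M ⊗[k] Q) => (match d with
      | .inl x => fun j => j.elim (τ ((∑ i, t (.inl i) • bc k A K M (c * (1 ⊗ₜ b i) * c)) *
          (φ * x))) fun j => τ ((∑ i, t (.inr (j, i)) • ((1 : M) ⊗ₜ[k] b i)) * (φ * x))
      | .inr q => Pi.single none (ε * q) : Option R → M ⊗[k] Q) := by
    intro t
    funext d j
    rcases d with x | q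
    · rw [Pi.add_apply, Finset.sum_apply, Fintype.sum_sum_type]
      rcases j with _ | j
      · simp only [w₀, w, Pi.zero_apply, Pi.single_eq_same, Pi.smul_apply, Option.elim_none]
        rw [zero_add, Finset.sum_mul, map_sum]
        have h2 : ∑ z : R × Fin (Module.finrank k A), t (.inr z) •
            (Pi.single (some z.1) (τ (((1 : M) ⊗ₜ[k] b z.2) * (φ * x))) :
              Option R → M ⊗[k] Q) none = 0 :=
          Finset.sum_eq_zero fun z _ => by rw [Pi.single_eq_of_ne (by simp), smul_zero]
        rw [h2, add_zero]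
        exact Finset.sum_congr rfl fun i _ => by rw [smul_mul_assoc, map_smul]
      · simp only [w₀, w, Pi.zero_apply, Pi.smul_apply, Option.elim_some]
        have h2 : ∑ i : Fin (Module.finrank k A), t (.inl i) •
            (Pi.single none (τ (bc k A K M (c * (1 ⊗ₜ b i) * c) * (φ * x))) :
              Option R → M ⊗[k] Q) (some j) = 0 :=
          Finset.sum_eq_zero fun z _ => by rw [Pi.single_eq_of_ne (by simp), smul_zero]
        rw [h2, zero_add, zero_add, Fintype.sum_prod_type, Finset.sum_eq_single j]
        · rw [Finset.sum_mul, map_sum]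
          refine Finset.sum_congr rfl fun i _ => ?_
          rw [Pi.single_eq_same, smul_mul_assoc, map_smul]
        · intro j' _ hj'
          refine Finset.sum_eq_zero fun i _ => ?_
          rw [Pi.single_eq_of_ne (by simpa using Ne.symm hj'), smul_zero]
        · intro h; exact absurd (Finset.mem_univ _) h
    · simp only [w₀, w, smul_zero, Finset.sum_const_zero, add_zero]
  have hrepr : ∀ x : M ⊗[k] A, ∑ i, (bas M b).repr x i • ((1 : M) ⊗ₜ[k] b i) = x := by
    intro x
    conv_rhs => rw [← (bas M b).sum_repr x]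
    exact Finset.sum_congr rfl fun i _ => by rw [Algebra.TensorProduct.basis_apply]
  have hrepr' : ∀ x : M ⊗[k] A, ∑ i, (bas M b).repr x i • bc k A K M (c * (1 ⊗ₜ b i) * c) =
      bc k A K M c * x * bc k A K M c := by
    intro x
    conv_rhs => rw [← hrepr x, Finset.mul_sum, Finset.sum_mul]
    refine Finset.sum_congr rfl fun i _ => ?_
    rw [map_mul, map_mul, bc_one, mul_smul_comm, smul_mul_assoc]
  -- the second family
  let w₀' : M ⊗[k] A → M ⊗[k] A := fun y => bc k A K M (1 - c) * y
  let w' : M ⊗[k] A → T → M ⊗[k] A := fun y z =>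
    match z with
    | .inl i => bc k A K M (c * (1 ⊗ₜ b i) * c) * y
    | .inr _ => 0
  have key' : ∀ (t : T → M) y, w₀' y + ∑ z, t z • w' y z =
      (∑ i, t (.inl i) • bc k A K M (c * (1 ⊗ₜ b i) * c) + bc k A K M (1 - c)) * y := by
    intro t y
    rw [Fintype.sum_sum_type]
    simp only [w₀', w', smul_zero, Finset.sum_const_zero, add_zero]
    rw [add_mul, Finset.sum_mul, add_comm]
    simp only [smul_mul_assoc]
  obtain ⟨t, ht1, ht2⟩ := exists_rational_two (k := K) w₀ w
    (Sum.elim (fun i => (bas M b).repr u₁ i) fun z => (bas M b).repr (a₁ z.1) z.2) (by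
      rw [key]
      simp only [Sum.elim_inl, Sum.elim_inr, hrepr, hrepr']
      rw [hu₁]
      have h1 : ∀ x, u₁ * bc k A K M c * (φ * x) = u₁ * (φ * x) := fun x => by
        rw [mul_assoc, ← mul_assoc _ φ x, hcφ]
      simp only [h1]
      exact h) w₀' w' (Sum.elim (fun i => (bas M b).repr 1 i) fun _ => 0) (by
      simp only [key']
      simp only [Sum.elim_inl, hrepr']
      rw [eq_top_iff]
      intro x _
      refine Submodule.subset_span ⟨x, ?_⟩
      change (_ : M ⊗[k] A) * x = x
      rw [mul_one, ← map_mul, hc, ← map_add, add_sub_cancel, map_one, one_mul])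
  -- the element `u`
  set u : K ⊗[k] A := ∑ i, t (.inl i) • (c * (1 ⊗ₜ b i) * c) with hu
  have hbu : bc k A K M u = ∑ i, algebraMap K M (t (.inl i)) •
      bc k A K M (c * (1 ⊗ₜ b i) * c) := by
    rw [hu, map_sum]
    exact Finset.sum_congr rfl fun i _ => bc_smul _ _
  have hcu : c * u = u := by
    rw [hu, Finset.mul_sum]
    refine Finset.sum_congr rfl fun i _ => ?_
    rw [mul_smul_comm, ← mul_assoc, ← mul_assoc, hc]
  have huc : u * c = u := by
    rw [hu, Finset.sum_mul]
    refine Finset.sum_congr rfl fun i _ => ?_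
    rw [smul_mul_assoc, mul_assoc, hc]
  have hinj : Function.Injective fun y : M ⊗[k] A => bc k A K M (u + (1 - c)) * y := by
    have h1 : Function.Surjective (LinearMap.mulLeft M (bc k A K M (u + (1 - c)))) := by
      rw [← LinearMap.range_eq_top, eq_top_iff, ← ht2, Submodule.span_le]
      rintro _ ⟨y, rfl⟩
      refine ⟨y, ?_⟩
      change bc k A K M (u + (1 - c)) * y = _
      beta_reduce
      rw [key', map_add, hbu]
    exact (LinearMap.injective_iff_surjective (K := M)).2 h1
  have hinjK : Function.Injective (LinearMap.mulLeft K (u + (1 - c))) := by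
    intro x y hxy
    apply bc_injective (k := k) (A := A) (K := K) (L := M)
    apply hinj
    change bc k A K M (u + (1 - c)) * bc k A K M x = bc k A K M (u + (1 - c)) * bc k A K M y
    rw [← map_mul, ← map_mul]
    congr 1
  obtain ⟨v, hv⟩ := LinearMap.injective_iff_surjective.1 hinjK 1
  have hv : (u + (1 - c)) * v = 1 := hv
  have hv' : v * (u + (1 - c)) = 1 := by
    apply hinjK
    change (u + (1 - c)) * (v * (u + (1 - c))) = (u + (1 - c)) * 1
    rw [← mul_assoc, hv, one_mul, mul_one]
  -- the constants over `K`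
  let a' : R → M ⊗[k] A := fun j =>
    (∑ i, algebraMap K M (t (.inr (j, i))) • ((1 : M) ⊗ₜ[k] b i)) * bc k A K M v
  have huφ : bc k A K M u * φ = bc k A K M (u + (1 - c)) * φ := by
    rw [map_add, map_sub, map_one, add_mul, sub_mul, one_mul, hcφ, sub_self, add_zero]
  have ha' : ∀ j x, a' j * (bc k A K M u * φ * x) =
      (∑ i, algebraMap K M (t (.inr (j, i))) • ((1 : M) ⊗ₜ[k] b i)) * (φ * x) := by
    intro j x
    rw [huφ]
    change _ * bc k A K M v * _ = _
    rw [mul_assoc, mul_assoc (bc k A K M (u + (1 - c))), ← mul_assoc (bc k A K M v), ← map_mul,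
      hv', map_one, one_mul]
  obtain ⟨a, ha⟩ := exists_ave_of_span τ (bc k A K M u * φ) ε a' (by
    rw [key] at ht1
    rw [← ht1]
    congr 1
    refine congrArg Set.range (funext fun d => ?_)
    rcases d with x | q
    · funext j
      rcases j with _ | j
      · simp only [vecs, Option.elim_none]
        rw [← hbu, mul_assoc]
      · simp only [vecs, Option.elim_some]
        rw [ha']
    · rfl)
  exact ⟨u, v, a, hcu, huc, hv, hv', ha⟩

end choice2

end Pool.Agent.H49.Cop
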