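import Pool.Agent.H49.Cop.FibB

/-!
# Fibrations of generalized Brauer-Severi varieties: the generic point
-/

open TensorProduct

namespace Pool.Agent.H49.Cop

open Pool.Agent.H49.GSB

universe u

section

variable {k : Type u} [Field k] {A Q : Type u} [Ring A] [Algebra k A] [Ring Q] [Algebra k Q]

theorem IsExp.baseChange {σ : Type*} [Fintype σ] {ι : Q →ₐ[k] A} {τ : A →ₗ[k] Q}
    {p p' : σ → A} (h : IsExp ι τ p p') (K : Type u) [Field K] [Algebra k K] :
    IsExp (iK K ι) (tK K τ) (fun s => (1 : K) ⊗ₜ[k] p s) (fun s => (1 : K) ⊗ₜ[k] p' s) where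
  tau_mul := fun q x => by
    induction q using TensorProduct.induction_on with
    | zero => simp
    | add q q' hq hq' => rw [map_add, add_mul, map_add, hq, hq', add_mul]
    | tmul c q =>
      induction x using TensorProduct.induction_on with
      | zero => simp
      | add x x' hx hx' => rw [mul_add, map_add, hx, hx', map_add, mul_add]
      | tmul d x => simp [h.tau_mul]
  mul_tau := fun x q => by
    induction q using TensorProduct.induction_on with
    | zero => simp
    | add q q' hq hq' => rw [map_add, mul_add, map_add, hq, hq', mul_add]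
    | tmul c q =>
      induction x using TensorProduct.induction_on with
      | zero => simp
      | add x x' hx hx' => rw [add_mul, map_add, hx, hx', map_add, add_mul]
      | tmul d x => simp [h.mul_tau]
  expand := fun x => by
    induction x using TensorProduct.induction_on with
    | zero => simp
    | add x x' hx hx' =>
      conv_rhs => rw [← hx, ← hx']
      rw [← Finset.sum_add_distrib]
      refine Finset.sum_congr rfl fun s _ => ?_
      rw [mul_add, map_add, map_add, mul_add]
    | tmul c x =>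
      conv_rhs => rw [← h.expand x, TensorProduct.tmul_sum]
      refine Finset.sum_congr rfl fun s _ => ?_
      simp

end

section gen

variable {k : Type u} [Field k] {A Q : Type u} [Ring A] [Algebra k A] [Ring Q] [Algebra k Q]
  {K : Type u} [Field K] [Algebra k K] {L : Type u} [Field L] [Algebra k L] [Algebra K L]
  [IsScalarTower k K L] {R M : Type} [Fintype R] [DecidableEq R] [Fintype M]
  {ι : Q →ₐ[k] A} {τ : A →ₗ[k] Q} {ε c : K ⊗[k] Q} {f f' g : K ⊗[k] A} {a : R → A}
  {e : M → K ⊗[k] Q} {X : R × M → L}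

/-- The generic value of `γ`. -/
noncomputable def gm (e : M → K ⊗[k] Q) (X : R × M → L) (j : R) : L ⊗[k] Q :=
  ∑ i, X (j, i) • bc k Q K L (e i)

theorem frame_bc (h : IsFrame (iK K ι) (tK K τ) ε c f f' 0 (fun _ : R => (0 : K ⊗[k] Q)))
    (htau : ∀ q x, tK L τ (iK L ι q * x) = q * tK L τ x) (he : ∀ i, ε * e i = e i) :
    IsFrame (iK L ι) (tK L τ) (bc k Q K L ε) (bc k Q K L c) (bc k A K L f) (bc k A K L f') 0
      (gm e X) where
  tau_mul := htau
  add_one := by rw [← map_add, h.add_one, map_one]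
  mul_zero := by rw [← map_mul, h.mul_zero, map_zero]
  f_add := by rw [← map_add, h.f_add, bc_iK]
  ff := by rw [← map_mul, h.ff]
  ff' := by rw [← map_mul, h.ff', map_zero]
  f'f := by rw [← map_mul, h.f'f, map_zero]
  f'z := MulZeroClass.mul_zero _
  zf := zero_mul _
  εγ := fun j => by
    rw [gm, Finset.mul_sum]
    refine Finset.sum_congr rfl fun i _ => ?_
    rw [mul_smul_comm, ← map_mul, he]

theorem gm_eq : mu (iK L ι) (bc k Q K L ε) (fun j => (1 : L) ⊗ₜ[k] a j) (gm e X) +
      (bc k A K L f' - 0) =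
    bc k A K L (iK K ι ε + f') +
      ∑ z, X z • bc k A K L (iK K ι (e z.2) * (1 ⊗ₜ a z.1)) := by
  have h1 : ∑ j : R, iK L ι (gm e X j) * (1 : L) ⊗ₜ[k] a j =
      ∑ z : R × M, X z • bc k A K L (iK K ι (e z.2) * (1 ⊗ₜ a z.1)) := by
    rw [Fintype.sum_prod_type]
    refine Finset.sum_congr rfl fun j _ => ?_
    rw [gm, map_sum, Finset.sum_mul]
    refine Finset.sum_congr rfl fun i _ => ?_
    rw [map_smul, smul_mul_assoc, ← bc_iK, ← bc_one (K := K), ← map_mul]
  rw [mu, h1, map_add, bc_iK]
  abel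

/-- The spanning family at the origin. -/
theorem span_zero' (hF : IsFrame (iK K ι) (tK K τ) ε c f f' 0 (fun _ : R => (0 : K ⊗[k] Q)))
    (hg : (iK K ι ε + f') * g = 0)
    (hspan : Submodule.span K (Set.range (vecs (tK K τ) g ε fun j => (1 : K) ⊗ₜ[k] a j)) = ⊤) :
    Submodule.span K (Set.range (famv (iK K ι) (tK K τ) ε f f' 0
      (fun j => (1 : K) ⊗ₜ[k] a j) fun _ => 0)) = ⊤ := by
  have hmu : mu (iK K ι) ε (fun j => (1 : K) ⊗ₜ[k] a j) (fun _ : R => (0 : K ⊗[k] Q)) =
      iK K ι ε := by
    rw [mu, Finset.sum_eq_zero, add_zero]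
    intro j _
    rw [map_zero, zero_mul]
  set W := Submodule.span K (Set.range (famv (iK K ι) (tK K τ) ε f f' 0
      (fun j => (1 : K) ⊗ₜ[k] a j) fun _ => 0)) with hW
  -- the second component
  have hsnd : ∀ v : Option R → K ⊗[k] Q, ((0 : K ⊗[k] A), v) ∈ W := by
    intro v
    have hv : v ∈ Submodule.span K (Set.range (vecs (tK K τ) g ε
      fun j => (1 : K) ⊗ₜ[k] a j)) := by rw [hspan]; trivial
    induction hv using Submodule.span_induction with
    | mem v hv =>
      obtain ⟨x | q, rfl⟩ := hv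
      · refine Submodule.subset_span ⟨.inl (g * x), ?_⟩
        refine Prod.ext ?_ ?_
        · change (mu _ _ _ _ + (f' - 0)) * (g * x) = 0
          rw [hmu, sub_zero, ← mul_assoc, hg, zero_mul]
        · rfl
      · exact Submodule.subset_span ⟨.inr (.inr q), rfl⟩
    | zero => exact Submodule.zero_mem _
    | add v w _ _ hv hw =>
      have := Submodule.add_mem _ hv hw
      simpa using this
    | smul c v _ hv =>
      have := Submodule.smul_mem _ c hv
      simpa using this
  have hfst : ∀ y : K ⊗[k] A, (y, (0 : Option R → K ⊗[k] Q)) ∈ W := by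
    intro y
    have h1 : famv (iK K ι) (tK K τ) ε f f' 0 (fun j => (1 : K) ⊗ₜ[k] a j)
        (fun _ => 0) (.inl y) ∈ W := Submodule.subset_span ⟨_, rfl⟩
    have h2 : famv (iK K ι) (tK K τ) ε f f' 0 (fun j => (1 : K) ⊗ₜ[k] a j)
        (fun _ => 0) (.inr (.inl y)) ∈ W := Submodule.subset_span ⟨_, rfl⟩
    have h3 := hsnd (famv (iK K ι) (tK K τ) ε f f' 0 (fun j => (1 : K) ⊗ₜ[k] a j)
        (fun _ => 0) (.inl y)).2
    have h4 := Submodule.sub_mem _ (Submodule.add_mem _ h1 h2) h3
    have h5 : (y, (0 : Option R → K ⊗[k] Q)) =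
        famv (iK K ι) (tK K τ) ε f f' 0 (fun j => (1 : K) ⊗ₜ[k] a j) (fun _ => 0) (.inl y) +
        famv (iK K ι) (tK K τ) ε f f' 0 (fun j => (1 : K) ⊗ₜ[k] a j) (fun _ => 0)
          (.inr (.inl y)) -
        ((0 : K ⊗[k] A), (famv (iK K ι) (tK K τ) ε f f' 0 (fun j => (1 : K) ⊗ₜ[k] a j)
          (fun _ => 0) (.inl y)).2) := by
      refine Prod.ext ?_ ?_
      · change y = (mu _ _ _ _ + (f' - 0)) * y + f * y - 0
        rw [hmu, sub_zero, sub_zero, ← add_mul]
        have h6 : iK K ι ε + iK K ι c = 1 := by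
          rw [← map_add, hF.add_one, map_one]
        rw [← hF.f_add] at h6
        have h7 : iK K ι ε + f' + f = 1 := by rw [← h6]; abel
        rw [h7, one_mul]
      · change (0 : Option R → K ⊗[k] Q) = _ + 0 - _
        rw [add_zero, sub_self]
    rw [h5]
    exact h4
  rw [eq_top_iff]
  rintro ⟨x, v⟩ _
  have := Submodule.add_mem _ (hfst x) (hsnd v)
  simpa using this

/-- The family spans for the generic values of the parameters. -/
theorem span_generic' [FiniteDimensional k A] [FiniteDimensional k Q]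
    (hX : AlgebraicIndependent K X)
    (hF : IsFrame (iK K ι) (tK K τ) ε c f f' 0 (fun _ : R => (0 : K ⊗[k] Q)))
    (hg : (iK K ι ε + f') * g = 0)
    (hspan : Submodule.span K (Set.range (vecs (tK K τ) g ε fun j => (1 : K) ⊗ₜ[k] a j)) = ⊤) :
    Submodule.span L (Set.range (famv (iK L ι) (tK L τ) (bc k Q K L ε) (bc k A K L f)
      (bc k A K L f') 0 (fun j => (1 : L) ⊗ₜ[k] a j) (gm e X))) = ⊤ := by
  classical
  let bA := Module.finBasis k A
  let bQ := Module.finBasis k Q
  let B : Module.Basis _ K ((K ⊗[k] A) × (Option R → K ⊗[k] Q)) :=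
    (bas K bA).prod (Pi.basis fun _ : Option R => bas K bQ)
  let B' : Module.Basis _ L ((L ⊗[k] A) × (Option R → L ⊗[k] Q)) :=
    (bas L bA).prod (Pi.basis fun _ : Option R => bas L bQ)
  let β : (K ⊗[k] A) × (Option R → K ⊗[k] Q) → (L ⊗[k] A) × (Option R → L ⊗[k] Q) :=
    fun w => (bc k A K L w.1, fun j => bc k Q K L (w.2 j))
  have hβ : ∀ w j, B'.repr (β w) j = algebraMap K L (B.repr w j) := by
    rintro w (i | ⟨j, i⟩)
    · rw [Module.Basis.prod_repr_inl, Module.Basis.prod_repr_inl]
      exact bas_repr_bc bA w.1 i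
    · rw [Module.Basis.prod_repr_inr, Module.Basis.prod_repr_inr, Pi.basis_repr, Pi.basis_repr]
      exact bas_repr_bc bQ (w.2 j) i
  let w : (K ⊗[k] A) ⊕ (K ⊗[k] A) ⊕ (K ⊗[k] Q) → R × M →
      (K ⊗[k] A) × (Option R → K ⊗[k] Q) := fun d z =>
    match d with
    | .inl x => (iK K ι (e z.2) * (1 ⊗ₜ a z.1) * x, 0)
    | .inr _ => 0
  have h1 := generic_mod B B' β hβ X hX _ w (span_zero' hF hg hspan)
  rw [eq_top_iff, ← h1]
  apply Submodule.span_mono
  rintro _ ⟨x | y | q, rfl⟩
  · refine ⟨.inl (bc k A K L x), ?_⟩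
    refine Prod.ext ?_ (funext fun j => ?_)
    · change (mu (iK L ι) (bc k Q K L ε) (fun j => (1 : L) ⊗ₜ[k] a j) (gm e X) +
        (bc k A K L f' - 0)) * bc k A K L x = _
      rw [gm_eq, add_mul, ← map_mul, Finset.sum_mul]
      have hmu : mu (iK K ι) ε (fun j => (1 : K) ⊗ₜ[k] a j)
          (fun _ : R => (0 : K ⊗[k] Q)) = iK K ι ε := by
        rw [mu, Finset.sum_eq_zero, add_zero]
        intro j _
        rw [map_zero, zero_mul]
      rw [Prod.fst_add, Prod.fst_sum]
      congr 1
      · simp only [β, famv, hmu, sub_zero]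
      · refine Finset.sum_congr rfl fun z _ => ?_
        simp only [β, w, Prod.smul_fst, map_mul, smul_mul_assoc]
    · have h2 : (∑ z, X z • β (w (.inl x) z)).2 j = 0 := by
        rw [Prod.snd_sum, Finset.sum_apply]
        refine Finset.sum_eq_zero fun z _ => ?_
        simp only [β, w, Prod.smul_snd, Pi.smul_apply, Pi.zero_apply, map_zero, smul_zero]
      rw [Prod.snd_add, Pi.add_apply, h2, add_zero]
      rcases j with _ | j
      · simp only [β, famv, Option.elim_none, bc_tK]
      · simp only [β, famv, Option.elim_some, bc_tK, map_mul, bc_one]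
  · refine ⟨.inr (.inl (bc k A K L y)), ?_⟩
    have h2 : (∑ z, X z • β (w (.inr (.inl y)) z)) = 0 := by
      refine Finset.sum_eq_zero fun z _ => ?_
      refine Prod.ext ?_ (funext fun j => ?_)
      · simp [β, w]
      · simp [β, w]
    beta_reduce
    rw [h2, add_zero]
    refine Prod.ext ?_ (funext fun j => ?_)
    · simp only [β, famv, map_mul]
    · simp only [β, famv, Pi.zero_apply, map_zero]
  · refine ⟨.inr (.inr (bc k Q K L q)), ?_⟩
    have h2 : (∑ z, X z • β (w (.inr (.inr q)) z)) = 0 := by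
      refine Finset.sum_eq_zero fun z _ => ?_
      refine Prod.ext ?_ (funext fun j => ?_)
      · simp [β, w]
      · simp [β, w]
    beta_reduce
    rw [h2, add_zero]
    refine Prod.ext ?_ (funext fun j => ?_)
    · simp only [β, famv, map_zero]
    · rcases j with _ | j
      · simp only [β, famv, Pi.single_eq_same, map_mul]
      · simp only [β, famv]
        rw [Pi.single_eq_of_ne (by simp), Pi.single_eq_of_ne (by simp), map_zero]

/-- The ideal is a complement of `(1 - f) A` for the generic values of the parameters. -/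
theorem surj_generic' [FiniteDimensional k A] (hX : AlgebraicIndependent K X)
    (hF : IsFrame (iK K ι) (tK K τ) ε c f f' 0 (fun _ : R => (0 : K ⊗[k] Q))) :
    Function.Surjective fun x : L ⊗[k] A =>
      (mu (iK L ι) (bc k Q K L ε) (fun j => (1 : L) ⊗ₜ[k] a j) (gm e X) +
        (bc k A K L f' - 0) + bc k A K L f) * x := by
  classical
  let bA := Module.finBasis k A
  have h0 : iK K ι ε + f' + f = 1 := by
    have h6 : iK K ι ε + iK K ι c = 1 := by
      rw [← map_add, hF.add_one, map_one]
    rw [← hF.f_add] at h6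
    rw [← h6]
    abel
  have h1 := generic_mod (bas K bA) (bas L bA) (bc k A K L) (bas_repr_bc bA) X hX
    (fun x : K ⊗[k] A => (iK K ι ε + f' + f) * x)
    (fun x z => iK K ι (e z.2) * (1 ⊗ₜ a z.1) * x) (by
      rw [eq_top_iff]
      intro x _
      refine Submodule.subset_span ⟨x, ?_⟩
      change (_ : K ⊗[k] A) * _ = _
      rw [h0, one_mul])
  have h2 : LinearMap.range (LinearMap.mulLeft L
      (mu (iK L ι) (bc k Q K L ε) (fun j => (1 : L) ⊗ₜ[k] a j) (gm e X) +
        (bc k A K L f' - 0) + bc k A K L f)) = ⊤ := by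
    rw [eq_top_iff, ← h1, Submodule.span_le]
    rintro _ ⟨x, rfl⟩
    refine ⟨bc k A K L x, ?_⟩
    rw [LinearMap.mulLeft_apply, gm_eq]
    simp only [add_mul, Finset.sum_mul, smul_mul_assoc, map_mul, map_add]
    abel
  intro y
  obtain ⟨x, hx⟩ : y ∈ LinearMap.range (LinearMap.mulLeft L
      (mu (iK L ι) (bc k Q K L ε) (fun j => (1 : L) ⊗ₜ[k] a j) (gm e X) +
        (bc k A K L f' - 0) + bc k A K L f)) := by
    rw [h2]; trivial
  exact ⟨x, hx⟩

end gen

end Pool.Agent.H49.Cop
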