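import Pool.Agent.H49.Cop.FibC

/-!
# Fibrations of generalized Brauer-Severi varieties: the field of definition
-/

open TensorProduct

namespace Pool.Agent.H49.Cop

open Pool.Agent.H49.GSB

universe u

section

variable {k : Type u} [Field k] {A : Type u} [Ring A] [Algebra k A]
  {K : Type u} [Field K] [Algebra k K] {L : Type u} [Field L] [Algebra k L] [Algebra K L]
  [IsScalarTower k K L]

/-- The extension of the right ideal of an idempotent. -/
theorem ext_idl' {f : K ⊗[k] A} (hf : f * f = f) : ext L (idl K f) = idl L (bc k A K L f) := by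
  ext q
  rw [mem_idl]
  constructor
  · intro hq
    induction hq using Submodule.span_induction with
    | mem x hx =>
      obtain ⟨y, hy, rfl⟩ := hx
      have hy' : f * y = y := hy
      rw [← map_mul, hy']
    | zero => rw [mul_zero]
    | add x y _ _ hx hy => rw [mul_add, hx, hy]
    | smul c x _ hx => rw [mul_smul_comm, hx]
  · intro hq
    rw [← hq]
    exact ext_right idl_right (bc_mem_ext (mem_idl.2 hf)) q

theorem finrank_idl_bc [FiniteDimensional k A] {f : K ⊗[k] A} (hf : f * f = f) :
    Module.finrank L (idl L (bc k A K L f)) = Module.finrank K (idl K f) := by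
  rw [← ext_idl' hf, ext_finrank]

end

section

variable {k : Type u} [Field k] {A Q : Type u} [Ring A] [Algebra k A] [Ring Q] [Algebra k Q]
  {K : Type u} [Field K] [Algebra k K] {M : Type u} [Field M] [Algebra k M] [Algebra K M]
  {L : Type u} [Field L] [Algebra k L] [Algebra K L] [Algebra M L]
  [IsScalarTower k K M] [IsScalarTower k K L] [IsScalarTower k M L] [IsScalarTower K M L]

theorem bc_bc (x : K ⊗[k] A) : bc k A M L (bc k A K M x) = bc k A K L x := by
  induction x using TensorProduct.induction_on with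
  | zero => simp
  | tmul c a => simp [← IsScalarTower.algebraMap_apply]
  | add x y hx hy => simp only [map_add, hx, hy]

/-- If the extension of `I` is defined over `F ⊇ K` and `I` is not defined over a proper subfield of
`M` which contains `K` then `F` contains `M`. -/
theorem le_of_ext_stable' [FiniteDimensional k A] {I : Submodule M (M ⊗[k] A)}
    (hmin : ∀ F : IntermediateField k M, (∀ c : K, algebraMap K M c ∈ F) → DefinedOver F I → F = ⊤)
    (F : IntermediateField k L) (hK : ∀ c : K, algebraMap K L c ∈ F) (h : Stable F (ext L I))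
    (c : M) : algebraMap M L c ∈ F := by
  classical
  let b := Module.finBasis k A
  obtain ⟨S, y, h1, h2, h3⟩ := echelon (bas M b) I
  let F' : IntermediateField k M := F.comap (IsScalarTower.toAlgHom k M L)
  have key : ∀ s ∈ S, ∀ i, (bas M b).repr (y s) i ∈ F' := by
    intro s hs i
    change algebraMap M L _ ∈ F
    apply mem_of_forall
    intro l
    have h4 := h l _ (bc_mem_ext (L := L) (h1 s hs))
    have h5 := ext_echelon h3 h4
    rw [Finset.sum_eq_single s] at h5
    · have h6 := congrArg (fun x => (bas L b).repr x i) h5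
      simp only [map_smul, Finsupp.smul_apply, bas_repr_lam, bas_repr_bc, smul_eq_mul,
        LinearMap.coe_restrictScalars, h2 s hs s hs, if_true, map_one] at h6
      exact h6
    · intro t ht hts
      rw [bas_repr_lam, bas_repr_bc, h2 s hs t ht, if_neg (fun h => hts h.symm)]
      simp
    · intro h'; exact absurd hs h'
  have hF' : F' = ⊤ := by
    apply hmin
    · intro c
      change algebraMap M L (algebraMap K M c) ∈ F
      rw [← IsScalarTower.algebraMap_apply]
      exact hK c
    rw [DefinedOver, echelon_span h1 h3, Submodule.span_le]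
    rintro _ ⟨s, hs, rfl⟩
    refine Submodule.subset_span ⟨Submodule.subset_span ⟨s, hs, rfl⟩, ?_⟩
    refine ⟨∑ i, (⟨_, key s hs i⟩ : F') ⊗ₜ b i, ?_⟩
    rw [map_sum]
    conv_rhs => rw [← (bas M b).sum_repr (y s)]
    refine Finset.sum_congr rfl fun i _ => ?_
    rw [Algebra.TensorProduct.map_tmul, Algebra.TensorProduct.basis_apply,
      TensorProduct.smul_tmul', smul_eq_mul, mul_one]
    rfl
  have h7 : c ∈ F' := by rw [hF']; trivial
  exact h7

variable {R N : Type} [Fintype R] [DecidableEq R] [Fintype N]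
  {ι : Q →ₐ[k] A} {τ : A →ₗ[k] Q} {ε₀ c₀ : K ⊗[k] Q} {f f' g : M ⊗[k] A} {a : R → A}
  {e : N → K ⊗[k] Q} {X : R × N → L}

theorem pt_min' [FiniteDimensional k A] [FiniteDimensional k Q]
    (hX : AlgebraicIndependent M X)
    (hgen : ∀ F : IntermediateField k L, (∀ c : M, algebraMap M L c ∈ F) → (∀ z, X z ∈ F) →
      F = ⊤)
    (hc : c₀ * c₀ = c₀)
    (hminJ : ∀ F : IntermediateField k K, DefinedOver F (idl K c₀) → F = ⊤)
    (hminI : ∀ F : IntermediateField k M, (∀ c : K, algebraMap K M c ∈ F) →
      DefinedOver F (idl M f) → F = ⊤)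
    (hF : IsFrame (iK M ι) (tK M τ) (bc k Q K M ε₀) (bc k Q K M c₀) f f' 0
      (fun _ : R => (0 : M ⊗[k] Q)))
    (htau : ∀ q x, tK L τ (iK L ι q * x) = q * tK L τ x)
    (he : ∀ i, ε₀ * e i = e i) (hei : LinearIndependent K e)
    (hg : (iK M ι (bc k Q K M ε₀) + f') * g = 0)
    (hspan : Submodule.span M (Set.range (vecs (tK M τ) g (bc k Q K M ε₀)
      fun j => (1 : M) ⊗ₜ[k] a j)) = ⊤)
    (hdim : Module.finrank M (idl M f) = Module.finrank K (idl K c₀) +
      Fintype.card R * Module.finrank k Q)
    (F : IntermediateField k L) (hdef : DefinedOver F (pt (iK L ι)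
      (bc k Q M L (bc k Q K M ε₀)) (bc k A M L f') 0 (fun j => (1 : L) ⊗ₜ[k] a j)
      (gm (fun i => bc k Q K M (e i)) X))) :
    F = ⊤ := by
  classical
  have hst := hdef.stable
  have hfr := frame_bc (L := L) (X := X) (e := fun i => bc k Q K M (e i)) hF htau
    (fun i => by rw [← map_mul, he])
  have hcc : bc k Q K M c₀ * bc k Q K M c₀ = bc k Q K M c₀ := by rw [← map_mul, hc]
  have hdims : Module.finrank L (LinearMap.range (LinearMap.mulLeft L (bc k A M L f))) =
      Module.finrank L (LinearMap.range (LinearMap.mulLeft L (bc k Q M L (bc k Q K M c₀)))) +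
        Fintype.card R * Module.finrank L (L ⊗[k] Q) := by
    rw [range_mulLeft hfr.ff, range_mulLeft hfr.cc, finrank_idl_bc hF.ff, finrank_idl_bc hcc,
      finrank_idl_bc hc, hdim, Module.finrank_baseChange]
  obtain ⟨hex, huniq⟩ := hfr.bijective (a := fun j => (1 : L) ⊗ₜ[k] a j)
    (span_generic' hX hF hg hspan) hdims
  have hsurj := surj_generic' (a := a) (e := fun i => bc k Q K M (e i)) hX hF
  set I := pt (iK L ι) (bc k Q M L (bc k Q K M ε₀)) (bc k A M L f') 0
    (fun j => (1 : L) ⊗ₜ[k] a j) (gm (fun i => bc k Q K M (e i)) X) with hI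
  have hcbc : bc k Q M L (bc k Q K M c₀) = bc k Q K L c₀ := bc_bc c₀
  have hebc : bc k Q M L (bc k Q K M ε₀) = bc k Q K L ε₀ := bc_bc ε₀
  -- the ideal of `Q`
  have h1 : ∀ q, q ∈ ext L (idl K c₀) ↔ ∃ x ∈ I, tK L τ x = q ∧
      ∀ j, tK L τ ((1 : L) ⊗ₜ[k] a j * x) = 0 := by
    intro q
    rw [ext_idl' hc, mem_idl, ← hcbc]
    constructor
    · intro hq
      obtain ⟨x, hx, hx1, hx2⟩ := hex q hq 0
      refine ⟨x, hx, ?_, hx2⟩
      have h2 := hfr.relation hx
      simp only [hx2, Pi.zero_apply, mul_zero, Finset.sum_const_zero, add_zero] at h2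
      have h3 : (bc k Q M L (bc k Q K M ε₀) + bc k Q M L (bc k Q K M c₀)) * tK L τ x =
          tK L τ x := by
        rw [hfr.add_one, one_mul]
      rw [← h3, add_mul, h2, hx1, zero_add]
    · rintro ⟨x, hx, rfl, hx2⟩
      have h2 := hfr.relation hx
      simp only [hx2, mul_zero, Finset.sum_const_zero, add_zero] at h2
      have h3 : (bc k Q M L (bc k Q K M ε₀) + bc k Q M L (bc k Q K M c₀)) * tK L τ x =
          tK L τ x := by
        rw [hfr.add_one, one_mul]
      rwa [add_mul, h2, zero_add] at h3
  have hK : ∀ c : K, algebraMap K L c ∈ F := by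
    refine le_of_ext_stable hminJ F ?_
    intro l q hq
    obtain ⟨x, hx, rfl, hx2⟩ := (h1 q).1 hq
    refine (h1 _).2 ⟨_, hst l x hx, tK_lam τ _ x, fun j => ?_⟩
    rw [← lam_one_mul, tK_lam, hx2, map_zero]
  -- the coordinates of `γ`
  have hX1 : ∀ z, X z ∈ F := by
    rintro ⟨j, i⟩
    obtain ⟨x, hx, hx1, hx2⟩ := hex 0 (mul_zero _) (Pi.single j 1)
    have h3 : tK L τ x = -gm (fun i => bc k Q K M (e i)) X j := by
      have h4 := hfr.relation hx
      simp only [hx2] at h4
      rw [Finset.sum_eq_single j] at h4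
      · rw [Pi.single_eq_same, mul_one] at h4
        have h5 : (bc k Q M L (bc k Q K M ε₀) + bc k Q M L (bc k Q K M c₀)) * tK L τ x =
            tK L τ x := by
          rw [hfr.add_one, one_mul]
        rw [add_mul, hx1, add_zero] at h5
        rw [h5] at h4
        exact eq_neg_of_add_eq_zero_left h4
      · intro j' _ hj'
        rw [Pi.single_eq_of_ne hj', mul_zero]
      · intro h; exact absurd (Finset.mem_univ _) h
    apply mem_of_forall
    intro l
    have h6 : lam (l.restrictScalars k) x - l 1 • x = 0 := by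
      apply huniq _ (Submodule.sub_mem _ (hst l x hx) (Submodule.smul_mem _ _ hx))
      · rw [map_sub, map_smul, tK_lam, mul_sub, mul_smul_comm, hx1, smul_zero, sub_zero,
          hcbc, ← lam_bc_mul hK, ← hcbc, hx1, map_zero]
      · intro j'
        rw [mul_sub, mul_smul_comm, map_sub, map_smul, ← lam_one_mul, tK_lam, hx2]
        by_cases hj : j' = j
        · subst hj
          rw [Pi.single_eq_same]
          have h7 : lam (l.restrictScalars k) (1 : L ⊗[k] Q) = l 1 • (1 : L ⊗[k] Q) := by
            rw [Algebra.TensorProduct.one_def, lam_tmul, TensorProduct.smul_tmul', smul_eq_mul,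
              mul_one]
            rfl
          rw [h7, sub_self]
        · rw [Pi.single_eq_of_ne hj, map_zero, smul_zero, sub_zero]
    have h8 := congrArg (tK L τ) h6
    rw [map_sub, map_smul, tK_lam, h3, map_zero, map_neg, smul_neg, neg_sub_neg, gm,
      Finset.smul_sum, map_sum, ← Finset.sum_sub_distrib] at h8
    have h9 : ∑ i : N, (l 1 * X (j, i) - l (X (j, i))) • bc k Q K L (e i) = 0 := by
      rw [← h8]
      refine Finset.sum_congr rfl fun i _ => ?_
      rw [bc_bc, lam_smul_bc hK, sub_smul, smul_smul]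
    have h10 := indep (L := L) (T := Unit) (fun (i : N) _ => e i) (fun μ hμ =>
      Fintype.linearIndependent_iff.1 hei μ (hμ ())) (fun i => l 1 * X (j, i) -
        l (X (j, i))) (fun _ => h9) i
    exact (sub_eq_zero.1 h10).symm
  -- the ideal of `A`
  have hM : ∀ c : M, algebraMap M L c ∈ F := by
    refine le_of_ext_stable' (K := K) hminI F hK ?_
    have h2 : ∀ x ∈ I, iK L ι (bc k Q M L (bc k Q K M c₀)) * x = bc k A M L f * x := by
      intro x hx
      rw [← hfr.f_add, add_mul, (hfr.mem_iff.1 hx).2, zero_mul, add_zero]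
    intro l q hq
    rw [ext_idl' hF.ff, mem_idl] at hq ⊢
    obtain ⟨x, hx, hfx⟩ := hfr.exists_pt hsurj hq
    have h3 : lam (l.restrictScalars k) q =
        bc k A M L f * lam (l.restrictScalars k) x := by
      rw [← h2 _ (hst l x hx), ← hfx, ← h2 x hx, hcbc, ← bc_iK, ← lam_bc_mul hK]
    rw [h3, ← mul_assoc, hfr.ff]
  exact hgen F hM hX1

end

end Pool.Agent.H49.Cop
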