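import Pool.Agent.H49.Cop.FibD

/-!
# Fibrations of generalized Brauer-Severi varieties: the function field
-/

open TensorProduct

namespace Pool.Agent.H49.Cop

open Pool.Agent.H49.GSB

universe u

section datum

variable {k : Type u} [Field k] {P Q : Type u} [Ring P] [Algebra k P] [Ring Q] [Algebra k Q]

/-- The data of `P ⊗ Q`. -/
theorem exists_exp' [FiniteDimensional k P] [IsSimpleRing P] :
    ∃ (τ : P ⊗[k] Q →ₗ[k] Q) (p p' : Fin (Module.finrank k P) → P ⊗[k] Q),
      IsExp (Algebra.TensorProduct.includeRight : Q →ₐ[k] P ⊗[k] Q) τ p p' ∧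
        ∀ s, ∃ x : P, p' s = x ⊗ₜ 1 := by
  obtain ⟨t, _, ht⟩ := exists_functional (K := k) (R := P)
  let p := Module.finBasis k P
  obtain ⟨p', hp'⟩ := exists_dual t ht p
  let τ : P ⊗[k] Q →ₗ[k] Q := (TensorProduct.lid k Q).toLinearMap ∘ₗ LinearMap.rTensor Q t
  have hτ : ∀ x q, τ (x ⊗ₜ q) = t x • q := fun x q => by simp [τ]
  have hexp : ∀ x : P, ∑ s, t (p s * x) • p' s = x := by
    intro x
    rw [← sub_eq_zero]
    apply ht
    have h1 : ∀ i, t (p i * (∑ s, t (p s * x) • p' s - x)) = 0 := by
      intro i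
      rw [mul_sub, map_sub, Finset.mul_sum, map_sum, Finset.sum_eq_single i]
      · rw [mul_smul_comm, map_smul, hp', if_pos rfl, smul_eq_mul, mul_one, sub_self]
      · intro s _ hs
        rw [mul_smul_comm, map_smul, hp', if_neg (Ne.symm hs), smul_zero]
      · intro h; exact absurd (Finset.mem_univ _) h
    intro y
    rw [← p.sum_repr y, Finset.sum_mul, map_sum]
    refine Finset.sum_eq_zero fun i _ => ?_
    rw [smul_mul_assoc, map_smul, h1, smul_zero]
  refine ⟨τ, fun s => p s ⊗ₜ 1, fun s => p' s ⊗ₜ 1, ⟨fun q x => ?_, fun x q => ?_, fun x => ?_⟩,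
    fun s => ⟨p' s, rfl⟩⟩
  · induction x using TensorProduct.induction_on with
    | zero => simp
    | tmul x q' => simp [hτ]
    | add x y hx hy => rw [mul_add, map_add, hx, hy, map_add, mul_add]
  · induction x using TensorProduct.induction_on with
    | zero => simp
    | tmul x q' => simp [hτ]
    | add x y hx hy => rw [add_mul, map_add, hx, hy, map_add, add_mul]
  · induction x using TensorProduct.induction_on with
    | zero => simp
    | add x y hx hy =>
      conv_rhs => rw [← hx, ← hy]
      rw [← Finset.sum_add_distrib]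
      refine Finset.sum_congr rfl fun s _ => ?_
      rw [mul_add, map_add, map_add, mul_add]
    | tmul x q =>
      conv_rhs => rw [← hexp x, TensorProduct.sum_tmul]
      refine Finset.sum_congr rfl fun s _ => ?_
      simp only [Algebra.TensorProduct.includeRight_apply, Algebra.TensorProduct.tmul_mul_tmul,
        mul_one, one_mul, hτ, TensorProduct.tmul_smul, TensorProduct.smul_tmul', mul_smul_comm]

theorem exists_exp [FiniteDimensional k P] [IsSimpleRing P] :
    ∃ (τ : P ⊗[k] Q →ₗ[k] Q) (p p' : Fin (Module.finrank k P) → P ⊗[k] Q),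
      IsExp (Algebra.TensorProduct.includeRight : Q →ₐ[k] P ⊗[k] Q) τ p p' := by
  obtain ⟨τ, p, p', h, _⟩ := exists_exp' (P := P) (Q := Q) (k := k)
  exact ⟨τ, p, p', h⟩

end datum

/-- The inclusion of the second factor. -/
noncomputable abbrev iR (P Q : Type u) {k : Type u} [Field k] [Ring P] [Algebra k P] [Ring Q]
    [Algebra k Q] (K : Type u) [Field K] [Algebra k K] : K ⊗[k] Q →ₐ[K] K ⊗[k] (P ⊗[k] Q) :=
  iK K (Algebra.TensorProduct.includeRight : Q →ₐ[k] P ⊗[k] Q)

theorem fib {k : Type u} [Field k] [Infinite k] {P Q : Type u} [Ring P] [Algebra k P]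
    [Ring Q] [Algebra k Q] [FiniteDimensional k P] [IsSimpleRing P] [FiniteDimensional k Q]
    [IsSimpleRing Q] [Algebra.IsCentral k Q] {K : Type u} [Field K] [Algebra k K]
    {M : Type u} [Field M] [Algebra k M] [Algebra K M] [IsScalarTower k K M]
    {d e m κ r N : ℕ} (hP : Module.finrank k P = d ^ 2) (hQ : Module.finrank k Q = e ^ 2)
    {c : K ⊗[k] Q} (hc : c * c = c) (hcd : Module.finrank K (idl K c) = κ * e)
    (hminJ : ∀ F : IntermediateField k K, DefinedOver F (idl K c) → F = ⊤)
    (htrK : Algebra.trdeg k K = (κ * (e - κ) : ℕ))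
    {φ : M ⊗[k] (P ⊗[k] Q)} (hφ : φ * φ = φ) (hcφ : iR P Q M (bc k Q K M c) * φ = φ)
    (hφc : φ * iR P Q M (bc k Q K M c) = φ)
    (hφd : Module.finrank M (idl M φ) = m * (d * e))
    (hminI : ∀ F : IntermediateField k M, (∀ c : K, algebraMap K M c ∈ F) →
      DefinedOver F (idl M φ) → F = ⊤)
    (htrM : Algebra.trdeg K M = (m * (d * κ - m) : ℕ)) (hr : m * d = κ + r * e)
    (hκ : κ ≤ e) (hm : m ≤ d * κ)
    (hN : N + κ * (e - κ) + m * (d * κ - m) = m * (d * e - m)) :
    IsFunctionField k (P ⊗[k] Q) m (d * e) (FractionRing (MvPolynomial (Fin N) M)) := by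
  classical
  obtain ⟨w, hw⟩ := Nat.exists_eq_add_of_le hκ
  have hw' : e - κ = w := by omega
  obtain ⟨τ, p, p', hexp⟩ := exists_exp (P := P) (Q := Q) (k := k)
  have hcM : bc k Q K M c * bc k Q K M c = bc k Q K M c := by rw [← map_mul, hc]
  have hsimp : IsSimpleRing (M ⊗[k] Q) := isSimple_tensor
  have hAd : Module.finrank k (P ⊗[k] Q) = d ^ 2 * e ^ 2 := by
    rw [Module.finrank_tensorProduct, hP, hQ]
  -- the point over `M`
  obtain ⟨u₁, a₁, hu₁, hpt⟩ := (hexp.baseChange M).exists_point (R := Fin r) hφ
    (c := bc k Q K M c) (by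
      rw [hφd, finrank_idl_bc hc, hcd, Module.finrank_baseChange, hQ, Fintype.card_fin]
      calc m * (d * e) = (m * d) * e := by ring
        _ = κ * e + r * e ^ 2 := by rw [hr]; ring)
  have hbcc : bc k (P ⊗[k] Q) K M (iR P Q K c) = iR P Q M (bc k Q K M c) := bc_iK _ _
  have hcA : iR P Q K c * iR P Q K c = iR P Q K c := by rw [← map_mul, hc]
  obtain ⟨u, v, a, hcu, huc, huv, hvu, hspan⟩ := exists_unit_ave (M := M) (R := Fin r)
    (tK M τ) (iR P Q K c) hcA (1 - bc k Q K M c) φ (by rw [hbcc, hcφ]) u₁ (by rw [hbcc, hu₁]) a₁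
    (by
      rw [eq_top_iff]
      intro y _
      obtain ⟨x, hx, hx1, hx2⟩ := hpt (bc k Q K M c * y none) (fun j => y (some j))
        (by rw [← mul_assoc, hcM])
      have h1 : y = (fun d : (M ⊗[k] (P ⊗[k] Q)) ⊕ (M ⊗[k] Q) => (match d with
          | .inl x => fun j => j.elim (tK M τ (u₁ * (φ * x))) fun j => tK M τ (a₁ j * (φ * x))
          | .inr q => Pi.single none ((1 - bc k Q K M c) * q) : Option (Fin r) → M ⊗[k] Q))
            (.inl x) +
          (fun d : (M ⊗[k] (P ⊗[k] Q)) ⊕ (M ⊗[k] Q) => (match d with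
          | .inl x => fun j => j.elim (tK M τ (u₁ * (φ * x))) fun j => tK M τ (a₁ j * (φ * x))
          | .inr q => Pi.single none ((1 - bc k Q K M c) * q) : Option (Fin r) → M ⊗[k] Q))
            (.inr (y none)) := by
        funext j
        rw [Pi.add_apply]
        rcases j with _ | j
        · simp only [Option.elim_none, Pi.single_eq_same]
          rw [hx, hx1, sub_mul, one_mul, add_sub_cancel]
        · simp only [Option.elim_some]
          rw [hx, hx2, Pi.single_eq_of_ne (by simp), add_zero]
      rw [h1]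
      exact Submodule.add_mem _ (Submodule.subset_span ⟨.inl x, rfl⟩)
        (Submodule.subset_span ⟨.inr (y none), rfl⟩))
  -- the idempotent `f`
  set u' := bc k (P ⊗[k] Q) K M (u + (1 - iR P Q K c)) with hu'
  set v' := bc k (P ⊗[k] Q) K M v with hv'
  have huv' : u' * v' = 1 := by rw [hu', hv', ← map_mul, huv, map_one]
  have hvu' : v' * u' = 1 := by rw [hu', hv', ← map_mul, hvu, map_one]
  have huφ : bc k (P ⊗[k] Q) K M u * φ = u' * φ := by
    rw [hu', map_add, map_sub, map_one, add_mul, sub_mul, one_mul, hbcc, hcφ, sub_self, add_zero]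
  set f := u' * φ * v' with hf
  have hff : f * f = f := by
    rw [hf]
    calc u' * φ * v' * (u' * φ * v') = u' * φ * (v' * u') * φ * v' := by simp only [mul_assoc]
      _ = u' * (φ * φ) * v' := by rw [hvu', mul_one]; simp only [mul_assoc]
      _ = u' * φ * v' := by rw [hφ]
  have hcf : iR P Q M (bc k Q K M c) * f = f := by
    rw [hf, ← huφ, ← mul_assoc, ← mul_assoc, ← hbcc, ← map_mul, hcu]
  have hcu' : iR P Q M (bc k Q K M c) * u' = u' * iR P Q M (bc k Q K M c) := by
    rw [hu', ← hbcc, ← map_mul, ← map_mul]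
    congr 1
    rw [mul_add, add_mul, mul_sub, sub_mul, hcu, huc, mul_one, one_mul]
  have hcv' : iR P Q M (bc k Q K M c) * v' = v' * iR P Q M (bc k Q K M c) := by
    have h1 : v' * (iR P Q M (bc k Q K M c) * u') * v' =
        v' * (u' * iR P Q M (bc k Q K M c)) * v' := by rw [hcu']
    rw [← mul_assoc, mul_assoc _ u' v', huv', mul_one, ← mul_assoc v' u', hvu', one_mul] at h1
    exact h1.symm
  have hfc : f * iR P Q M (bc k Q K M c) = f := by
    rw [hf, mul_assoc, ← hcv', ← mul_assoc, mul_assoc u' φ, hφc]
  have hF : IsFrame (iR P Q M) (tK M τ) (bc k Q K M (1 - c)) (bc k Q K M c) f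
      (iR P Q M (bc k Q K M c) - f) 0 (fun _ : Fin r => (0 : M ⊗[k] Q)) :=
    { tau_mul := (hexp.baseChange M).tau_mul
      add_one := by rw [← map_add, sub_add_cancel, map_one]
      mul_zero := by rw [← map_mul, sub_mul, one_mul, hc, sub_self, map_zero]
      f_add := by rw [add_sub_cancel]
      ff := hff
      ff' := by rw [mul_sub, hfc, hff, sub_self]
      f'f := by rw [sub_mul, hcf, hff, sub_self]
      f'z := MulZeroClass.mul_zero _
      zf := zero_mul _
      εγ := fun _ => MulZeroClass.mul_zero _ }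
  have hg : (iR P Q M (bc k Q K M (1 - c)) + (iR P Q M (bc k Q K M c) - f)) *
      (bc k (P ⊗[k] Q) K M u * φ) = 0 := by
    have h1 : iR P Q M (bc k Q K M (1 - c)) + (iR P Q M (bc k Q K M c) - f) = 1 - f := by
      rw [map_sub, map_one, map_sub, map_one]
      abel
    rw [h1, huφ, sub_mul, one_mul, sub_eq_zero, hf]
    calc u' * φ = u' * (φ * φ) := by rw [hφ]
      _ = u' * φ * (v' * u') * φ := by rw [hvu', mul_one, mul_assoc]
      _ = u' * φ * v' * (u' * φ) := by simp only [mul_assoc]
  have hspan' : Submodule.span M (Set.range (vecs (tK M τ) (bc k (P ⊗[k] Q) K M u * φ)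
      (bc k Q K M (1 - c)) fun j => (1 : M) ⊗ₜ[k] a j)) = ⊤ := by
    rw [map_sub, map_one]
    exact hspan
  -- the right ideal of `f`
  have hfd : Module.finrank M (idl M f) = Module.finrank M (idl M φ) := by
    have h1 : idl M f = (idl M φ).map (LinearMap.mulLeft M u') := by
      ext x
      rw [mem_idl]
      constructor
      · intro hx
        refine ⟨v' * x, ?_, ?_⟩
        · change φ * (v' * x) = v' * x
          have h2 := congrArg (fun y => v' * y) hx
          simp only [hf, ← mul_assoc, hvu', one_mul] at h2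
          rwa [mul_assoc] at h2
        · rw [LinearMap.mulLeft_apply, ← mul_assoc, huv', one_mul]
      · rintro ⟨y, hy, rfl⟩
        have hy' : φ * y = y := hy
        rw [LinearMap.mulLeft_apply, hf]
        calc u' * φ * v' * (u' * y) = u' * φ * (v' * u') * y := by simp only [mul_assoc]
          _ = u' * (φ * y) := by rw [hvu', mul_one, mul_assoc]
          _ = u' * y := by rw [hy']
    have hinj : Function.Injective (LinearMap.mulLeft M u') := by
      intro x y hxy
      have h2 := congrArg (fun z => v' * z) hxy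
      simpa only [LinearMap.mulLeft_apply, ← mul_assoc, hvu', one_mul] using h2
    rw [h1]
    exact (Submodule.equivMapOfInjective _ hinj (idl M φ)).finrank_eq.symm
  have hminI' : ∀ F : IntermediateField k M, (∀ c : K, algebraMap K M c ∈ F) →
      DefinedOver F (idl M f) → F = ⊤ := by
    intro F hFK hdef
    apply hminI F hFK
    apply Stable.definedOver
    intro l x hx
    have hx' : φ * x = x := hx
    have h1 : u' * x ∈ idl M f := by
      change u' * φ * v' * (u' * x) = u' * x
      calc u' * φ * v' * (u' * x) = u' * φ * (v' * u') * x := by simp only [mul_assoc]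
        _ = u' * (φ * x) := by rw [hvu', mul_one, mul_assoc]
        _ = u' * x := by rw [hx']
    have h2 := hdef.stable l _ h1
    rw [hu', lam_bc_mul hFK, ← hu'] at h2
    have h3 : u' * φ * v' * (u' * lam (l.restrictScalars k) x) =
        u' * lam (l.restrictScalars k) x := h2
    have h4 := congrArg (fun y => v' * y) h3
    have h5 : v' * (u' * φ * v' * (u' * lam (l.restrictScalars k) x)) =
        φ * lam (l.restrictScalars k) x := by
      calc v' * (u' * φ * v' * (u' * lam (l.restrictScalars k) x)) =
          (v' * u') * φ * (v' * u') * lam (l.restrictScalars k) x := by simp only [mul_assoc]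
        _ = φ * lam (l.restrictScalars k) x := by rw [hvu', one_mul, mul_one]
    have h6 : v' * (u' * lam (l.restrictScalars k) x) = lam (l.restrictScalars k) x := by
      rw [← mul_assoc, hvu', one_mul]
    change v' * (u' * φ * v' * (u' * lam (l.restrictScalars k) x)) =
      v' * (u' * lam (l.restrictScalars k) x) at h4
    rw [h5, h6] at h4
    exact h4
  -- a basis of `ε Q`
  have hεd : Module.finrank K (idl K (1 - c)) = e * w := by
    have h1 : LinearMap.ker (LinearMap.mulLeft K c) = idl K (1 - c) := by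
      ext q
      rw [LinearMap.mem_ker, LinearMap.mulLeft_apply, mem_idl, sub_mul, one_mul, sub_eq_self]
    have h2 := LinearMap.finrank_range_add_finrank_ker (LinearMap.mulLeft K c)
    rw [h1, range_mulLeft hc, hcd, Module.finrank_baseChange, hQ] at h2
    have h3 : e ^ 2 = κ * e + e * w := by rw [hw]; ring
    omega
  let be := Module.finBasisOfFinrankEq K (idl K (1 - c)) hεd
  have hei : LinearIndependent K fun i => (be i : K ⊗[k] Q) :=
    be.linearIndependent.map' (idl K (1 - c)).subtype (Submodule.ker_subtype _)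
  -- the number of parameters
  have hNc : N = r * (e * w) := by
    rw [hw'] at hN
    obtain ⟨x, hx⟩ := Nat.exists_eq_add_of_le hm
    have h1 : d * κ - m = x := by omega
    have h2 : d * e - m = d * w + x := by
      have : d * e = d * κ + d * w := by rw [hw]; ring
      omega
    rw [h1, h2] at hN
    have h3 : m * (d * w + x) = r * (e * w) + κ * w + m * x := by
      calc m * (d * w + x) = (m * d) * w + m * x := by ring
        _ = _ := by rw [hr]; ring
    omega
  let T := Fin r × Fin (e * w)
  have hT : Fintype.card T = Fintype.card (Fin N) := by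
    simp only [T, Fintype.card_prod, Fintype.card_fin]
    exact hNc.symm
  let q := Fintype.equivOfCardEq hT
  let L := FractionRing (MvPolynomial (Fin N) M)
  let X : T → L := fun t => ratX M N (q t)
  have hX : AlgebraicIndependent M X := (ratX_basis M N).1.comp q q.injective
  have hgen : ∀ F : IntermediateField k L, (∀ c : M, algebraMap M L c ∈ F) →
      (∀ z, X z ∈ F) → F = ⊤ := by
    intro F hF1 hF2
    refine ratX_gen k M N F hF1 fun i => ?_
    have := hF2 (q.symm i)
    simpa only [X, Equiv.apply_symm_apply] using this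
  have hsurj := surj_generic' (L := L) (a := a) (e := fun i => bc k Q K M (be i))
    (X := X) hX hF
  have hfr := frame_bc (L := L) (X := X) (e := fun i => bc k Q K M (be i)) hF
    (hexp.baseChange L).tau_mul (fun i => by
      rw [← map_mul]
      congr 1
      exact (be i).2)
  refine ⟨⟨_, ⟨fun x hx y => pt_right hx y, ?_⟩, pt_min' hX hgen hc hminJ hminI' hF
    (hexp.baseChange L).tau_mul (fun i => (be i).2) hei hg hspan' ?_⟩, ?_⟩
  · rw [hfr.finrank_pt hsurj, range_mulLeft hfr.ff, finrank_idl_bc hff, hfd, hφd]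
  · rw [hfd, hφd, hcd, hQ, Fintype.card_fin]
    calc m * (d * e) = (m * d) * e := by ring
      _ = κ * e + r * e ^ 2 := by rw [hr]; ring
  · have h1 : Algebra.trdeg M L = (N : ℕ) := by
      have h := (ratX_basis M N).lift_cardinalMk_eq_trdeg
      rw [Cardinal.mk_fintype, Cardinal.lift_natCast, Cardinal.lift_uzero, Fintype.card_fin] at h
      exact h.symm
    have h2 := trdeg_add_eq k M (A := L)
    have h3 := trdeg_add_eq k K (A := M)
    rw [← h2, ← h3, htrK, htrM, h1, ← Nat.cast_add, ← Nat.cast_add]
    congr 1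
    omega

end Pool.Agent.H49.Cop
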