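import Pool.Agent.H49.Cop.Transfer
import Pool.Agent.H49.Cop.Block

/-!
# The fibration of `SB_m(P ⊗ Q)` over `SB_κ(Q)`
-/

open TensorProduct

namespace Pool.Agent.H49.Cop

open Pool.Agent.H49.GSB

universe u

section

variable {k : Type u} [Field k] {P Q : Type u} [Ring P] [Algebra k P] [Ring Q] [Algebra k Q]
  {K : Type u} [Field K] [Algebra k K]

/-- The inclusion of the first factor. -/
noncomputable abbrev iL (P Q : Type u) {k : Type u} [Field k] [Ring P] [Algebra k P] [Ring Q]
    [Algebra k Q] (K : Type u) [Field K] [Algebra k K] : K ⊗[k] P →ₐ[K] K ⊗[k] (P ⊗[k] Q) :=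
  iK K (Algebra.TensorProduct.includeLeft : P →ₐ[k] P ⊗[k] Q)

theorem iL_comm (x : K ⊗[k] P) (y : K ⊗[k] Q) :
    iR P Q K y * iL P Q K x = iL P Q K x * iR P Q K y := by
  induction x using TensorProduct.induction_on with
  | zero => simp
  | add x x' hx hx' => rw [map_add, mul_add, hx, hx', add_mul]
  | tmul s x =>
    induction y using TensorProduct.induction_on with
    | zero => simp
    | add y y' hy hy' => rw [map_add, mul_add, add_mul, hy, hy']
    | tmul t y => simp [mul_comm]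

theorem finrank_idl_iR_le [FiniteDimensional k P] [IsSimpleRing P] [FiniteDimensional k Q]
    {p : K ⊗[k] Q} (hp : p * p = p) : Module.finrank K (idl K (iR P Q K p)) ≤
      Module.finrank k P * Module.finrank K (idl K p) := by
  obtain ⟨τ, b, b', hexp, hcomm⟩ := exists_exp' (P := P) (Q := Q) (k := k)
  have hE := hexp.baseChange K
  have hc : ∀ s (q : K ⊗[k] Q), iR P Q K q * ((1 : K) ⊗ₜ[k] b' s) =
      ((1 : K) ⊗ₜ[k] b' s) * iR P Q K q := by
    intro s q
    obtain ⟨x, hx⟩ := hcomm s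
    have h1 : ((1 : K) ⊗ₜ[k] b' s) = iL P Q K ((1 : K) ⊗ₜ x) := by
      rw [hx]; simp
    rw [h1, iL_comm]
  let f : (Fin (Module.finrank k P) → idl K p) →ₗ[K] K ⊗[k] (P ⊗[k] Q) :=
    { toFun := fun v => ∑ s, ((1 : K) ⊗ₜ[k] b' s) * iR P Q K (v s)
      map_add' := fun v w => by
        rw [← Finset.sum_add_distrib]
        exact Finset.sum_congr rfl fun s _ => by
          rw [Pi.add_apply, Submodule.coe_add, map_add, mul_add]
      map_smul' := fun c v => by
        rw [RingHom.id_apply, Finset.smul_sum]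
        exact Finset.sum_congr rfl fun s _ => by
          rw [Pi.smul_apply, Submodule.coe_smul, map_smul, mul_smul_comm] }
  have hf : idl K (iR P Q K p) ≤ LinearMap.range f := by
    intro x hx
    rw [mem_idl] at hx
    refine ⟨fun s => ⟨p * tK K τ ((1 : K) ⊗ₜ[k] b s * x), by
        rw [mem_idl, ← mul_assoc, hp]⟩, ?_⟩
    change ∑ s, ((1 : K) ⊗ₜ[k] b' s) * iR P Q K (p * tK K τ ((1 : K) ⊗ₜ[k] b s * x)) = x
    conv_rhs => rw [← hx, ← hE.expand x, Finset.mul_sum]
    refine Finset.sum_congr rfl fun s _ => ?_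
    rw [map_mul, ← mul_assoc, ← mul_assoc, hc]
  calc Module.finrank K (idl K (iR P Q K p)) ≤ Module.finrank K (LinearMap.range f) :=
        Submodule.finrank_mono hf
    _ ≤ Module.finrank K (Fin (Module.finrank k P) → idl K p) := LinearMap.finrank_range_le f
    _ = Module.finrank k P * Module.finrank K (idl K p) := by
        rw [Module.finrank_pi_fintype]
        simp only [Finset.sum_const, Finset.card_univ, Fintype.card_fin, smul_eq_mul]

theorem finrank_idl_compl {R : Type*} [Ring R] [Algebra K R] [FiniteDimensional K R] {p : R}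
    (hp : p * p = p) : Module.finrank K (idl K p) + Module.finrank K (idl K (1 - p)) =
      Module.finrank K R := by
  have h1 : LinearMap.ker (LinearMap.mulLeft K p) = idl K (1 - p) := by
    ext q
    rw [LinearMap.mem_ker, LinearMap.mulLeft_apply, mem_idl, sub_mul, one_mul, sub_eq_self]
  have h2 := LinearMap.finrank_range_add_finrank_ker (LinearMap.mulLeft K p)
  rwa [h1, range_mulLeft hp] at h2

/-- The right ideal of an idempotent of the second factor. -/
theorem finrank_idl_iR [FiniteDimensional k P] [IsSimpleRing P] [FiniteDimensional k Q]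
    {p : K ⊗[k] Q} (hp : p * p = p) : Module.finrank K (idl K (iR P Q K p)) =
      Module.finrank k P * Module.finrank K (idl K p) := by
  have hp' : (1 - p) * (1 - p) = 1 - p := by
    rw [sub_mul, one_mul, mul_sub, mul_one, hp, sub_self, sub_zero]
  have h1 := finrank_idl_iR_le (P := P) hp
  have h2 := finrank_idl_iR_le (P := P) hp'
  have h3 := finrank_idl_compl (K := K) hp
  have h4 := finrank_idl_compl (K := K) (p := iR P Q K p) (by rw [← map_mul, hp])
  rw [map_sub, map_one] at h2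
  have h5 : Module.finrank k P * (Module.finrank K (idl K p) +
      Module.finrank K (idl K (1 - p))) = Module.finrank k P * Module.finrank K (idl K p) +
        Module.finrank k P * Module.finrank K (idl K (1 - p)) := Nat.mul_add _ _ _
  rw [h3, Module.finrank_baseChange, ← Module.finrank_tensorProduct,
    ← Module.finrank_baseChange (R := K), ← h4] at h5
  omega

/-- The extension of a map to the second factor. -/
noncomputable def blkJ {B : Type u} [Ring B] [Algebra K B] (P : Type u) [Ring P] [Algebra k P]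
    (j : B →ₗ[K] K ⊗[k] Q) : (K ⊗[k] P) ⊗[K] B →ₗ[K] K ⊗[k] (P ⊗[k] Q) :=
  TensorProduct.lift ((LinearMap.mul K (K ⊗[k] (P ⊗[k] Q))).compl₁₂ (iL P Q K).toLinearMap
    ((iR P Q K).toLinearMap ∘ₗ j))

variable {B : Type u} [Ring B] [Algebra K B] {j : B →ₗ[K] K ⊗[k] Q}

theorem blkJ_tmul (x : K ⊗[k] P) (b : B) : blkJ P j (x ⊗ₜ b) = iL P Q K x * iR P Q K (j b) := by
  rfl

theorem blkJ_mul (hj : ∀ x y, j (x * y) = j x * j y) (x y : (K ⊗[k] P) ⊗[K] B) :
    blkJ P j (x * y) = blkJ P j x * blkJ P j y := by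
  induction x using TensorProduct.induction_on with
  | zero => simp
  | add x x' hx hx' => rw [add_mul, map_add, hx, hx', map_add, add_mul]
  | tmul s x =>
    induction y using TensorProduct.induction_on with
    | zero => simp
    | add y y' hy hy' => rw [mul_add, map_add, hy, hy', map_add, mul_add]
    | tmul t y =>
      rw [Algebra.TensorProduct.tmul_mul_tmul, blkJ_tmul, blkJ_tmul, blkJ_tmul, hj, map_mul,
        map_mul]
      calc iL P Q K s * iL P Q K t * (iR P Q K (j x) * iR P Q K (j y)) =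
          iL P Q K s * (iL P Q K t * iR P Q K (j x)) * iR P Q K (j y) := by
            simp only [mul_assoc]
        _ = iL P Q K s * iR P Q K (j x) * (iL P Q K t * iR P Q K (j y)) := by
            rw [← iL_comm]; simp only [mul_assoc]

theorem blkJ_one {p : K ⊗[k] Q} (hj : j 1 = p) : blkJ P j 1 = iR P Q K p := by
  rw [Algebra.TensorProduct.one_def, blkJ_tmul, hj, map_one, one_mul]

theorem blkJ_range {p : K ⊗[k] Q} (hj : ∀ q, ∃ x, j x = p * q * p) (x : K ⊗[k] (P ⊗[k] Q)) :
    ∃ y, blkJ P j y = iR P Q K p * x * iR P Q K p := by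
  induction x using TensorProduct.induction_on with
  | zero => exact ⟨0, by simp⟩
  | add x x' hx hx' =>
    obtain ⟨y, hy⟩ := hx
    obtain ⟨y', hy'⟩ := hx'
    exact ⟨y + y', by rw [map_add, hy, hy', mul_add, add_mul]⟩
  | tmul s w =>
    induction w using TensorProduct.induction_on with
    | zero => exact ⟨0, by simp⟩
    | add x x' hx hx' =>
      obtain ⟨y, hy⟩ := hx
      obtain ⟨y', hy'⟩ := hx'
      exact ⟨y + y', by rw [map_add, hy, hy', TensorProduct.tmul_add, mul_add, add_mul]⟩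
    | tmul a q =>
      obtain ⟨b, hb⟩ := hj (1 ⊗ₜ q)
      refine ⟨(s ⊗ₜ a) ⊗ₜ b, ?_⟩
      have h1 : (s ⊗ₜ[k] (a ⊗ₜ[k] q) : K ⊗[k] (P ⊗[k] Q)) =
          iL P Q K (s ⊗ₜ a) * iR P Q K (1 ⊗ₜ q) := by simp
      rw [blkJ_tmul, hb, h1, map_mul, map_mul, ← mul_assoc (iR P Q K p), iL_comm]
      simp only [mul_assoc]

end

/-- The fibration. -/
theorem fibration {k : Type u} [Field k] [Infinite k] (A P Q : CSA.{u, u} k)
    (eA : A ≃ₐ[k] P ⊗[k] Q) {K : Type u} [Field K] [Algebra k K] (D : CSA.{u, u} K)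
    (R : CSA.{u, u} K) {d e e' h c m r N : ℕ} (hP : Module.finrank k P = d ^ 2)
    (hQ : Module.finrank k Q = e ^ 2) (he : e = e' * h) (he' : 0 < e')
    (hD : Module.finrank K D = e' ^ 2) (θ : (K ⊗[k] Q) ≃ₐ[K] Matrix (Fin h) (Fin h) D)
    (hc : 0 < c) (hch : c ≤ h) (hK : H72.SB.IsFunctionField Q (e' * c) K)
    (eR : R ≃ₐ[K] (K ⊗[k] P) ⊗[K] Matrix (Fin c) (Fin c) D) {M : Type u} [Field M]
    [Algebra K M] [Algebra k M] [IsScalarTower k K M] (hM : H72.SB.IsFunctionField R m M)
    (hmd : m * d = e' * c + r * e) (hm : m ≤ d * (e' * c))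
    (hN : N + e' * c * (e - e' * c) + m * (d * (e' * c) - m) = m * (d * e - m)) :
    H72.SB.IsFunctionField A m (FractionRing (MvPolynomial (Fin N) M)) := by
  have hP0 : 0 < Module.finrank k P := Module.finrank_pos
  have hd : 0 < d := by
    rcases Nat.eq_zero_or_pos d with h0 | h0
    · rw [hP, h0] at hP0; simp at hP0
    · exact h0
  have hh : 0 < h := by omega
  have he0 : 0 < e := he ▸ Nat.mul_pos he' hh
  obtain ⟨⟨J₀, ⟨hJ₀, hJd⟩, hminJ⟩, htrK⟩ := ofH72 hQ hK
  obtain ⟨p, j, hp, hJp, hjm, hj1, hjr⟩ := exists_block Q D hQ he he' hD θ hc hch J₀ hJ₀ hJd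
  have hJe : J₀ = idl K p := by
    ext x
    rw [hJp x, mem_idl]
  subst hJe
  have hB : Module.finrank K (Matrix (Fin c) (Fin c) D) = (e' * c) ^ 2 := by
    rw [Module.finrank_matrix, hD, Fintype.card_fin]
    ring
  have hR : Module.finrank K R = (d * (e' * c)) ^ 2 := by
    rw [eR.toLinearEquiv.finrank_eq, Module.finrank_tensorProduct, hB, Module.finrank_baseChange,
      hP]
    ring
  obtain ⟨⟨I', ⟨hI', hId⟩, hmin⟩, htrM⟩ := ofH72 hR hM
  have hAd : Module.finrank k (P ⊗[k] Q) = (d * e) ^ 2 := by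
    rw [Module.finrank_tensorProduct, hP, hQ]
    ring
  have hAs : IsSimpleRing (P ⊗[k] Q) := IsSimpleRing.of_ringEquiv eA.toRingEquiv inferInstance
  have hAc : Algebra.IsCentral k (P ⊗[k] Q) := Algebra.IsCentral.of_algEquiv k A _ eA
  let J : R →ₗ[K] K ⊗[k] (P ⊗[k] Q) := blkJ P j ∘ₗ eR.toLinearMap
  have hJJ : ∀ x, J x = blkJ P j (eR x) := fun x => rfl
  obtain ⟨φ, hφ, hpφ, hφp, hφd, hminI⟩ := exists_transfer (A := P ⊗[k] Q) (Y := R) (M := M)
    (J := J) (p := iR P Q K p) (fun x y => by rw [hJJ, hJJ, hJJ, map_mul, blkJ_mul hjm])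
    (by rw [hJJ, map_one, blkJ_one hj1]) (fun x => by
      obtain ⟨y, hy⟩ := blkJ_range hjr x
      exact ⟨eR.symm y, by rw [hJJ, AlgEquiv.apply_symm_apply, hy]⟩) (m := m) (n := d * e)
    (s := d * (e' * c)) (Nat.mul_pos hd he0) (Nat.mul_pos hd (Nat.mul_pos he' hc)) hAd hR (by
      rw [finrank_idl_iR hp, hP, hJd]
      ring) I' hI' hId hmin
  have hbc : bc k (P ⊗[k] Q) K M (iR P Q K p) = iR P Q M (bc k Q K M p) := bc_iK _ _
  rw [hbc] at hpφ hφp
  have h1 := fib (P := P) (Q := Q) (K := K) (M := M) (r := r) (N := N) hP hQ hp hJd hminJ htrK hφ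
    hpφ hφp hφd hminI htrM hmd (by rw [he]; exact Nat.mul_le_mul_left e' hch) hm hN
  refine toH72 ?_ (h1.congr eA.symm)
  rw [eA.toLinearEquiv.finrank_eq, hAd]

end Pool.Agent.H49.Cop
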