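import Pool.Agent.H49.Cop.Min
import Pool.Agent.H49.GSB.MatRed

/-!
# The function field of `SB_{d g}(P ⊗ Q)` over the function field of `SB_{g c}(Q)`
-/

open TensorProduct

namespace Pool.Agent.H49.Cop

open Pool.Agent.H49.GSB

universe u

section datum

variable {k : Type u} [Field k] {P Q : Type u} [Ring P] [Algebra k P] [Ring Q] [Algebra k Q]

/-- A basis which contains `1`. -/
theorem exists_basis_one [FiniteDimensional k P] [Nontrivial P] {σ : Type} [Fintype σ]
    [DecidableEq σ] (o : σ) (hP : Module.finrank k P = Fintype.card σ) :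
    ∃ p : Module.Basis σ k P, p o = 1 := by
  classical
  have h1 : LinearIndepOn k id ({1} : Set P) :=
    LinearIndepOn.singleton (v := id) one_ne_zero
  let B := Module.Basis.extend h1
  have hmem : (1 : P) ∈ h1.extend (Set.subset_univ _) := h1.subset_extend _ rfl
  have : Fintype (h1.extend (Set.subset_univ ({1} : Set P))) :=
    Fintype.ofFinite _
  have hcard : Fintype.card (h1.extend (Set.subset_univ ({1} : Set P))) = Fintype.card σ := by
    rw [← hP, Module.finrank_eq_card_basis B]
  let e₀ := Fintype.equivOfCardEq hcard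
  let e := e₀.trans (Equiv.swap (e₀ ⟨1, hmem⟩) o)
  have he : e ⟨1, hmem⟩ = o := by
    simp [e]
  refine ⟨B.reindex e, ?_⟩
  rw [Module.Basis.reindex_apply]
  have h2 : e.symm o = ⟨1, hmem⟩ := by rw [← he, Equiv.symm_apply_apply]
  rw [h2]
  simp [B]

/-- The dual basis. -/
theorem exists_dual [FiniteDimensional k P] {σ : Type} [Fintype σ] [DecidableEq σ]
    (t : P →ₗ[k] k) (ht : ∀ x, (∀ y, t (y * x) = 0) → x = 0) (p : Module.Basis σ k P) :
    ∃ p' : σ → P, ∀ i j, t (p i * p' j) = if i = j then 1 else 0 := by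
  let φ : P →ₗ[k] Module.Dual k P := (LinearMap.mul k P).flip.compr₂ t
  have hφ : ∀ z x, φ z x = t (x * z) := fun z x => rfl
  have hinj : Function.Injective φ := by
    rw [← LinearMap.ker_eq_bot, LinearMap.ker_eq_bot']
    intro z hz
    exact ht z fun y => by rw [← hφ, hz]; rfl
  have hsurj : Function.Surjective φ :=
    (LinearMap.injective_iff_surjective_of_finrank_eq_finrank
      (Subspace.dual_finrank_eq (K := k) (V := P)).symm).1 hinj
  choose p' hp' using fun j => hsurj (p.coord j)
  refine ⟨p', fun i j => ?_⟩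
  rw [← hφ, hp', Module.Basis.coord_apply, Module.Basis.repr_self, Finsupp.single_apply]

/-- The data of `P ⊗ Q`. -/
theorem exists_datum [FiniteDimensional k P] [IsSimpleRing P] {σ : Type} [Fintype σ]
    [DecidableEq σ] (o : σ) (hP : Module.finrank k P = Fintype.card σ) :
    ∃ (ι : Q →ₐ[k] P ⊗[k] Q) (τ : P ⊗[k] Q →ₗ[k] Q) (p p' : σ → P ⊗[k] Q),
      IsDatum ι τ p p' o := by
  obtain ⟨t, _, ht⟩ := exists_functional (K := k) (R := P)
  obtain ⟨p, hp⟩ := exists_basis_one o hP
  obtain ⟨p', hp'⟩ := exists_dual t ht p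
  let τ : P ⊗[k] Q →ₗ[k] Q := (TensorProduct.lid k Q).toLinearMap ∘ₗ LinearMap.rTensor Q t
  have hτ : ∀ x q, τ (x ⊗ₜ q) = t x • q := fun x q => by simp [τ]
  refine ⟨Algebra.TensorProduct.includeRight, τ, fun s => p s ⊗ₜ 1, fun s => p' s ⊗ₜ 1,
    fun s q => ?_, fun s r q => ?_, fun q x => ?_, ?_⟩
  · simp
  · simp only [Algebra.TensorProduct.includeRight_apply, Algebra.TensorProduct.tmul_mul_tmul,
      mul_one, one_mul, hτ, hp']
    split_ifs <;> simp
  · induction x using TensorProduct.induction_on with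
    | zero => simp
    | tmul x q' => simp [hτ]
    | add x y hx hy => rw [mul_add, map_add, hx, hy, map_add, mul_add]
  · change p o ⊗ₜ[k] (1 : Q) = 1
    rw [hp]
    rfl

end datum

/-- The function field of `SB_{d g}(P ⊗ Q)`. -/
theorem mainG {k : Type u} [Field k] [Infinite k] {P Q : Type u} [Ring P] [Algebra k P]
    [Ring Q] [Algebra k Q] [FiniteDimensional k P] [IsSimpleRing P] [FiniteDimensional k Q]
    [IsSimpleRing Q] [Algebra.IsCentral k Q] {K : Type u} [Field K] [Algebra k K]
    {d e g h r c N : ℕ} (hP : Module.finrank k P = d ^ 2) (hQ : Module.finrank k Q = e ^ 2)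
    (he : e = g * h) (hd : d ^ 2 = r * h + (c + 1)) (hch : c + 1 ≤ h) (hg : 0 < g)
    (hK : IsFunctionField k Q (g * (c + 1)) e K) (J1 : Submodule K (K ⊗[k] Q))
    (hJ1 : ∀ x ∈ J1, ∀ y, x * y ∈ J1) (hJ1d : Module.finrank K J1 = g * e)
    (hN : N + g * (c + 1) * (e - g * (c + 1)) = d * g * (d * e - d * g)) :
    IsFunctionField k (P ⊗[k] Q) (d * g) (d * e) (FractionRing (MvPolynomial (Fin N) K)) := by
  classical
  obtain ⟨w, rfl⟩ := Nat.exists_eq_add_of_le hch
  have hh : 0 < c + 1 + w := by omega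
  have he0 : 0 < e := he ▸ Nat.mul_pos hg hh
  obtain ⟨⟨J, ⟨hJ, hJd⟩, hmin⟩, htr⟩ := hK
  have hsimp : IsSimpleRing (K ⊗[k] Q) := isSimple_tensor
  obtain ⟨E, hE, hEJ⟩ := exists_adapted_units (S := Option (Fin c)) (U := Fin w) (s := g * e)
    (Nat.mul_pos hg he0) (by
      rw [Module.finrank_baseChange, hQ, Fintype.card_option, Fintype.card_fin, Fintype.card_fin]
      rw [sq]
      nth_rw 1 [he]
      ring) J1 hJ1 hJ1d J hJ (by
      rw [hJd, Fintype.card_option, Fintype.card_fin]
      ring)
  have hJe : J = idl K (cee E) := by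
    ext x
    rw [hEJ x, mem_idl]
    rfl
  rw [hJe] at hmin
  obtain ⟨ι, τ, p, p', hdat⟩ := exists_datum (P := P) (Q := Q) (k := k)
    (σ := Option (Fin c) ⊕ (Fin r × (Option (Fin c) ⊕ Fin w))) (.inl none) (by
      rw [hP, hd]
      simp only [Fintype.card_sum, Fintype.card_option, Fintype.card_prod, Fintype.card_fin]
      ring)
  obtain ⟨a, hspan⟩ := exists_ave hE hdat
  -- the dimension of `P ⊗ Q`
  have hAd : Module.finrank k (P ⊗[k] Q) = d ^ 2 * e ^ 2 := by
    rw [Module.finrank_tensorProduct, hP, hQ]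
  have hA : Module.finrank k (P ⊗[k] Q) = (Fintype.card (Fin c) + 1 + Fintype.card (Fin r) *
      (Fintype.card (Fin c) + 1 + Fintype.card (Fin w))) * Module.finrank k Q := by
    rw [hAd, hQ, hd]
    simp only [Fintype.card_fin]
    ring
  -- a basis of `ε Q`
  have hs : Module.finrank K (idl K (E (.inl none) (.inl none))) = g * e := by
    have h1 := finrank_all (K := K) hE
    rw [Module.finrank_baseChange, hQ, Fintype.card_fin, Fintype.card_fin] at h1
    apply Nat.eq_of_mul_eq_mul_left hh
    rw [← h1, he]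
    ring
  have hepsd : Module.finrank K (idl K (eps E)) = w * (g * e) := by
    rw [finrank_eps hE, hs, Fintype.card_fin]
  let be := Module.finBasisOfFinrankEq K (idl K (eps E)) hepsd
  have hei : LinearIndependent K fun i => (be i : K ⊗[k] Q) :=
    be.linearIndependent.map' (idl K (eps E)).subtype (Submodule.ker_subtype _)
  -- a basis of the corner
  obtain ⟨b, hb, hbi⟩ := exists_corner_basis (K := K) (g := d * g)
    (isUnits_map (ι := iK K ι) hE) (.inl none) (by
      rw [Module.finrank_baseChange, hAd, he]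
      simp only [Fintype.card_sum, Fintype.card_option, Fintype.card_fin]
      ring)
  have hb' : ∀ s, eff (iK K ι) E * b s * eff (iK K ι) E = b s := hb
  have hff := eff_mul_eff (ι := iK K ι) hE
  have hb1 : ∀ s, eff (iK K ι) E * b s = b s := by
    intro s
    conv_lhs => rw [← hb' s, ← mul_assoc, ← mul_assoc, hff]
    exact hb' s
  have hb2 : ∀ s, b s * eff (iK K ι) E = b s := by
    intro s
    conv_lhs => rw [← hb' s, mul_assoc, hff]
    exact hb' s
  -- the number of parameters
  have hNc : N = r * (w * (g * e)) + c * (d * g) ^ 2 := by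
    have h1 : e - g * (c + 1) = g * w := by
      rw [he, ← Nat.mul_sub]; congr 1; omega
    have h2 : d * e - d * g = d * g * (c + w) := by
      rw [he]
      have : d * (g * (c + 1 + w)) = d * g * (c + w) + d * g := by ring
      omega
    rw [h1, h2] at hN
    have h3 : d * g * (d * g * (c + w)) = r * (w * (g * e)) + c * (d * g) ^ 2 +
        g * (c + 1) * (g * w) := by
      calc d * g * (d * g * (c + w)) = d ^ 2 * (g ^ 2 * w) + c * (d * g) ^ 2 := by ring
        _ = (r * (c + 1 + w) + (c + 1)) * (g ^ 2 * w) + c * (d * g) ^ 2 := by rw [hd]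
        _ = _ := by rw [he]; ring
    omega
  let T := (Fin r × Fin (w * (g * e))) ⊕ (Fin c × Fin ((d * g) ^ 2))
  have hT : Fintype.card T = Fintype.card (Fin N) := by
    simp only [T, Fintype.card_sum, Fintype.card_prod, Fintype.card_fin]
    exact hNc.symm
  let q := Fintype.equivOfCardEq hT
  let L := FractionRing (MvPolynomial (Fin N) K)
  let X : T → L := fun t => ratX K N (q t)
  have hX : AlgebraicIndependent K X := (ratX_basis K N).1.comp q q.injective
  have hgen : ∀ F : IntermediateField k L, (∀ c : K, algebraMap K L c ∈ F) →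
      (∀ z, X z ∈ F) → F = ⊤ := by
    intro F hF1 hF2
    refine ratX_gen k K N F hF1 fun i => ?_
    have := hF2 (q.symm i)
    simpa only [X, Equiv.apply_symm_apply] using this
  have hsurj := surj_generic (L := L) (a := a) (b := b) (e := fun i => (be i : K ⊗[k] Q))
    (X := X) hX hE hdat
  have hfr : IsFrame (iK L ι) (tK L τ) (eps (EL L E)) (cee (EL L E)) (eff (iK L ι) (EL L E))
      (eff' (iK L ι) (EL L E)) (zet ι E p b X) (gam (fun i => (be i : K ⊗[k] Q)) X) :=
    frameL hE hdat (fun i => (be i).2) hb2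
  refine ⟨⟨_, ⟨fun x hx y => pt_right hx y, ?_⟩, pt_min hX hgen hmin hE hdat
    (fun i => (be i).2) hei hb1 hb2 hbi hspan hA⟩, ?_⟩
  · rw [hfr.finrank_pt hsurj, range_mulLeft hfr.ff]
    have h1 := finrank_all (K := L) (isUnits_map (ι := iK L ι) (isUnits_EL (L := L) hE))
    rw [Module.finrank_baseChange, hAd, Fintype.card_fin, Fintype.card_fin] at h1
    apply Nat.eq_of_mul_eq_mul_left hh
    change _ = (c + 1 + w) * Module.finrank L (idl L (eff (iK L ι) (EL L E))) at h1
    rw [← h1, he]
    ring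
  · have h1 : Algebra.trdeg K L = (N : ℕ) := by
      have h := (ratX_basis K N).lift_cardinalMk_eq_trdeg
      rw [Cardinal.mk_fintype, Cardinal.lift_natCast, Cardinal.lift_uzero, Fintype.card_fin] at h
      exact h.symm
    have h2 := trdeg_add_eq k K (A := L)
    rw [← h2, htr, h1, ← Nat.cast_add]
    congr 1
    omega

/-- The function field of `SB_{d g}(A)` for `A = P ⊗ Q`. -/
theorem main {k : Type u} [Field k] [Infinite k] (A P Q : CSA.{u, u} k)
    (eA : A ≃ₐ[k] P ⊗[k] Q) {K : Type u} [Field K] [Algebra k K]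
    {d e g h r c N : ℕ} (hP : Module.finrank k P = d ^ 2) (hQ : Module.finrank k Q = e ^ 2)
    (he : e = g * h) (hd : d ^ 2 = r * h + c) (hc : 0 < c) (hch : c ≤ h) (hg : 0 < g)
    (hK : H72.SB.IsFunctionField Q (g * c) K) (J1 : Submodule K (K ⊗[k] Q))
    (hJ1 : ∀ x ∈ J1, ∀ y, x * y ∈ J1) (hJ1d : Module.finrank K J1 = g * e)
    (hN : N + g * c * (e - g * c) = d * g * (d * e - d * g)) :
    H72.SB.IsFunctionField A (d * g) (FractionRing (MvPolynomial (Fin N) K)) := by
  obtain ⟨c, rfl⟩ := Nat.exists_eq_succ_of_ne_zero hc.ne'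
  have h1 := mainG (P := P) (Q := Q) hP hQ he hd hch hg (ofH72 hQ hK) J1 hJ1 hJ1d hN
  refine toH72 ?_ (h1.congr eA.symm)
  rw [eA.toLinearEquiv.finrank_eq, Module.finrank_tensorProduct, hP, hQ]
  ring

end Pool.Agent.H49.Cop
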