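import Pool.Agent.H49.GSB.Final
import Pool.Agent.H49.Cop.Main

/-!
# Tensor products of coprime degrees: assembly
-/

open TensorProduct Module
open Pool.Agent.H72.SB hiding IsFunctionField

namespace Pool.Agent.H49.Cop

open Pool.Agent.H49.GSB hiding IsFunctionField

universe u

variable {k : Type u} [Field k]

/-- `g c (e - g c) ≤ d g (d e - d g)` for `e = g h`, `c ≤ d ^ 2`, `0 < c`. -/
theorem arith_main {d e g h r c : ℕ} (he : e = g * h) (hd : d ^ 2 = r * h + c) (hc : 0 < c) :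
    g * c * (e - g * c) ≤ d * g * (d * e - d * g) := by
  have h1 : e - g * c = g * (h - c) := by rw [he, Nat.mul_sub]
  have h2 : d * e - d * g = d * (g * (h - 1)) := by
    rw [he, Nat.mul_sub g h 1, mul_one, Nat.mul_sub]
  have h3 : c ≤ d ^ 2 := by omega
  have h4 : h - c ≤ h - 1 := by omega
  rw [h1, h2]
  calc g * c * (g * (h - c)) ≤ g * d ^ 2 * (g * (h - 1)) :=
        Nat.mul_le_mul (Nat.mul_le_mul_left g h3) (Nat.mul_le_mul_left g h4)
    _ = d * g * (d * (g * (h - 1))) := by ring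

/-- `4 g (e - g) ≤ d g (d e - d g)`. -/
theorem arith_four {d e g : ℕ} (hd : 2 ≤ d) : 4 * (g * (e - g)) ≤ d * g * (d * e - d * g) := by
  have h2 : d * e - d * g = d * (e - g) := by rw [Nat.mul_sub]
  rw [h2]
  have h3 : 2 * 2 ≤ d * d := Nat.mul_le_mul hd hd
  calc 4 * (g * (e - g)) ≤ d * d * (g * (e - g)) := Nat.mul_le_mul_right _ h3
    _ = d * g * (d * (e - g)) := by ring

/-- The generic point of `SB_m(P ⊗ Q)` in terms of the generic point of `SB_g(Q)`. -/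
theorem half [Infinite k] (A P Q : CSA.{u, u} k) {d e m₁ g : ℕ}
    (eA : A ≃ₐ[k] P ⊗[k] Q) (hP : finrank k P = d ^ 2) (hQ : finrank k Q = e ^ 2)
    (hd : 2 ≤ d) (hco : Nat.Coprime d e) (hm : 1 ≤ m₁) (hmn : m₁ < e)
    (hg : g = Nat.gcd m₁ e) {F : Type u} [Field F] [Algebra k F]
    (hF : H72.SB.IsFunctionField Q g F) :
    H72.SB.IsFunctionField A (d * m₁) (FractionRing (MvPolynomial
      (Fin (d * m₁ * (d * e - d * m₁) - g * (e - g))) F)) := by
  have hg0 : 0 < g := by rw [hg]; exact Nat.gcd_pos_of_pos_left _ hm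
  have hgm : g ∣ m₁ := by rw [hg]; exact Nat.gcd_dvd_left _ _
  have hgm' : g ≤ m₁ := Nat.le_of_dvd hm hgm
  obtain ⟨h, he⟩ : g ∣ e := by rw [hg]; exact Nat.gcd_dvd_right _ _
  have hh : 1 < h := by
    by_contra hcon
    push Not at hcon
    have h1 : g * h ≤ g * 1 := Nat.mul_le_mul_left g hcon
    omega
  have hcoh : Nat.Coprime (d ^ 2) h :=
    Nat.Coprime.pow_left 2 (Nat.Coprime.coprime_dvd_right ⟨g, by rw [he, mul_comm]⟩ hco)
  obtain ⟨c, hc⟩ : ∃ c, c = d ^ 2 % h := ⟨_, rfl⟩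
  obtain ⟨r, hr⟩ : ∃ r, r = d ^ 2 / h := ⟨_, rfl⟩
  have hdr : d ^ 2 = r * h + c := by rw [hr, hc, mul_comm]; exact (Nat.div_add_mod _ _).symm
  have hcoc : Nat.gcd c h = 1 := by
    rw [hc, ← Nat.gcd_rec, Nat.gcd_comm]
    exact hcoh
  have hc0 : 0 < c := by
    rcases Nat.eq_zero_or_pos c with h0 | h0
    · rw [h0, Nat.gcd_zero_left] at hcoc; omega
    · exact h0
  have hch : c < h := by rw [hc]; exact Nat.mod_lt _ (by omega)
  have hgc : Nat.gcd (g * c) e = g := by rw [he, Nat.gcd_mul_left, hcoc, mul_one]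
  have hgce : g * c < e := by rw [he]; exact Nat.mul_lt_mul_of_pos_left hch hg0
  have hgc1 : 1 ≤ g * c := Nat.mul_pos hg0 hc0
  have he0 : 0 < e := by omega
  have hA : finrank k A = (d * e) ^ 2 := by
    rw [eA.toLinearEquiv.finrank_eq, Module.finrank_tensorProduct, hP, hQ]; ring
  -- the function field of `SB_{gc}(Q)`
  have hF' : H72.SB.IsFunctionField Q (Nat.gcd (g * c) e) F := by rw [hgc]; exact hF
  have hK := functionField_gcd Q hQ hgc1 hgce hF'
  rw [hgc] at hK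
  obtain ⟨N₁, hN₁⟩ : ∃ N₁, N₁ = g * c * (e - g * c) - g * (e - g) := ⟨_, rfl⟩
  rw [← hN₁] at hK
  -- the ideal
  obtain ⟨⟨J₀, ⟨hJ₀, hdim⟩, _⟩, _⟩ := ofH72 hQ hF
  have hQfin : FiniteDimensional k Q := inferInstance
  have hdim1 : finrank (FractionRing (MvPolynomial (Fin N₁) F))
      (ext (FractionRing (MvPolynomial (Fin N₁) F)) J₀) = g * e := by
    rw [ext_finrank, hdim]
  obtain ⟨N, hN⟩ := Nat.exists_eq_add_of_le' (arith_main (g := g) he hdr hc0)
  have h1 := main A P Q eA hP hQ he hdr hc0 hch.le hg0 hK _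
    (fun x hx y => ext_right hJ₀ hx y) hdim1 hN.symm
  -- the function field of `SB_m(A)`
  have hgcd : Nat.gcd (d * m₁) (d * e) = d * g := by rw [Nat.gcd_mul_left, hg]
  have hdm1 : 1 ≤ d * m₁ := Nat.mul_pos (by omega) hm
  have hdme : d * m₁ < d * e := Nat.mul_lt_mul_of_pos_left hmn (by omega)
  have h1' : H72.SB.IsFunctionField A (Nat.gcd (d * m₁) (d * e))
      (FractionRing (MvPolynomial (Fin N) (FractionRing (MvPolynomial (Fin N₁) F)))) := by
    rw [hgcd]; exact h1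
  have h2 := functionField_gcd A hA hdm1 hdme h1'
  rw [hgcd] at h2
  obtain ⟨N₃, hN₃⟩ : ∃ N₃, N₃ = d * m₁ * (d * e - d * m₁) - d * g * (d * e - d * g) := ⟨_, rfl⟩
  rw [← hN₃] at h2
  -- the numbers
  have h3 : g * (e - g) ≤ g * c * (e - g * c) := arith1 hgc1 hgce hgc.symm
  have h4 : d * g * (d * e - d * g) ≤ d * m₁ * (d * e - d * m₁) := arith1 hdm1 hdme hgcd.symm
  have h5 : d * m₁ * (d * e - d * m₁) - g * (e - g) = (N₁ + N) + N₃ := by omega
  rw [h5]
  obtain ⟨f1⟩ := nonempty_equiv_tower k F N₁ N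
  obtain ⟨f2⟩ := nonempty_equiv_tower k F (N₁ + N) N₃
  obtain ⟨f3⟩ := nonempty_equiv_fractionRing f1 N₃
  exact h2.congr_field (f2.trans f3).symm

/-- Tensor products of coprime degrees: a common function field. -/
theorem common [Infinite k] {A B P P' Q Q' : CSA.{u, u} k} {d e m : ℕ}
    (eA : A ≃ₐ[k] P ⊗[k] Q) (eB : B ≃ₐ[k] P' ⊗[k] Q') (hP : finrank k P = d ^ 2)
    (hP' : finrank k P' = d ^ 2) (hQ : finrank k Q = e ^ 2) (hQ' : finrank k Q' = e ^ 2)
    (hd : 2 ≤ d) (hco : Nat.Coprime d e) (h₁ : InCyclic Q Q') (h₂ : InCyclic Q' Q)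
    (hdm : d ∣ m) (hm : 1 ≤ m) (hmn : m < d * e) :
    ∃ (F : Type u) (_ : Field F) (_ : Algebra k F),
      H72.SB.IsFunctionField A m F ∧ H72.SB.IsFunctionField B m F := by
  obtain ⟨m₁, rfl⟩ := hdm
  have hm1 : 1 ≤ m₁ := by
    rcases Nat.eq_zero_or_pos m₁ with h0 | h0
    · rw [h0, mul_zero] at hm; omega
    · exact h0
  have hme : m₁ < e := Nat.lt_of_mul_lt_mul_left hmn
  obtain ⟨g, hg⟩ : ∃ g, g = Nat.gcd m₁ e := ⟨_, rfl⟩
  have hg0 : 0 < g := by rw [hg]; exact Nat.gcd_pos_of_pos_left _ hm1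
  have hgcd : Nat.gcd (d * m₁) (d * e) = d * g := by rw [Nat.gcd_mul_left, hg]
  have h4 : d * g * (d * e - d * g) ≤ d * m₁ * (d * e - d * m₁) := arith1 hm hmn hgcd.symm
  have h5 := arith_four (e := e) (g := g) hd
  obtain ⟨F, i1, i2, F', i3, i4, hF, hF', ⟨f⟩⟩ := swapD Q Q' (g := g)
    (N := d * m₁ * (d * e - d * m₁) - g * (e - g)) hQ hQ' h₁ h₂ hg0
    (by rw [hg]; exact Nat.gcd_dvd_right m₁ e) (by omega) (by omega)
  have hA := half A P Q eA hP hQ hd hco hm1 hme hg hF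
  have hB := half B P' Q' eB hP' hQ' hd hco hm1 hme hg hF'
  exact ⟨_, _, _, hA, hB.congr_field f.symm⟩

/-- Tensor products of coprime degrees: `SB_m(P ⊗ Q)` and `SB_m(P' ⊗ Q')` have the same function
field. -/
theorem same_iff {A B P P' Q Q' : CSA.{u, u} k} {d e m : ℕ}
    (eA : A ≃ₐ[k] P ⊗[k] Q) (eB : B ≃ₐ[k] P' ⊗[k] Q') (hP : finrank k P = d ^ 2)
    (hP' : finrank k P' = d ^ 2) (hQ : finrank k Q = e ^ 2) (hQ' : finrank k Q' = e ^ 2)
    (hd : 2 ≤ d) (hco : Nat.Coprime d e) (h₁ : InCyclic Q Q') (h₂ : InCyclic Q' Q)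
    (hdm : d ∣ m) (hm : 1 ≤ m) (hmn : m < d * e) :
    (∃ (F : Type u) (_ : Field F) (_ : Algebra k F),
      H72.SB.IsFunctionField A m F ∧ H72.SB.IsFunctionField B m F) ∧
    ∀ (F : Type u) [Field F] [Algebra k F],
      H72.SB.IsFunctionField A m F ↔ H72.SB.IsFunctionField B m F := by
  have hA : finrank k A = (d * e) ^ 2 := by
    rw [eA.toLinearEquiv.finrank_eq, Module.finrank_tensorProduct, hP, hQ]; ring
  have hB : finrank k B = (d * e) ^ 2 := by
    rw [eB.toLinearEquiv.finrank_eq, Module.finrank_tensorProduct, hP', hQ']; ring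
  rcases finite_or_infinite k with hk | hk
  · obtain ⟨f⟩ := nonempty_algEquiv_of_finite A B (by rw [hA, hB])
    obtain ⟨F, i1, i2, hF⟩ := Pool.Agent.H72.SB.exists_functionField A hA hmn.le
    exact ⟨⟨F, i1, i2, hF, hF.congr f⟩, fun F _ _ => ⟨fun h => h.congr f, fun h => h.congr f.symm⟩⟩
  · obtain ⟨F₀, i1, i2, h1, h2⟩ := common eA eB hP hP' hQ hQ' hd hco h₁ h₂ hdm hm hmn
    refine ⟨⟨F₀, i1, i2, h1, h2⟩, fun F _ _ => ⟨fun h3 => ?_, fun h3 => ?_⟩⟩
    · obtain ⟨f⟩ := functionField_unique A hA (by omega) h1 h3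
      exact h2.congr_field f
    · obtain ⟨f⟩ := functionField_unique B hB (by omega) h2 h3
      exact h1.congr_field f

end Pool.Agent.H49.Cop
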