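import Pool.Agent.H49.Cop.Ex

/-!
# The generic point
-/

open TensorProduct

namespace Pool.Agent.H49.Cop

open Pool.Agent.H49.GSB

universe u

section bcs

variable {k : Type u} [Field k] {A Q : Type u} [Ring A] [Algebra k A] [Ring Q] [Algebra k Q]
  {K : Type u} [Field K] [Algebra k K] {L : Type u} [Field L] [Algebra k L] [Algebra K L]
  [IsScalarTower k K L]

/-- The extension of `ι`. -/
noncomputable def iK (K : Type u) [Field K] [Algebra k K] (ι : Q →ₐ[k] A) :
    K ⊗[k] Q →ₐ[K] K ⊗[k] A :=
  Algebra.TensorProduct.map (AlgHom.id K K) ι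

/-- The extension of `τ`. -/
noncomputable def tK (K : Type u) [Field K] [Algebra k K] (τ : A →ₗ[k] Q) :
    K ⊗[k] A →ₗ[K] K ⊗[k] Q :=
  τ.baseChange K

@[simp] theorem iK_tmul (ι : Q →ₐ[k] A) (c : K) (q : Q) : iK K ι (c ⊗ₜ q) = c ⊗ₜ ι q := by
  simp [iK]

@[simp] theorem tK_tmul (τ : A →ₗ[k] Q) (c : K) (x : A) : tK K τ (c ⊗ₜ x) = c ⊗ₜ τ x := by
  simp [tK]

theorem bc_iK (ι : Q →ₐ[k] A) (x : K ⊗[k] Q) :
    bc k A K L (iK K ι x) = iK L ι (bc k Q K L x) := by
  induction x using TensorProduct.induction_on with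
  | zero => simp
  | tmul c q => simp
  | add x y hx hy => simp only [map_add, hx, hy]

theorem bc_tK (τ : A →ₗ[k] Q) (x : K ⊗[k] A) :
    bc k Q K L (tK K τ x) = tK L τ (bc k A K L x) := by
  induction x using TensorProduct.induction_on with
  | zero => simp
  | tmul c q => simp
  | add x y hx hy => simp only [map_add, hx, hy]

theorem tK_lam (τ : A →ₗ[k] Q) (l : L →ₗ[k] L) (x : L ⊗[k] A) :
    tK L τ (lam l x) = lam l (tK L τ x) := by
  induction x using TensorProduct.induction_on with
  | zero => simp
  | tmul c q => simp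
  | add x y hx hy => simp only [map_add, hx, hy]

theorem lam_bc_mul {F : IntermediateField k L} (hF : ∀ c : K, algebraMap K L c ∈ F)
    (l : L →ₗ[F] L) (x : K ⊗[k] A) (y : L ⊗[k] A) :
    lam (l.restrictScalars k) (bc k A K L x * y) = bc k A K L x * lam (l.restrictScalars k) y := by
  induction x using TensorProduct.induction_on with
  | zero => simp
  | add x x' hx hx' => rw [map_add, add_mul, map_add, hx, hx', add_mul]
  | tmul d a =>
    induction y using TensorProduct.induction_on with
    | zero => simp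
    | add y y' hy hy' => rw [mul_add, map_add, hy, hy', map_add, mul_add]
    | tmul c b =>
      rw [bc_tmul, Algebra.TensorProduct.tmul_mul_tmul, lam_tmul, lam_tmul,
        Algebra.TensorProduct.tmul_mul_tmul, LinearMap.coe_restrictScalars]
      have h := l.map_smul (⟨_, hF d⟩ : F) c
      rw [Algebra.smul_def, Algebra.smul_def] at h
      congr 1

theorem IsDatum.baseChange {σ : Type*} [DecidableEq σ] {ι : Q →ₐ[k] A} {τ : A →ₗ[k] Q}
    {p p' : σ → A} {o : σ} (h : IsDatum ι τ p p' o) (K : Type u) [Field K] [Algebra k K] :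
    IsDatum (iK K ι) (tK K τ) (fun s => (1 : K) ⊗ₜ[k] p s) (fun s => (1 : K) ⊗ₜ[k] p' s) o where
  comm := fun s q => by
    induction q using TensorProduct.induction_on with
    | zero => simp
    | tmul c q => simp [h.comm]
    | add x y hx hy => rw [map_add, add_mul, hx, hy, mul_add]
  tau := fun s t q => by
    induction q using TensorProduct.induction_on with
    | zero => simp
    | tmul c q =>
      simp only [iK_tmul, Algebra.TensorProduct.tmul_mul_tmul, tK_tmul, one_mul, h.tau]
      split_ifs <;> simp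
    | add x y hx hy =>
      rw [map_add, mul_add, mul_add, map_add, hx, hy]
      split_ifs <;> simp
  tau_mul := fun q x => by
    induction q using TensorProduct.induction_on with
    | zero => simp
    | add q q' hq hq' => rw [map_add, add_mul, map_add, hq, hq', add_mul]
    | tmul c q =>
      induction x using TensorProduct.induction_on with
      | zero => simp
      | add x x' hx hx' => rw [mul_add, map_add, hx, hx', map_add, mul_add]
      | tmul d x => simp [h.tau_mul]
  one := by
    change (1 : K) ⊗ₜ[k] p o = 1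
    rw [h.one]
    rfl

end bcs

section choice

variable {k : Type u} [Field k] {A Q : Type u} [Ring A] [Algebra k A] [Ring Q] [Algebra k Q]
  {K : Type u} [Field K] [Algebra k K]
  {C U R : Type} [Fintype C] [Fintype U] [Fintype R] [DecidableEq C] [DecidableEq U]
  [DecidableEq R]

/-- The vectors `(τ (u x), τ (a_j u x))` and `(ε q, 0)`. -/
def vecs (τ : K ⊗[k] A →ₗ[K] K ⊗[k] Q) (u : K ⊗[k] A) (ε : K ⊗[k] Q) (a : R → K ⊗[k] A) :
    (K ⊗[k] A) ⊕ (K ⊗[k] Q) → Option R → K ⊗[k] Q
  | .inl x => fun j => j.elim (τ (u * x)) fun j => τ (a j * (u * x))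
  | .inr q => Pi.single none (ε * q)

/-- The choice of the constants. -/
theorem exists_ave [Infinite k] [FiniteDimensional k A] [FiniteDimensional k Q]
    {ι : Q →ₐ[k] A} {τ : A →ₗ[k] Q} {E : (Option C ⊕ U) → (Option C ⊕ U) → K ⊗[k] Q}
    {p p' : Option C ⊕ (R × (Option C ⊕ U)) → A} (hE : IsUnits E)
    (h : IsDatum ι τ p p' (.inl none)) :
    ∃ a : R → A, Submodule.span K (Set.range (vecs (tK K τ)
      ((1 + zed (iK K ι) E (fun s => (1 : K) ⊗ₜ[k] p s)) * eff (iK K ι) E) (eps E)
      fun j => (1 : K) ⊗ₜ[k] a j)) = ⊤ := by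
  classical
  set u := (1 + zed (iK K ι) E (fun s => (1 : K) ⊗ₜ[k] p s)) * eff (iK K ι) E with hu
  let b := Module.finBasis k A
  let w₀ : (K ⊗[k] A) ⊕ (K ⊗[k] Q) → Option R → K ⊗[k] Q := fun d =>
    match d with
    | .inl x => Pi.single none (tK K τ (u * x))
    | .inr q => Pi.single none (eps E * q)
  let w : (K ⊗[k] A) ⊕ (K ⊗[k] Q) → (R × Fin (Module.finrank k A)) → Option R → K ⊗[k] Q :=
    fun d z =>
      match d with
      | .inl x => Pi.single (some z.1) (tK K τ ((1 : K) ⊗ₜ[k] b z.2 * (u * x)))
      | .inr _ => 0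
  have key : ∀ t : R × Fin (Module.finrank k A) → K,
      (fun d => w₀ d + ∑ z, t z • w d z) =
        vecs (tK K τ) u (eps E) fun j => ∑ i, t (j, i) • ((1 : K) ⊗ₜ[k] b i) := by
    intro t
    funext d j
    rcases d with x | q
    · rw [Pi.add_apply, Finset.sum_apply]
      rcases j with _ | j
      · simp only [w₀, w, vecs, Pi.single_eq_same, Pi.smul_apply, Option.elim_none]
        rw [Finset.sum_eq_zero, add_zero]
        intro z _
        rw [Pi.single_eq_of_ne (by simp), smul_zero]
      · simp only [w₀, w, vecs, Pi.smul_apply, Option.elim_some]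
        rw [Pi.single_eq_of_ne (by simp), zero_add, Fintype.sum_prod_type,
          Finset.sum_eq_single j]
        · rw [Finset.sum_mul, map_sum]
          refine Finset.sum_congr rfl fun i _ => ?_
          rw [Pi.single_eq_same, smul_mul_assoc, map_smul]
        · intro j' _ hj'
          refine Finset.sum_eq_zero fun i _ => ?_
          rw [Pi.single_eq_of_ne (by simpa using Ne.symm hj'), smul_zero]
        · intro h; exact absurd (Finset.mem_univ _) h
    · simp only [w₀, w, vecs, smul_zero, Finset.sum_const_zero, add_zero]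
  obtain ⟨t, ht⟩ := exists_rational_mod (k := k) w₀ w
    (fun z => (bas K b).repr (ave (iK K ι) E (fun s => (1 : K) ⊗ₜ[k] p s) z.1) z.2) (by
      rw [key]
      have h1 : ∀ j : R, ∑ i, (bas K b).repr (ave (iK K ι) E (fun s => (1 : K) ⊗ₜ[k] p s) j) i •
          ((1 : K) ⊗ₜ[k] b i) = ave (iK K ι) E (fun s => (1 : K) ⊗ₜ[k] p s) j := by
        intro j
        conv_rhs => rw [← (bas K b).sum_repr (ave (iK K ι) E (fun s => (1 : K) ⊗ₜ[k] p s) j)]
        exact Finset.sum_congr rfl fun i _ => by rw [Algebra.TensorProduct.basis_apply]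
      simp only [h1]
      rw [eq_top_iff]
      intro v _
      obtain ⟨x, hx1, hx2⟩ := ex_surj (τ := tK K τ) hE (h.baseChange K) (v none)
        (fun j => v (some j))
      have h2 : v = vecs (tK K τ) u (eps E)
            (fun j => ave (iK K ι) E (fun s => (1 : K) ⊗ₜ[k] p s) j) (.inl x) +
          vecs (tK K τ) u (eps E)
            (fun j => ave (iK K ι) E (fun s => (1 : K) ⊗ₜ[k] p s) j) (.inr (v none)) := by
        funext j
        rw [Pi.add_apply]
        rcases j with _ | j
        · simp only [vecs, Option.elim_none, Pi.single_eq_same]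
          rw [hx1, ← add_mul, add_comm, eps_add_cee hE, one_mul]
        · simp only [vecs, Option.elim_some]
          rw [hx2, Pi.single_eq_of_ne (by simp), add_zero]
      rw [h2]
      exact Submodule.add_mem _ (Submodule.subset_span ⟨_, rfl⟩) (Submodule.subset_span ⟨_, rfl⟩))
  refine ⟨fun j => ∑ i, t (j, i) • b i, ?_⟩
  rw [key fun z => algebraMap k K (t z)] at ht
  have h3 : (fun j : R => (1 : K) ⊗ₜ[k] ∑ i, t (j, i) • b i) =
      fun j => ∑ i, algebraMap k K (t (j, i)) • ((1 : K) ⊗ₜ[k] b i) := by
    funext j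
    rw [TensorProduct.tmul_sum]
    refine Finset.sum_congr rfl fun i _ => ?_
    rw [TensorProduct.tmul_smul, algebraMap_smul]
  rw [h3]
  exact ht

end choice

end Pool.Agent.H49.Cop
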