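import Mathlib

/-!
# Linear algebra of the generic right ideal
-/

namespace Pool.Agent.H49.Cop

variable {K : Type*} [Field K] {A Q : Type*} [Ring A] [Algebra K A] [Ring Q] [Algebra K Q]
  {R : Type*} [Fintype R]

/-- The data of the construction: `Q ⊆ A`, a `Q`-linear map `τ : A → Q`, orthogonal idempotents
`ε`, `c` of `Q` and `f`, `f'` of `A` with sum `1` and `c`, an element `z` of `f' A f`. -/
structure IsFrame (ι : Q →ₐ[K] A) (τ : A →ₗ[K] Q) (ε c : Q) (f f' z : A) (γ : R → Q) : Prop where
  tau_mul : ∀ q x, τ (ι q * x) = q * τ x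
  add_one : ε + c = 1
  mul_zero : ε * c = 0
  f_add : f + f' = ι c
  ff : f * f = f
  ff' : f * f' = 0
  f'f : f' * f = 0
  f'z : f' * z = z
  zf : z * f = z
  εγ : ∀ j, ε * γ j = γ j

/-- The element which defines the ideal. -/
def mu (ι : Q →ₐ[K] A) (ε : Q) (a : R → A) (γ : R → Q) : A := ι ε + ∑ j, ι (γ j) * a j

/-- The ideal. -/
def pt (ι : Q →ₐ[K] A) (ε : Q) (f' z : A) (a : R → A) (γ : R → Q) : Submodule K A where
  carrier := {x | (mu ι ε a γ + (f' - z)) * x = 0}
  add_mem' := fun {x y} hx hy => by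
    rw [Set.mem_setOf_eq] at *
    rw [mul_add, hx, hy, add_zero]
  zero_mem' := by simp
  smul_mem' := fun c x hx => by
    rw [Set.mem_setOf_eq] at *
    rw [mul_smul_comm, hx, smul_zero]

section

variable {ι : Q →ₐ[K] A} {τ : A →ₗ[K] Q} {ε c : Q} {f f' z : A} {a : R → A} {γ : R → Q}

theorem mem_pt {x : A} : x ∈ pt ι ε f' z a γ ↔ (mu ι ε a γ + (f' - z)) * x = 0 := Iff.rfl

theorem pt_right {x : A} (hx : x ∈ pt ι ε f' z a γ) (y : A) : x * y ∈ pt ι ε f' z a γ := by
  rw [mem_pt] at *
  rw [← mul_assoc, hx, zero_mul]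

namespace IsFrame

variable (h : IsFrame ι τ ε c f f' z γ)
include h

theorem εε : ε * ε = ε := by
  have h1 : ε * (ε + c) = ε := by rw [h.add_one, mul_one]
  rwa [mul_add, h.mul_zero, add_zero] at h1

theorem cε : c * ε = 0 := by
  have h1 : (ε + c) * ε = ε := by rw [h.add_one, one_mul]
  rw [add_mul, h.εε] at h1
  exact add_eq_left.1 h1

theorem cc : c * c = c := by
  have h1 : (ε + c) * c = c := by rw [h.add_one, one_mul]
  rwa [add_mul, h.mul_zero, zero_add] at h1

theorem cf : ι c * f = f := by rw [← h.f_add, add_mul, h.ff, h.f'f, add_zero]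

theorem fc : f * ι c = f := by rw [← h.f_add, mul_add, h.ff, h.ff', add_zero]

theorem f'f' : f' * f' = f' := by
  have h1 : ι c * ι c = ι c := by rw [← map_mul, h.cc]
  have h2 : (f + f') * (f + f') = f + f' := by rw [h.f_add, h1]
  rw [add_mul, mul_add, mul_add, h.ff, h.ff', h.f'f, add_zero, zero_add] at h2
  exact add_left_cancel h2

theorem cf' : ι c * f' = f' := by rw [← h.f_add, add_mul, h.ff', h.f'f', zero_add]

theorem f'c : f' * ι c = f' := by rw [← h.f_add, mul_add, h.f'f, h.f'f', zero_add]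

theorem εf : ι ε * f = 0 := by rw [← h.cf, ← mul_assoc, ← map_mul, h.mul_zero, map_zero, zero_mul]

theorem εf' : ι ε * f' = 0 := by
  rw [← h.cf', ← mul_assoc, ← map_mul, h.mul_zero, map_zero, zero_mul]

theorem fε : f * ι ε = 0 := by rw [← h.fc, mul_assoc, ← map_mul, h.cε, map_zero, MulZeroClass.mul_zero]

theorem f'ε : f' * ι ε = 0 := by
  rw [← h.f'c, mul_assoc, ← map_mul, h.cε, map_zero, MulZeroClass.mul_zero]

theorem εz : ι ε * z = 0 := by rw [← h.f'z, ← mul_assoc, h.εf', zero_mul]

theorem fz : f * z = 0 := by rw [← h.f'z, ← mul_assoc, h.ff', zero_mul]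

theorem εμ : ι ε * mu ι ε a γ = mu ι ε a γ := by
  unfold mu
  rw [mul_add, Finset.mul_sum, ← map_mul, h.εε]
  congr 1
  exact Finset.sum_congr rfl fun j _ => by rw [← mul_assoc, ← map_mul, h.εγ]

theorem fμ : f * mu ι ε a γ = 0 := by rw [← h.εμ, ← mul_assoc, h.fε, zero_mul]

theorem f'μ : f' * mu ι ε a γ = 0 := by rw [← h.εμ, ← mul_assoc, h.f'ε, zero_mul]

/-- The two equations. -/
theorem mem_iff {x : A} : x ∈ pt ι ε f' z a γ ↔ mu ι ε a γ * x = 0 ∧ f' * x = z * x := by
  rw [mem_pt]
  constructor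
  · intro hx
    rw [add_mul, sub_mul] at hx
    have h1 := congrArg (fun y => ι ε * y) hx
    simp only [mul_add, mul_sub, ← mul_assoc, h.εμ, h.εf', h.εz, zero_mul, sub_zero, add_zero,
      MulZeroClass.mul_zero] at h1
    rw [h1, zero_add] at hx
    exact ⟨h1, sub_eq_zero.1 hx⟩
  · rintro ⟨h1, h2⟩
    rw [add_mul, sub_mul, h1, h2, sub_self, add_zero]

/-- The relation which holds on the ideal. -/
theorem relation {x : A} (hx : x ∈ pt ι ε f' z a γ) : ε * τ x + ∑ j, γ j * τ (a j * x) = 0 := by
  have h1 := congrArg τ (h.mem_iff.1 hx).1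
  rw [mu, add_mul, Finset.sum_mul, map_add, map_sum, h.tau_mul, map_zero] at h1
  rw [← h1]
  congr 1
  exact Finset.sum_congr rfl fun j _ => by rw [mul_assoc, h.tau_mul]

/-- `x ↦ f x` is bijective from the ideal to `f A`. -/
theorem exists_pt (hs : Function.Surjective fun x : A => (mu ι ε a γ + (f' - z) + f) * x) {y : A}
    (hy : f * y = y) : ∃ x ∈ pt ι ε f' z a γ, f * x = y := by
  obtain ⟨x, hx⟩ := hs y
  change (mu ι ε a γ + (f' - z) + f) * x = y at hx
  rw [add_mul, add_mul, sub_mul] at hx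
  have h1 := congrArg (fun w => ι ε * w) hx
  have h2 := congrArg (fun w => f' * w) hx
  have h3 := congrArg (fun w => f * w) hx
  have hεy : ι ε * y = 0 := by rw [← hy, ← mul_assoc, h.εf, zero_mul]
  have hf'y : f' * y = 0 := by rw [← hy, ← mul_assoc, h.f'f, zero_mul]
  simp only [mul_add, mul_sub, ← mul_assoc, h.εμ, h.εf', h.εz, h.εf, zero_mul, sub_zero, add_zero,
    hεy] at h1
  simp only [mul_add, mul_sub, ← mul_assoc, h.f'μ, h.f'f', h.f'z, h.f'f, zero_mul, zero_add,
    add_zero, hf'y] at h2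
  simp only [mul_add, mul_sub, ← mul_assoc, h.fμ, h.ff', h.fz, h.ff, zero_mul, zero_add,
    sub_zero, hy] at h3
  exact ⟨x, h.mem_iff.2 ⟨h1, sub_eq_zero.1 h2⟩, h3⟩

theorem eq_zero_of_f [FiniteDimensional K A]
    (hs : Function.Surjective fun x : A => (mu ι ε a γ + (f' - z) + f) * x) {x : A}
    (hx : x ∈ pt ι ε f' z a γ) (hfx : f * x = 0) : x = 0 := by
  have hinj : Function.Injective (LinearMap.mulLeft K (mu ι ε a γ + (f' - z) + f)) :=
    LinearMap.injective_iff_surjective.2 hs
  apply hinj
  rw [map_zero, LinearMap.mulLeft_apply, add_mul, hfx, add_zero]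
  exact mem_pt.1 hx

theorem mem_range_f {y : A} : y ∈ LinearMap.range (LinearMap.mulLeft K f) ↔ f * y = y := by
  constructor
  · rintro ⟨w, rfl⟩
    rw [LinearMap.mulLeft_apply, ← mul_assoc, h.ff]
  · intro hy
    exact ⟨y, hy⟩

theorem finrank_pt [FiniteDimensional K A]
    (hs : Function.Surjective fun x : A => (mu ι ε a γ + (f' - z) + f) * x) :
    Module.finrank K (pt ι ε f' z a γ) =
      Module.finrank K (LinearMap.range (LinearMap.mulLeft K f)) := by
  let φ : pt ι ε f' z a γ →ₗ[K] LinearMap.range (LinearMap.mulLeft K f) :=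
    ((LinearMap.mulLeft K f).domRestrict _).codRestrict _ fun x => ⟨x, rfl⟩
  have hφ : ∀ x, (φ x : A) = f * x := fun x => rfl
  refine (LinearEquiv.ofBijective φ ⟨?_, ?_⟩).finrank_eq
  · rw [← LinearMap.ker_eq_bot, LinearMap.ker_eq_bot']
    intro x hx
    apply Subtype.ext
    apply h.eq_zero_of_f hs x.2
    rw [← hφ, hx]; rfl
  · rintro ⟨y, hy⟩
    obtain ⟨x, hx, hxy⟩ := h.exists_pt hs (h.mem_range_f.1 hy)
    exact ⟨⟨x, hx⟩, Subtype.ext hxy⟩

theorem finrank_ε [FiniteDimensional K Q] :
    Module.finrank K (LinearMap.range (LinearMap.mulLeft K ε)) +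
      Module.finrank K (LinearMap.range (LinearMap.mulLeft K c)) = Module.finrank K Q := by
  have h1 : LinearMap.range (LinearMap.mulLeft K c) = LinearMap.ker (LinearMap.mulLeft K ε) := by
    ext q
    rw [LinearMap.mem_ker, LinearMap.mulLeft_apply]
    constructor
    · rintro ⟨w, rfl⟩
      rw [LinearMap.mulLeft_apply, ← mul_assoc, h.mul_zero, zero_mul]
    · intro hq
      refine ⟨q, ?_⟩
      have h2 : (ε + c) * q = q := by rw [h.add_one, one_mul]
      rwa [add_mul, hq, zero_add] at h2
  rw [h1]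
  exact LinearMap.finrank_range_add_finrank_ker _

end IsFrame

/-- The family of vectors of `A × Q ^ (1 + R)`. -/
def famv [DecidableEq R] (ι : Q →ₐ[K] A) (τ : A →ₗ[K] Q) (ε : Q) (f f' z : A) (a : R → A)
    (γ : R → Q) : A ⊕ A ⊕ Q → A × (Option R → Q)
  | .inl x => ((mu ι ε a γ + (f' - z)) * x, fun j => j.elim (τ x) fun j => τ (a j * x))
  | .inr (.inl y) => (f * y, 0)
  | .inr (.inr q) => (0, Pi.single none (ε * q))

variable [DecidableEq R]

theorem IsFrame.bijective [FiniteDimensional K A] [FiniteDimensional K Q]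
    (h : IsFrame ι τ ε c f f' z γ)
    (hspan : Submodule.span K (Set.range (famv ι τ ε f f' z a γ)) = ⊤)
    (hdim : Module.finrank K (LinearMap.range (LinearMap.mulLeft K f)) =
      Module.finrank K (LinearMap.range (LinearMap.mulLeft K c)) +
        Fintype.card R * Module.finrank K Q) :
    (∀ (u : Q), c * u = u → ∀ v : R → Q, ∃ x ∈ pt ι ε f' z a γ, c * τ x = u ∧
      ∀ j, τ (a j * x) = v j) ∧
    ∀ x ∈ pt ι ε f' z a γ, c * τ x = 0 → (∀ j, τ (a j * x) = 0) → x = 0 := by
  let FA := LinearMap.range (LinearMap.mulLeft K f)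
  let EQ := LinearMap.range (LinearMap.mulLeft K ε)
  let Φ : A × FA × EQ →ₗ[K] A × (Option R → Q) :=
    { toFun := fun p => ((mu ι ε a γ + (f' - z)) * p.1 + p.2.1,
        fun j => j.elim (τ p.1 + p.2.2) fun j => τ (a j * p.1))
      map_add' := fun p q => by
        refine Prod.ext ?_ (funext fun j => ?_)
        · simp only [Prod.fst_add, Prod.snd_add, mul_add, Submodule.coe_add]
          abel
        · rcases j with _ | j
          · simp only [Option.elim_none, Prod.fst_add, Prod.snd_add, map_add, Submodule.coe_add,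
              Pi.add_apply]
            abel
          · simp only [Option.elim_some, Prod.fst_add, mul_add, map_add, Prod.snd_add,
              Pi.add_apply]
      map_smul' := fun s p => by
        refine Prod.ext ?_ (funext fun j => ?_)
        · simp only [Prod.smul_fst, Prod.smul_snd, mul_smul_comm, Submodule.coe_smul, smul_add,
            RingHom.id_apply]
        · rcases j with _ | j
          · simp only [Option.elim_none, Prod.smul_fst, Prod.smul_snd, map_smul,
              Submodule.coe_smul, Pi.smul_apply, smul_add, RingHom.id_apply]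
          · simp only [Option.elim_some, Prod.smul_fst, mul_smul_comm, map_smul, Prod.smul_snd,
              Pi.smul_apply, RingHom.id_apply] }
  have hΦ1 : ∀ p, (Φ p).1 = (mu ι ε a γ + (f' - z)) * p.1 + p.2.1 := fun p => rfl
  have hΦ2 : ∀ p, (Φ p).2 none = τ p.1 + p.2.2 := fun p => rfl
  have hΦ3 : ∀ p j, (Φ p).2 (some j) = τ (a j * p.1) := fun p j => rfl
  have hsurj : Function.Surjective Φ := by
    rw [← LinearMap.range_eq_top, eq_top_iff, ← hspan, Submodule.span_le]
    rintro _ ⟨x | y | q, rfl⟩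
    · refine ⟨(x, 0, 0), Prod.ext ?_ (funext fun j => ?_)⟩
      · rw [hΦ1]; simp [famv]
      · rcases j with _ | j
        · rw [hΦ2]; simp [famv]
        · rw [hΦ3]; simp [famv]
    · refine ⟨(0, ⟨f * y, y, rfl⟩, 0), Prod.ext ?_ (funext fun j => ?_)⟩
      · rw [hΦ1]; simp [famv]
      · rcases j with _ | j
        · rw [hΦ2]; simp [famv]
        · rw [hΦ3]; simp [famv]
    · refine ⟨(0, 0, ⟨ε * q, q, rfl⟩), Prod.ext ?_ (funext fun j => ?_)⟩
      · rw [hΦ1]; simp [famv]
      · rcases j with _ | j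
        · rw [hΦ2]; simp [famv]
        · rw [hΦ3]; simp [famv]
  have hinj : Function.Injective Φ := by
    refine (LinearMap.injective_iff_surjective_of_finrank_eq_finrank ?_).2 hsurj
    rw [Module.finrank_prod, Module.finrank_prod, Module.finrank_prod, Module.finrank_pi_fintype]
    simp only [Finset.sum_const, Finset.card_univ, Fintype.card_option, smul_eq_mul]
    have h1 := h.finrank_ε
    have h2 : (Fintype.card R + 1) * Module.finrank K Q =
      Fintype.card R * Module.finrank K Q + Module.finrank K Q := by ring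
    rw [h2]
    change _ + (Module.finrank K (LinearMap.range (LinearMap.mulLeft K f)) +
      Module.finrank K (LinearMap.range (LinearMap.mulLeft K ε))) = _
    omega
  constructor
  · intro u hu v
    obtain ⟨⟨x, ⟨y, hy⟩, ⟨q, hq⟩⟩, hx⟩ := hsurj (0, fun j => j.elim u v)
    have h1 := congrArg Prod.fst hx
    have h2 := congrFun (congrArg Prod.snd hx) none
    have h3 := fun j => congrFun (congrArg Prod.snd hx) (some j)
    rw [hΦ1] at h1
    rw [hΦ2] at h2
    simp only [hΦ3] at h3
    simp only [Option.elim_none, Option.elim_some] at h2 h3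
    change (mu ι ε a γ + (f' - z)) * x + y = 0 at h1
    have hfy : f * y = y := h.mem_range_f.1 hy
    have hM : f * ((mu ι ε a γ + (f' - z)) * x) = 0 := by
      rw [← mul_assoc, mul_add, mul_sub, h.fμ, h.ff', h.fz, sub_zero, add_zero, zero_mul]
    have h4 := congrArg (fun w => f * w) h1
    simp only [mul_add f, hM, hfy, zero_add, MulZeroClass.mul_zero] at h4
    rw [h4, add_zero] at h1
    refine ⟨x, h1, ?_, h3⟩
    obtain ⟨w, rfl⟩ := hq
    change τ x + ε * w = u at h2
    have h5 := congrArg (fun w => c * w) h2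
    simpa only [mul_add, ← mul_assoc, h.cε, zero_mul, add_zero, hu] using h5
  · intro x hx h1 h2
    have h3 : ε * τ x = τ x := by
      have h4 : (ε + c) * τ x = τ x := by rw [h.add_one, one_mul]
      rwa [add_mul, h1, add_zero] at h4
    have h5 : Φ (x, 0, ⟨-τ x, -τ x, by rw [LinearMap.mulLeft_apply, mul_neg, h3]⟩) = 0 := by
      refine Prod.ext ?_ (funext fun j => ?_)
      · rw [hΦ1]
        change (mu ι ε a γ + (f' - z)) * x + 0 = 0
        rw [add_zero]
        exact hx
      · rcases j with _ | j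
        · rw [hΦ2]
          change τ x + -τ x = 0
          exact add_neg_cancel _
        · rw [hΦ3]
          exact h2 j
    have h6 := hinj (h5.trans (map_zero Φ).symm)
    exact congrArg Prod.fst h6

end

end Pool.Agent.H49.Cop
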