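import Pool.Agent.H49.Cop.Span

/-!
# The generic point is not defined over a proper subfield
-/

open TensorProduct

namespace Pool.Agent.H49.Cop

open Pool.Agent.H49.GSB

universe u

section gen

variable {k : Type u} [Field k] {A Q : Type u} [Ring A] [Algebra k A] [Ring Q] [Algebra k Q]
  {K : Type u} [Field K] [Algebra k K] {L : Type u} [Field L] [Algebra k L] [Algebra K L]
  [IsScalarTower k K L]
  {C U R M N : Type} [Fintype C] [Fintype U] [Fintype R] [DecidableEq C] [DecidableEq U]
  [DecidableEq R] [Fintype M] [Fintype N]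
  {ι : Q →ₐ[k] A} {τ : A →ₗ[k] Q} {E : (Option C ⊕ U) → (Option C ⊕ U) → K ⊗[k] Q}
  {p p' : Option C ⊕ (R × (Option C ⊕ U)) → A} {a : R → A} {e : M → K ⊗[k] Q}
  {b : N → K ⊗[k] A} {X : (R × M) ⊕ (C × N) → L}

theorem ext_idl (hE : IsUnits E) : ext L (idl K (cee E)) = idl L (cee (EL L E)) := by
  ext q
  rw [mem_idl]
  constructor
  · intro hq
    induction hq using Submodule.span_induction with
    | mem x hx =>
      obtain ⟨y, hy, rfl⟩ := hx
      have hy' : cee E * y = y := hy
      rw [cee_EL, ← map_mul, hy']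
    | zero => rw [mul_zero]
    | add x y _ _ hx hy => rw [mul_add, hx, hy]
    | smul c x _ hx => rw [mul_smul_comm, hx]
  · intro hq
    rw [← hq, cee_EL]
    exact ext_right idl_right (bc_mem_ext (mem_idl.2 (cee_mul_cee hE))) q

theorem indep_zet (hE : IsUnits E) (hb1 : ∀ s, eff (iK K ι) E * b s = b s)
    (hbi : LinearIndependent K b) (μ : C × N → K)
    (hμ : ∑ z : C × N, μ z • (iK K ι (E (.inl (some z.1)) (.inl none)) * b z.2) = 0)
    (z : C × N) : μ z = 0 := by
  have h1 := congrArg (fun x => iK K ι (E (.inl none) (.inl (some z.1))) * x) hμ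
  simp only [mul_zero, Finset.mul_sum, Fintype.sum_prod_type] at h1
  rw [Finset.sum_eq_single z.1] at h1
  · have h2 : ∑ s, μ (z.1, s) • b s = 0 := by
      rw [← h1]
      refine Finset.sum_congr rfl fun s _ => ?_
      rw [mul_smul_comm, ← mul_assoc, ← map_mul, hE.mul_same]
      congr 1
      exact (hb1 s).symm
    exact Fintype.linearIndependent_iff.1 hbi (fun s => μ (z.1, s)) h2 z.2
  · intro i _ hi
    refine Finset.sum_eq_zero fun s _ => ?_
    rw [mul_smul_comm, ← mul_assoc, ← map_mul, hE.mul_ne _ _ _ _ (by simpa using Ne.symm hi),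
      map_zero, zero_mul, smul_zero]
  · intro h; exact absurd (Finset.mem_univ _) h

theorem pt_min [FiniteDimensional k A] [FiniteDimensional k Q]
    (hX : AlgebraicIndependent K X)
    (hgen : ∀ F : IntermediateField k L, (∀ c : K, algebraMap K L c ∈ F) → (∀ z, X z ∈ F) →
      F = ⊤)
    (hmin : ∀ F : IntermediateField k K, DefinedOver F (idl K (cee E)) → F = ⊤)
    (hE : IsUnits E) (h : IsDatum ι τ p p' (.inl none))
    (he : ∀ i, eps E * e i = e i) (hei : LinearIndependent K e)
    (hb1 : ∀ s, eff (iK K ι) E * b s = b s) (hb : ∀ s, b s * eff (iK K ι) E = b s)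
    (hbi : LinearIndependent K b)
    (hspan : Submodule.span K (Set.range (vecs (tK K τ)
      ((1 + zed (iK K ι) E (fun s => (1 : K) ⊗ₜ[k] p s)) * eff (iK K ι) E) (eps E)
      fun j => (1 : K) ⊗ₜ[k] a j)) = ⊤)
    (hA : Module.finrank k A = (Fintype.card C + 1 + Fintype.card R *
      (Fintype.card C + 1 + Fintype.card U)) * Module.finrank k Q)
    (F : IntermediateField k L) (hF : DefinedOver F (pt (iK L ι) (eps (EL L E))
      (eff' (iK L ι) (EL L E)) (zet ι E p b X) (fun j => (1 : L) ⊗ₜ[k] a j) (gam e X))) :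
    F = ⊤ := by
  classical
  have hst := hF.stable
  have hfr : IsFrame (iK L ι) (tK L τ) (eps (EL L E)) (cee (EL L E)) (eff (iK L ι) (EL L E))
      (eff' (iK L ι) (EL L E)) (zet ι E p b X) (gam e X) := frameL hE h he hb
  have hdims := dims (ι := iK L ι) (R := R) (isUnits_EL (L := L) hE) (by
    rw [Module.finrank_baseChange, Module.finrank_baseChange, hA])
  obtain ⟨hex, huniq⟩ := hfr.bijective (a := fun j => (1 : L) ⊗ₜ[k] a j)
    (span_generic hX hE h hspan) hdims
  have hsurj := surj_generic (a := a) (b := b) (e := e) hX hE h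
  set I := pt (iK L ι) (eps (EL L E)) (eff' (iK L ι) (EL L E)) (zet ι E p b X)
    (fun j => (1 : L) ⊗ₜ[k] a j) (gam e X) with hI
  -- the ideal of `Q`
  have h1 : ∀ q, q ∈ ext L (idl K (cee E)) ↔ ∃ x ∈ I, tK L τ x = q ∧
      ∀ j, tK L τ ((1 : L) ⊗ₜ[k] a j * x) = 0 := by
    intro q
    rw [ext_idl hE, mem_idl]
    constructor
    · intro hq
      obtain ⟨x, hx, hx1, hx2⟩ := hex q hq 0
      refine ⟨x, hx, ?_, hx2⟩
      have h2 := hfr.relation hx
      simp only [hx2, Pi.zero_apply, mul_zero, Finset.sum_const_zero, add_zero] at h2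
      have h3 : (eps (EL L E) + cee (EL L E)) * tK L τ x = tK L τ x := by
        rw [hfr.add_one, one_mul]
      rw [← h3, add_mul, h2, hx1, zero_add]
    · rintro ⟨x, hx, rfl, hx2⟩
      have h2 := hfr.relation hx
      simp only [hx2, mul_zero, Finset.sum_const_zero, add_zero] at h2
      have h3 : (eps (EL L E) + cee (EL L E)) * tK L τ x = tK L τ x := by
        rw [hfr.add_one, one_mul]
      rwa [add_mul, h2, zero_add] at h3
  have hK : ∀ c : K, algebraMap K L c ∈ F := by
    refine le_of_ext_stable hmin F ?_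
    intro l q hq
    obtain ⟨x, hx, rfl, hx2⟩ := (h1 q).1 hq
    refine (h1 _).2 ⟨_, hst l x hx, tK_lam τ _ x, fun j => ?_⟩
    rw [← lam_one_mul, tK_lam, hx2, map_zero]
  -- the coordinates of `γ`
  have hX1 : ∀ j i, X (.inl (j, i)) ∈ F := by
    intro j i
    obtain ⟨x, hx, hx1, hx2⟩ := hex 0 (mul_zero _) (Pi.single j 1)
    have h3 : tK L τ x = -gam e X j := by
      have h4 := hfr.relation hx
      simp only [hx2] at h4
      rw [Finset.sum_eq_single j] at h4
      · rw [Pi.single_eq_same, mul_one] at h4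
        have h5 : (eps (EL L E) + cee (EL L E)) * tK L τ x = tK L τ x := by
          rw [hfr.add_one, one_mul]
        rw [add_mul, hx1, add_zero] at h5
        rw [h5] at h4
        exact eq_neg_of_add_eq_zero_left h4
      · intro j' _ hj'
        rw [Pi.single_eq_of_ne hj', mul_zero]
      · intro h; exact absurd (Finset.mem_univ _) h
    apply mem_of_forall
    intro l
    have h6 : lam (l.restrictScalars k) x - l 1 • x = 0 := by
      apply huniq _ (Submodule.sub_mem _ (hst l x hx) (Submodule.smul_mem _ _ hx))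
      · rw [map_sub, map_smul, tK_lam, mul_sub, mul_smul_comm, hx1, smul_zero, sub_zero,
          cee_EL, ← lam_bc_mul hK, ← cee_EL, hx1, map_zero]
      · intro j'
        rw [mul_sub, mul_smul_comm, map_sub, map_smul, ← lam_one_mul, tK_lam, hx2]
        by_cases hj : j' = j
        · subst hj
          rw [Pi.single_eq_same]
          have h7 : lam (l.restrictScalars k) (1 : L ⊗[k] Q) = l 1 • (1 : L ⊗[k] Q) := by
            rw [Algebra.TensorProduct.one_def, lam_tmul, TensorProduct.smul_tmul', smul_eq_mul,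
              mul_one]
            rfl
          rw [h7, sub_self]
        · rw [Pi.single_eq_of_ne hj, map_zero, smul_zero, sub_zero]
    have h8 := congrArg (tK L τ) h6
    rw [map_sub, map_smul, tK_lam, h3, map_zero, map_neg, smul_neg, neg_sub_neg, gam,
      Finset.smul_sum, map_sum, ← Finset.sum_sub_distrib] at h8
    have h9 : ∑ i : M, (l 1 * X (.inl (j, i)) - l (X (.inl (j, i)))) • bc k Q K L (e i) = 0 := by
      rw [← h8]
      refine Finset.sum_congr rfl fun i _ => ?_
      rw [lam_smul_bc hK, sub_smul, smul_smul]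
    have h10 := indep (L := L) (T := Unit) (fun (i : M) _ => e i) (fun μ hμ =>
      Fintype.linearIndependent_iff.1 hei μ (hμ ())) (fun i => l 1 * X (.inl (j, i)) -
        l (X (.inl (j, i)))) (fun _ => h9) i
    exact (sub_eq_zero.1 h10).symm
  -- the coordinates of `z`
  have hX2 : ∀ i s, X (.inr (i, s)) ∈ F := by
    intro i s
    obtain ⟨x, hx, hfx⟩ := hfr.exists_pt (y := eff (iK L ι) (EL L E)) hsurj hfr.ff
    have h3 : eff' (iK L ι) (EL L E) * x = zet ι E p b X := by
      rw [(hfr.mem_iff.1 hx).2, ← hfr.zf, mul_assoc, hfx, hfr.zf]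
    apply mem_of_forall
    intro l
    have h6 : lam (l.restrictScalars k) x - l 1 • x = 0 := by
      apply hfr.eq_zero_of_f hsurj
        (Submodule.sub_mem _ (hst l x hx) (Submodule.smul_mem _ _ hx))
      have h7 : lam (l.restrictScalars k) (eff (iK L ι) (EL L E)) =
          l 1 • eff (iK L ι) (EL L E) := by
        have := lam_smul_bc hK l 1 (eff (iK K ι) E)
        rwa [one_smul, ← eff_EL] at this
      rw [mul_sub, mul_smul_comm, hfx, ← h7]
      nth_rw 1 [eff_EL]
      rw [← lam_bc_mul hK, ← eff_EL, hfx, sub_self]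
    have h8 : lam (l.restrictScalars k) (zet ι E p b X) = l 1 • zet ι E p b X := by
      have h9 := congrArg (fun y => eff' (iK L ι) (EL L E) * y) h6
      simp only [mul_sub, mul_smul_comm, h3, mul_zero] at h9
      rw [eff'_EL, ← lam_bc_mul hK, ← eff'_EL, h3] at h9
      exact sub_eq_zero.1 h9
    have h9 : lam (l.restrictScalars k) (bc k A K L (zed (iK K ι) E
        fun s => (1 : K) ⊗ₜ[k] p s)) = l 1 • bc k A K L (zed (iK K ι) E
        fun s => (1 : K) ⊗ₜ[k] p s) := by
      have := lam_smul_bc hK l 1 (zed (iK K ι) E fun s => (1 : K) ⊗ₜ[k] p s)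
      rwa [one_smul] at this
    rw [zet, map_add, h9, smul_add] at h8
    have h10 := add_left_cancel h8
    rw [map_sum, Finset.smul_sum, ← sub_eq_zero, ← Finset.sum_sub_distrib] at h10
    have h11 : ∑ z : C × N, (l (X (.inr z)) - l 1 * X (.inr z)) •
        bc k A K L (iK K ι (E (.inl (some z.1)) (.inl none)) * b z.2) = 0 := by
      rw [← h10, Fintype.sum_prod_type]
      refine Finset.sum_congr rfl fun i _ => ?_
      rw [map_sum, Finset.smul_sum, ← Finset.sum_sub_distrib]
      refine Finset.sum_congr rfl fun s _ => ?_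
      rw [lam_smul_bc hK, sub_smul, smul_smul]
    have h12 := indep (L := L) (T := Unit) (fun (z : C × N) _ =>
      iK K ι (E (.inl (some z.1)) (.inl none)) * b z.2) (fun μ hμ =>
        indep_zet hE hb1 hbi μ (hμ ())) (fun z => l (X (.inr z)) - l 1 * X (.inr z))
        (fun _ => h11) (i, s)
    exact sub_eq_zero.1 h12
  refine hgen F hK ?_
  rintro (⟨j, i⟩ | ⟨i, s⟩)
  · exact hX1 j i
  · exact hX2 i s

end gen

end Pool.Agent.H49.Cop
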