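import Pool.Agent.H49.Cop.Gen

/-!
# The generic point
-/

open TensorProduct

namespace Pool.Agent.H49.Cop

open Pool.Agent.H49.GSB

universe u

section gen

variable {k : Type u} [Field k] {A Q : Type u} [Ring A] [Algebra k A] [Ring Q] [Algebra k Q]
  {K : Type u} [Field K] [Algebra k K] {L : Type u} [Field L] [Algebra k L] [Algebra K L]
  [IsScalarTower k K L]
  {C U R M N : Type} [Fintype C] [Fintype U] [Fintype R] [DecidableEq C] [DecidableEq U]
  [DecidableEq R] [Fintype M] [Fintype N]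

/-- The matrix units over `L`. -/
noncomputable def EL (L : Type u) [Field L] [Algebra k L] [Algebra K L] [IsScalarTower k K L]
    (E : (Option C ⊕ U) → (Option C ⊕ U) → K ⊗[k] Q) :
    (Option C ⊕ U) → (Option C ⊕ U) → L ⊗[k] Q := fun x y => bc k Q K L (E x y)

/-- The generic value of `γ`. -/
noncomputable def gam (e : M → K ⊗[k] Q) (X : (R × M) ⊕ (C × N) → L) (j : R) : L ⊗[k] Q :=
  ∑ i, X (.inl (j, i)) • bc k Q K L (e i)

/-- The generic value of `z`. -/
noncomputable def zet (ι : Q →ₐ[k] A) (E : (Option C ⊕ U) → (Option C ⊕ U) → K ⊗[k] Q)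
    (p : Option C ⊕ (R × (Option C ⊕ U)) → A) (b : N → K ⊗[k] A)
    (X : (R × M) ⊕ (C × N) → L) : L ⊗[k] A :=
  bc k A K L (zed (iK K ι) E fun s => (1 : K) ⊗ₜ[k] p s) +
    ∑ i : C, ∑ s, X (.inr (i, s)) • bc k A K L (iK K ι (E (.inl (some i)) (.inl none)) * b s)

/-- The coefficients of the parameters. -/
noncomputable def coef (ι : Q →ₐ[k] A) (E : (Option C ⊕ U) → (Option C ⊕ U) → K ⊗[k] Q)
    (a : R → A) (e : M → K ⊗[k] Q) (b : N → K ⊗[k] A) : (R × M) ⊕ (C × N) → K ⊗[k] A
  | .inl (j, i) => iK K ι (e i) * (1 ⊗ₜ a j)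
  | .inr (i, s) => -(iK K ι (E (.inl (some i)) (.inl none)) * b s)

variable {ι : Q →ₐ[k] A} {τ : A →ₗ[k] Q} {E : (Option C ⊕ U) → (Option C ⊕ U) → K ⊗[k] Q}
  {p p' : Option C ⊕ (R × (Option C ⊕ U)) → A} {a : R → A} {e : M → K ⊗[k] Q}
  {b : N → K ⊗[k] A} {X : (R × M) ⊕ (C × N) → L}

theorem isUnits_EL (hE : IsUnits E) : IsUnits (EL L E) :=
  isUnits_map (ι := bc k Q K L) hE

theorem eps_EL : eps (EL L E) = bc k Q K L (eps E) := by
  rw [eps, eps, map_sum]; rfl

theorem cee_EL : cee (EL L E) = bc k Q K L (cee E) := by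
  rw [cee, cee, map_sum]; rfl

theorem eff_EL : eff (iK L ι) (EL L E) = bc k A K L (eff (iK K ι) E) := by
  rw [eff, eff, bc_iK]; rfl

theorem eff'_EL : eff' (iK L ι) (EL L E) = bc k A K L (eff' (iK K ι) E) := by
  rw [eff', eff', map_sum]
  exact Finset.sum_congr rfl fun i _ => by rw [bc_iK]; rfl

theorem eff'_zet (hE : IsUnits E) (h : IsDatum ι τ p p' (.inl none)) :
    eff' (iK L ι) (EL L E) * zet ι E p b X = zet ι E p b X := by
  rw [zet, mul_add, eff'_EL, ← map_mul, eff'_mul_zed hE (h.baseChange K), Finset.mul_sum]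
  congr 1
  refine Finset.sum_congr rfl fun i _ => ?_
  rw [Finset.mul_sum]
  refine Finset.sum_congr rfl fun s _ => ?_
  rw [mul_smul_comm, ← map_mul, ← mul_assoc, eff'_mul hE]

theorem zet_eff (hE : IsUnits E) (hb : ∀ s, b s * eff (iK K ι) E = b s) :
    zet ι E p b X * eff (iK L ι) (EL L E) = zet ι E p b X := by
  rw [zet, add_mul, eff_EL, ← map_mul, zed_mul_eff hE, Finset.sum_mul]
  congr 1
  refine Finset.sum_congr rfl fun i _ => ?_
  rw [Finset.sum_mul]
  refine Finset.sum_congr rfl fun s _ => ?_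
  rw [smul_mul_assoc, ← map_mul, mul_assoc, hb]

theorem eps_gam (he : ∀ i, eps E * e i = e i) (j : R) :
    eps (EL L E) * gam e X j = gam e X j := by
  rw [gam, eps_EL, Finset.mul_sum]
  refine Finset.sum_congr rfl fun i _ => ?_
  rw [mul_smul_comm, ← map_mul, he]

/-- The frame over `L`. -/
theorem frameL (hE : IsUnits E) (h : IsDatum ι τ p p' (.inl none))
    (he : ∀ i, eps E * e i = e i) (hb : ∀ s, b s * eff (iK K ι) E = b s) :
    IsFrame (iK L ι) (tK L τ) (eps (EL L E)) (cee (EL L E)) (eff (iK L ι) (EL L E))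
      (eff' (iK L ι) (EL L E)) (zet ι E p b X) (gam e X) :=
  isFrame (isUnits_EL hE) (h.baseChange L).tau_mul (eff'_zet hE h) (zet_eff hE hb) (eps_gam he)

theorem generic_eq : mu (iK L ι) (eps (EL L E)) (fun j => (1 : L) ⊗ₜ[k] a j) (gam e X) +
      (eff' (iK L ι) (EL L E) - zet ι E p b X) =
    bc k A K L (iK K ι (eps E) + (eff' (iK K ι) E - zed (iK K ι) E fun s => (1 : K) ⊗ₜ[k] p s)) +
      ∑ z, X z • bc k A K L (coef ι E a e b z) := by
  have h1 : ∑ j : R, iK L ι (gam e X j) * (1 : L) ⊗ₜ[k] a j =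
      ∑ j : R, ∑ i : M, X (.inl (j, i)) • bc k A K L (coef ι E a e b (.inl (j, i))) := by
    refine Finset.sum_congr rfl fun j _ => ?_
    rw [gam, map_sum, Finset.sum_mul]
    refine Finset.sum_congr rfl fun i _ => ?_
    rw [map_smul, smul_mul_assoc, ← bc_iK, ← bc_one (K := K), ← map_mul]
    rfl
  have h2 : ∑ i : C, ∑ s, X (.inr (i, s)) • bc k A K L (coef ι E a e b (.inr (i, s))) =
      -∑ i : C, ∑ s, X (.inr (i, s)) •
        bc k A K L (iK K ι (E (.inl (some i)) (.inl none)) * b s) := by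
    rw [← Finset.sum_neg_distrib]
    refine Finset.sum_congr rfl fun i _ => ?_
    rw [← Finset.sum_neg_distrib]
    refine Finset.sum_congr rfl fun s _ => ?_
    rw [coef, map_neg, smul_neg]
  rw [mu, h1, Fintype.sum_sum_type, Fintype.sum_prod_type, Fintype.sum_prod_type, h2, map_add,
    map_sub, bc_iK, ← eps_EL, ← eff'_EL, zet]
  abel

/-- The spanning family at the origin. -/
theorem span_zero (hE : IsUnits E) (h : IsDatum ι τ p p' (.inl none))
    (hspan : Submodule.span K (Set.range (vecs (tK K τ)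
      ((1 + zed (iK K ι) E (fun s => (1 : K) ⊗ₜ[k] p s)) * eff (iK K ι) E) (eps E)
      fun j => (1 : K) ⊗ₜ[k] a j)) = ⊤) :
    Submodule.span K (Set.range (famv (iK K ι) (tK K τ) (eps E) (eff (iK K ι) E)
      (eff' (iK K ι) E) (zed (iK K ι) E fun s => (1 : K) ⊗ₜ[k] p s)
      (fun j => (1 : K) ⊗ₜ[k] a j) fun _ => 0)) = ⊤ := by
  set z := zed (iK K ι) E fun s => (1 : K) ⊗ₜ[k] p s with hz
  have hF : IsFrame (iK K ι) (tK K τ) (eps E) (cee E) (eff (iK K ι) E) (eff' (iK K ι) E) z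
      (fun _ : R => (0 : K ⊗[k] Q)) :=
    isFrame hE (h.baseChange K).tau_mul (eff'_mul_zed hE (h.baseChange K)) (zed_mul_eff hE)
      (fun j => mul_zero _)
  have hmu : mu (iK K ι) (eps E) (fun j => (1 : K) ⊗ₜ[k] a j) (fun _ : R => (0 : K ⊗[k] Q)) =
      iK K ι (eps E) := by
    rw [mu, Finset.sum_eq_zero, add_zero]
    intro j _
    rw [map_zero, zero_mul]
  set W := Submodule.span K (Set.range (famv (iK K ι) (tK K τ) (eps E) (eff (iK K ι) E)
      (eff' (iK K ι) E) z (fun j => (1 : K) ⊗ₜ[k] a j) fun _ => 0)) with hW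
  have hzz : z * z = 0 := by
    rw [← hF.zf, mul_assoc, ← mul_assoc (eff (iK K ι) E), hF.fz, zero_mul, MulZeroClass.mul_zero]
  have hf'z : eff' (iK K ι) E * z = z := hF.f'z
  have hMu : (iK K ι (eps E) + (eff' (iK K ι) E - z)) * ((1 + z) * eff (iK K ι) E) = 0 := by
    have h1 : (iK K ι (eps E) + (eff' (iK K ι) E - z)) * (1 + z) =
        iK K ι (eps E) + eff' (iK K ι) E := by
      rw [mul_add, mul_one, add_mul, sub_mul, hF.εz, hF.f'z, hzz]
      abel
    rw [← mul_assoc, h1, add_mul, hF.εf, hF.f'f, add_zero]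
  -- the second component
  have hsnd : ∀ v : Option R → K ⊗[k] Q, ((0 : K ⊗[k] A), v) ∈ W := by
    intro v
    have hv : v ∈ Submodule.span K (Set.range (vecs (tK K τ) ((1 + z) * eff (iK K ι) E) (eps E)
      fun j => (1 : K) ⊗ₜ[k] a j)) := by rw [hspan]; trivial
    induction hv using Submodule.span_induction with
    | mem v hv =>
      obtain ⟨x | q, rfl⟩ := hv
      · refine Submodule.subset_span ⟨.inl ((1 + z) * eff (iK K ι) E * x), ?_⟩
        refine Prod.ext ?_ ?_
        · change (mu _ _ _ _ + (eff' (iK K ι) E - z)) * ((1 + z) * eff (iK K ι) E * x) = 0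
          rw [hmu, ← mul_assoc, hMu, zero_mul]
        · rfl
      · exact Submodule.subset_span ⟨.inr (.inr q), rfl⟩
    | zero => exact Submodule.zero_mem _
    | add v w _ _ hv hw =>
      have := Submodule.add_mem _ hv hw
      simpa using this
    | smul c v _ hv =>
      have := Submodule.smul_mem _ c hv
      simpa using this
  have hfst : ∀ x : K ⊗[k] A, (x, (0 : Option R → K ⊗[k] Q)) ∈ W := by
    intro x
    have hsub : ∀ y : K ⊗[k] A,
        ((1 - z) * y, (0 : Option R → K ⊗[k] Q)) ∈ W := by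
      intro y
      have h1 : famv (iK K ι) (tK K τ) (eps E) (eff (iK K ι) E) (eff' (iK K ι) E) z
          (fun j => (1 : K) ⊗ₜ[k] a j) (fun _ => 0) (.inl y) ∈ W :=
        Submodule.subset_span ⟨_, rfl⟩
      have h2 : famv (iK K ι) (tK K τ) (eps E) (eff (iK K ι) E) (eff' (iK K ι) E) z
          (fun j => (1 : K) ⊗ₜ[k] a j) (fun _ => 0) (.inr (.inl y)) ∈ W :=
        Submodule.subset_span ⟨_, rfl⟩
      have h3 := hsnd (famv (iK K ι) (tK K τ) (eps E) (eff (iK K ι) E) (eff' (iK K ι) E) z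
          (fun j => (1 : K) ⊗ₜ[k] a j) (fun _ => 0) (.inl y)).2
      have h4 := Submodule.sub_mem _ (Submodule.add_mem _ h1 h2) h3
      have h5 : ((1 - z) * y, (0 : Option R → K ⊗[k] Q)) =
          famv (iK K ι) (tK K τ) (eps E) (eff (iK K ι) E) (eff' (iK K ι) E) z
            (fun j => (1 : K) ⊗ₜ[k] a j) (fun _ => 0) (.inl y) +
          famv (iK K ι) (tK K τ) (eps E) (eff (iK K ι) E) (eff' (iK K ι) E) z
            (fun j => (1 : K) ⊗ₜ[k] a j) (fun _ => 0) (.inr (.inl y)) -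
          ((0 : K ⊗[k] A), (famv (iK K ι) (tK K τ) (eps E) (eff (iK K ι) E) (eff' (iK K ι) E) z
            (fun j => (1 : K) ⊗ₜ[k] a j) (fun _ => 0) (.inl y)).2) := by
        refine Prod.ext ?_ ?_
        · change (1 - z) * y = (mu _ _ _ _ + (eff' (iK K ι) E - z)) * y + eff (iK K ι) E * y - 0
          rw [hmu, sub_zero, ← add_mul]
          congr 1
          have h6 : iK K ι (eps E) + iK K ι (cee E) = 1 := by
            rw [← map_add, hF.add_one, map_one]
          rw [← hF.f_add] at h6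
          rw [← h6]
          abel
        · change (0 : Option R → K ⊗[k] Q) = _ + 0 - _
          rw [add_zero, sub_self]
      rw [h5]
      exact h4
    have h7 := hsub ((1 + z) * x)
    have h8 : (1 - z) * ((1 + z) * x) = x := by
      rw [← mul_assoc, sub_mul, mul_add, mul_add, hzz]
      simp
    rwa [h8] at h7
  rw [eq_top_iff]
  rintro ⟨x, v⟩ _
  have := Submodule.add_mem _ (hfst x) (hsnd v)
  simpa using this

end gen

end Pool.Agent.H49.Cop
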