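import Pool.Agent.H49.Cop.Point

/-!
# The generic point satisfies the open conditions
-/

open TensorProduct

namespace Pool.Agent.H49.Cop

open Pool.Agent.H49.GSB

universe u

section gen

variable {k : Type u} [Field k] {A Q : Type u} [Ring A] [Algebra k A] [Ring Q] [Algebra k Q]
  {K : Type u} [Field K] [Algebra k K] {L : Type u} [Field L] [Algebra k L] [Algebra K L]
  [IsScalarTower k K L]
  {C U R M N : Type} [Fintype C] [Fintype U] [Fintype R] [DecidableEq C] [DecidableEq U]
  [DecidableEq R] [Fintype M] [Fintype N]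
  {ι : Q →ₐ[k] A} {τ : A →ₗ[k] Q} {E : (Option C ⊕ U) → (Option C ⊕ U) → K ⊗[k] Q}
  {p p' : Option C ⊕ (R × (Option C ⊕ U)) → A} {a : R → A} {e : M → K ⊗[k] Q}
  {b : N → K ⊗[k] A} {X : (R × M) ⊕ (C × N) → L}

/-- The family spans for the generic values of the parameters. -/
theorem span_generic [FiniteDimensional k A] [FiniteDimensional k Q]
    (hX : AlgebraicIndependent K X) (hE : IsUnits E) (h : IsDatum ι τ p p' (.inl none))
    (hspan : Submodule.span K (Set.range (vecs (tK K τ)
      ((1 + zed (iK K ι) E (fun s => (1 : K) ⊗ₜ[k] p s)) * eff (iK K ι) E) (eps E)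
      fun j => (1 : K) ⊗ₜ[k] a j)) = ⊤) :
    Submodule.span L (Set.range (famv (iK L ι) (tK L τ) (eps (EL L E)) (eff (iK L ι) (EL L E))
      (eff' (iK L ι) (EL L E)) (zet ι E p b X) (fun j => (1 : L) ⊗ₜ[k] a j) (gam e X))) = ⊤ := by
  classical
  let bA := Module.finBasis k A
  let bQ := Module.finBasis k Q
  let B : Module.Basis _ K ((K ⊗[k] A) × (Option R → K ⊗[k] Q)) :=
    (bas K bA).prod (Pi.basis fun _ : Option R => bas K bQ)
  let B' : Module.Basis _ L ((L ⊗[k] A) × (Option R → L ⊗[k] Q)) :=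
    (bas L bA).prod (Pi.basis fun _ : Option R => bas L bQ)
  let β : (K ⊗[k] A) × (Option R → K ⊗[k] Q) → (L ⊗[k] A) × (Option R → L ⊗[k] Q) :=
    fun w => (bc k A K L w.1, fun j => bc k Q K L (w.2 j))
  have hβ : ∀ w j, B'.repr (β w) j = algebraMap K L (B.repr w j) := by
    rintro w (i | ⟨j, i⟩)
    · rw [Module.Basis.prod_repr_inl, Module.Basis.prod_repr_inl]
      exact bas_repr_bc bA w.1 i
    · rw [Module.Basis.prod_repr_inr, Module.Basis.prod_repr_inr, Pi.basis_repr, Pi.basis_repr]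
      exact bas_repr_bc bQ (w.2 j) i
  let w : (K ⊗[k] A) ⊕ (K ⊗[k] A) ⊕ (K ⊗[k] Q) → (R × M) ⊕ (C × N) →
      (K ⊗[k] A) × (Option R → K ⊗[k] Q) := fun d z =>
    match d with
    | .inl x => (coef ι E a e b z * x, 0)
    | .inr _ => 0
  have h1 := generic_mod B B' β hβ X hX _ w (span_zero hE h hspan)
  rw [eq_top_iff, ← h1]
  apply Submodule.span_mono
  rintro _ ⟨x | y | q, rfl⟩
  · refine ⟨.inl (bc k A K L x), ?_⟩
    refine Prod.ext ?_ (funext fun j => ?_)
    · change (mu (iK L ι) (eps (EL L E)) (fun j => (1 : L) ⊗ₜ[k] a j) (gam e X) +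
        (eff' (iK L ι) (EL L E) - zet ι E p b X)) * bc k A K L x = _
      rw [generic_eq, add_mul, ← map_mul, Finset.sum_mul]
      have hmu : mu (iK K ι) (eps E) (fun j => (1 : K) ⊗ₜ[k] a j)
          (fun _ : R => (0 : K ⊗[k] Q)) = iK K ι (eps E) := by
        rw [mu, Finset.sum_eq_zero, add_zero]
        intro j _
        rw [map_zero, zero_mul]
      rw [Prod.fst_add, Prod.fst_sum]
      congr 1
      · simp only [β, famv, hmu]
      · refine Finset.sum_congr rfl fun z _ => ?_
        simp only [β, w, Prod.smul_fst, map_mul, smul_mul_assoc]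
    · have h2 : (∑ z, X z • β (w (.inl x) z)).2 j = 0 := by
        rw [Prod.snd_sum, Finset.sum_apply]
        refine Finset.sum_eq_zero fun z _ => ?_
        simp only [β, w, Prod.smul_snd, Pi.smul_apply, Pi.zero_apply, map_zero, smul_zero]
      rw [Prod.snd_add, Pi.add_apply, h2, add_zero]
      rcases j with _ | j
      · simp only [β, famv, Option.elim_none, bc_tK]
      · simp only [β, famv, Option.elim_some, bc_tK, map_mul, bc_one]
  · refine ⟨.inr (.inl (bc k A K L y)), ?_⟩
    have h2 : (∑ z, X z • β (w (.inr (.inl y)) z)) = 0 := by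
      refine Finset.sum_eq_zero fun z _ => ?_
      refine Prod.ext ?_ (funext fun j => ?_)
      · simp [β, w]
      · simp [β, w]
    beta_reduce
    rw [h2, add_zero]
    refine Prod.ext ?_ (funext fun j => ?_)
    · simp only [β, famv, map_mul, eff_EL]
    · simp only [β, famv, Pi.zero_apply, map_zero]
  · refine ⟨.inr (.inr (bc k Q K L q)), ?_⟩
    have h2 : (∑ z, X z • β (w (.inr (.inr q)) z)) = 0 := by
      refine Finset.sum_eq_zero fun z _ => ?_
      refine Prod.ext ?_ (funext fun j => ?_)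
      · simp [β, w]
      · simp [β, w]
    beta_reduce
    rw [h2, add_zero]
    refine Prod.ext ?_ (funext fun j => ?_)
    · simp only [β, famv, map_zero]
    · rcases j with _ | j
      · simp only [β, famv, Pi.single_eq_same, map_mul, eps_EL]
      · simp only [β, famv]
        rw [Pi.single_eq_of_ne (by simp), Pi.single_eq_of_ne (by simp), map_zero]

/-- The ideal is a complement of `(1 - f) A` for the generic values of the parameters. -/
theorem surj_generic [FiniteDimensional k A] (hX : AlgebraicIndependent K X) (hE : IsUnits E)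
    (h : IsDatum ι τ p p' (.inl none)) :
    Function.Surjective fun x : L ⊗[k] A =>
      (mu (iK L ι) (eps (EL L E)) (fun j => (1 : L) ⊗ₜ[k] a j) (gam e X) +
        (eff' (iK L ι) (EL L E) - zet ι E p b X) + eff (iK L ι) (EL L E)) * x := by
  classical
  let bA := Module.finBasis k A
  have hF : IsFrame (iK K ι) (tK K τ) (eps E) (cee E) (eff (iK K ι) E) (eff' (iK K ι) E)
      (zed (iK K ι) E fun s => (1 : K) ⊗ₜ[k] p s) (fun _ : R => (0 : K ⊗[k] Q)) :=
    isFrame hE (h.baseChange K).tau_mul (eff'_mul_zed hE (h.baseChange K)) (zed_mul_eff hE)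
      (fun j => mul_zero _)
  have hzz : (zed (iK K ι) E fun s => (1 : K) ⊗ₜ[k] p s) *
      (zed (iK K ι) E fun s => (1 : K) ⊗ₜ[k] p s) = 0 := by
    set z := zed (iK K ι) E fun s => (1 : K) ⊗ₜ[k] p s
    rw [← hF.zf, mul_assoc, ← mul_assoc (eff (iK K ι) E), hF.fz, zero_mul, MulZeroClass.mul_zero]
  have h0 : iK K ι (eps E) + (eff' (iK K ι) E - zed (iK K ι) E fun s => (1 : K) ⊗ₜ[k] p s) +
      eff (iK K ι) E = 1 - zed (iK K ι) E fun s => (1 : K) ⊗ₜ[k] p s := by
    have h6 : iK K ι (eps E) + iK K ι (cee E) = 1 := by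
      rw [← map_add, hF.add_one, map_one]
    rw [← hF.f_add] at h6
    rw [← h6]
    abel
  have h1 := generic_mod (bas K bA) (bas L bA) (bc k A K L) (bas_repr_bc bA) X hX
    (fun x : K ⊗[k] A => (iK K ι (eps E) + (eff' (iK K ι) E -
      zed (iK K ι) E fun s => (1 : K) ⊗ₜ[k] p s) + eff (iK K ι) E) * x)
    (fun x z => coef ι E a e b z * x) (by
      rw [eq_top_iff]
      intro x _
      refine Submodule.subset_span
        ⟨(1 + zed (iK K ι) E fun s => (1 : K) ⊗ₜ[k] p s) * x, ?_⟩
      change (_ : K ⊗[k] A) * _ = _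
      rw [h0, ← mul_assoc, sub_mul, mul_add, mul_add, hzz]
      simp)
  have h2 : LinearMap.range (LinearMap.mulLeft L
      (mu (iK L ι) (eps (EL L E)) (fun j => (1 : L) ⊗ₜ[k] a j) (gam e X) +
        (eff' (iK L ι) (EL L E) - zet ι E p b X) + eff (iK L ι) (EL L E))) = ⊤ := by
    rw [eq_top_iff, ← h1, Submodule.span_le]
    rintro _ ⟨x, rfl⟩
    refine ⟨bc k A K L x, ?_⟩
    rw [LinearMap.mulLeft_apply, generic_eq, eff_EL]
    simp only [add_mul, Finset.sum_mul, smul_mul_assoc, map_mul, map_add]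
    abel
  intro y
  obtain ⟨x, hx⟩ : y ∈ LinearMap.range (LinearMap.mulLeft L
      (mu (iK L ι) (eps (EL L E)) (fun j => (1 : L) ⊗ₜ[k] a j) (gam e X) +
        (eff' (iK L ι) (EL L E) - zet ι E p b X) + eff (iK L ι) (EL L E))) := by
    rw [h2]; trivial
  exact ⟨x, hx⟩

end gen

end Pool.Agent.H49.Cop
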