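import Pool.Agent.H49.Cop.FibE

/-!
# Transfer of right ideals from a corner
-/

open TensorProduct MulOpposite

namespace Pool.Agent.H49.Cop

open Pool.Agent.H49.GSB

universe u

section general

variable {K R : Type*} [Field K] [Ring R] [Algebra K R]

/-- Right ideals are generated by idempotents. -/
theorem exists_idem [FiniteDimensional K R] [IsSimpleRing R] {I : Submodule K R}
    (hI : ∀ x ∈ I, ∀ y, x * y ∈ I) : ∃ φ : R, φ * φ = φ ∧ I = idl K φ := by
  let J : Submodule Rᵐᵒᵖ R :=
    { carrier := I
      add_mem' := I.add_mem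
      zero_mem' := I.zero_mem
      smul_mem' := fun c x hx => hI x hx c.unop }
  have : IsArtinianRing Rᵐᵒᵖ := IsArtinianRing.of_finite K Rᵐᵒᵖ
  obtain ⟨J', hJ'⟩ := exists_isCompl J
  have h1 : (1 : R) ∈ J ⊔ J' := by rw [hJ'.sup_eq_top]; trivial
  obtain ⟨φ, hφ, ψ, hψ, hφψ⟩ := Submodule.mem_sup.1 h1
  have key : ∀ x ∈ I, φ * x = x := by
    intro x hx
    have h2 : φ * x + ψ * x = x := by rw [← add_mul, hφψ, one_mul]
    have h3 : ψ * x = x - φ * x := eq_sub_of_add_eq' h2
    have h4 : ψ * x ∈ J := by
      rw [h3]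
      exact J.sub_mem hx (J.smul_mem (op x) hφ)
    have h5 : ψ * x ∈ J' := J'.smul_mem (op x) hψ
    have h6 : ψ * x = 0 := Submodule.disjoint_def.1 hJ'.disjoint _ h4 h5
    rw [h6, add_zero] at h2
    exact h2
  refine ⟨φ, key φ hφ, ?_⟩
  ext x
  rw [mem_idl]
  constructor
  · exact key x
  · intro hx
    rw [← hx]
    exact hI φ hφ x

/-- The elements `x` with `φ x p = x`. -/
def bid (K : Type*) {R : Type*} [Field K] [Ring R] [Algebra K R] (φ p : R) : Submodule K R where
  carrier := {x | φ * x = x ∧ x * p = x}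
  add_mem' := fun {x y} hx hy => ⟨by rw [mul_add, hx.1, hy.1], by rw [add_mul, hx.2, hy.2]⟩
  zero_mem' := ⟨mul_zero _, zero_mul _⟩
  smul_mem' := fun c x hx => ⟨by rw [mul_smul_comm, hx.1], by rw [smul_mul_assoc, hx.2]⟩

theorem mem_bid {φ p x : R} : x ∈ bid K φ p ↔ φ * x = x ∧ x * p = x := Iff.rfl

/-- The dimension of the corner. -/
theorem finrank_bid [FiniteDimensional K R] [IsSimpleRing R] {φ p : R} :
    Module.finrank K (idl K φ) * Module.finrank K (bid K 1 p) =
      Module.finrank K R * Module.finrank K (bid K φ p) := by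
  let J : Submodule Rᵐᵒᵖ R :=
    { carrier := idl K φ
      add_mem' := (idl K φ).add_mem
      zero_mem' := (idl K φ).zero_mem
      smul_mem' := fun c x hx => idl_right x hx c.unop }
  have hfin : FiniteDimensional K J :=
    FiniteDimensional.of_injective (J.subtype.restrictScalars K) J.subtype_injective
  have hJ : Module.finrank K J = Module.finrank K (idl K φ) := rfl
  obtain ⟨e⟩ := exists_linearEquiv (K := K) (S := Rᵐᵒᵖ) (M := Fin (Module.finrank K (idl K φ)) → R)
    (N := Fin (Module.finrank K R) → J) (by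
      rw [Module.finrank_pi_fintype, Module.finrank_pi_fintype]
      simp only [Finset.sum_const, Finset.card_univ, Fintype.card_fin, smul_eq_mul, hJ]
      ring)
  have he : ∀ v : Fin (Module.finrank K (idl K φ)) → R, (∀ i, v i * p = v i) →
      ∀ i, (e v i : R) * p = e v i := by
    intro v hv i
    have h1 : op p • v = v := funext hv
    have h2 := e.map_smul (op p) v
    rw [h1] at h2
    have h3 := congrFun h2 i
    exact (congrArg Subtype.val h3).symm
  have hes : ∀ w : Fin (Module.finrank K R) → J, (∀ i, (w i : R) * p = w i) →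
      ∀ i, e.symm w i * p = e.symm w i := by
    intro w hw i
    have h1 : op p • w = w := funext fun i => Subtype.ext (hw i)
    have h2 := e.symm.map_smul (op p) w
    rw [h1] at h2
    exact (congrFun h2 i).symm
  let f : (Fin (Module.finrank K (idl K φ)) → bid K 1 p) ≃ₗ[K]
      (Fin (Module.finrank K R) → bid K φ p) :=
    { toFun := fun v i => ⟨(e (fun j => (v j : R)) i : R), (e _ i).2,
        he _ (fun j => (v j).2.2) i⟩
      invFun := fun w i => ⟨e.symm (fun j => ⟨(w j : R), (w j).2.1⟩) i, one_mul _,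
        hes _ (fun j => (w j).2.2) i⟩
      map_add' := fun v w => by
        funext i
        apply Subtype.ext
        have h1 : (fun j => ((v + w) j : R)) = (fun j => (v j : R)) + fun j => (w j : R) := rfl
        change (e (fun j => ((v + w) j : R)) i : R) = _
        rw [h1, map_add]
        rfl
      map_smul' := fun s v => by
        funext i
        apply Subtype.ext
        have h1 : (fun j => ((s • v) j : R)) = s • fun j => (v j : R) := rfl
        change (e (fun j => ((s • v) j : R)) i : R) = _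
        rw [h1]
        have h2 := (e.restrictScalars K).map_smul s fun j => (v j : R)
        exact congrArg (fun z => (z i : R)) h2
      left_inv := fun v => by
        funext i
        apply Subtype.ext
        change e.symm (fun j => ⟨(e (fun j => (v j : R)) j : R), _⟩) i = v i
        have h1 : (fun j => (⟨(e (fun j => (v j : R)) j : R), (e _ j).2⟩ : J)) =
          e (fun j => (v j : R)) := rfl
        rw [h1, e.symm_apply_apply]
      right_inv := fun w => by
        funext i
        apply Subtype.ext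
        change (e (fun j => e.symm (fun j => ⟨(w j : R), _⟩) j) i : R) = w i
        have h1 : (fun j => e.symm (fun j => (⟨(w j : R), (w j).2.1⟩ : J)) j) =
          e.symm (fun j => ⟨(w j : R), (w j).2.1⟩) := rfl
        rw [h1, e.apply_symm_apply] }
  have h := f.finrank_eq
  rw [Module.finrank_pi_fintype, Module.finrank_pi_fintype] at h
  simpa only [Finset.sum_const, Finset.card_univ, Fintype.card_fin, smul_eq_mul] using h

end general

section transfer

variable {k : Type u} [Field k] {A : Type u} [Ring A] [Algebra k A]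
  {K : Type u} [Field K] [Algebra k K] {M : Type u} [Field M] [Algebra k M] [Algebra K M]
  [IsScalarTower k K M] {Y : Type u} [Ring Y] [Algebra K Y]

/-- `A_K → A_M`, linear over `K`. -/
noncomputable def bcl (k A K M : Type u) [Field k] [Ring A] [Algebra k A] [Field K] [Algebra k K]
    [Field M] [Algebra k M] [Algebra K M] [IsScalarTower k K M] :
    K ⊗[k] A →ₗ[K] M ⊗[k] A :=
  { toFun := bc k A K M
    map_add' := map_add _
    map_smul' := fun c x => by
      rw [bc_smul, algebraMap_smul]
      rfl }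

/-- The extension of a map `Y → A_K` to `M ⊗ Y → A_M`. -/
noncomputable def exJ (M : Type u) [Field M] [Algebra k M] [Algebra K M] [IsScalarTower k K M]
    (J : Y →ₗ[K] K ⊗[k] A) : M ⊗[K] Y →ₗ[M] M ⊗[k] A :=
  LinearMap.liftBaseChange M (bcl k A K M ∘ₗ J)

@[simp] theorem exJ_tmul (J : Y →ₗ[K] K ⊗[k] A) (s : M) (y : Y) :
    exJ M J (s ⊗ₜ y) = s • bc k A K M (J y) := by
  rw [exJ, LinearMap.liftBaseChange_tmul]
  rfl

variable {J : Y →ₗ[K] K ⊗[k] A}

theorem exJ_mul (hJ : ∀ x y, J (x * y) = J x * J y) (x y : M ⊗[K] Y) :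
    exJ M J (x * y) = exJ M J x * exJ M J y := by
  induction x using TensorProduct.induction_on with
  | zero => simp
  | add x x' hx hx' => rw [add_mul, map_add, hx, hx', map_add, add_mul]
  | tmul s x =>
    induction y using TensorProduct.induction_on with
    | zero => simp
    | add y y' hy hy' => rw [mul_add, map_add, hy, hy', map_add, mul_add]
    | tmul t y =>
      rw [Algebra.TensorProduct.tmul_mul_tmul, exJ_tmul, exJ_tmul, exJ_tmul, hJ, map_mul,
        smul_mul_smul_comm]

theorem exJ_one : exJ M J 1 = bc k A K M (J 1) := by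
  rw [Algebra.TensorProduct.one_def, exJ_tmul, one_smul]

theorem exJ_range {p : K ⊗[k] A} (hJ : ∀ x, ∃ y, J y = p * x * p) (x : M ⊗[k] A) :
    ∃ y, exJ M J y = bc k A K M p * x * bc k A K M p := by
  induction x using TensorProduct.induction_on with
  | zero => exact ⟨0, by simp⟩
  | add x x' hx hx' =>
    obtain ⟨y, hy⟩ := hx
    obtain ⟨y', hy'⟩ := hx'
    exact ⟨y + y', by rw [map_add, hy, hy', mul_add, add_mul]⟩
  | tmul s a =>
    obtain ⟨y, hy⟩ := hJ (1 ⊗ₜ a)
    refine ⟨s ⊗ₜ y, ?_⟩
    have h1 : (s ⊗ₜ[k] a : M ⊗[k] A) = s • bc k A K M (1 ⊗ₜ a) := by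
      simp [TensorProduct.smul_tmul']
    rw [exJ_tmul, hy, h1, mul_smul_comm, smul_mul_assoc, map_mul, map_mul]

theorem exJ_injective [IsSimpleRing (M ⊗[K] Y)] (hJ : ∀ x y, J (x * y) = J x * J y)
    (h1 : J 1 ≠ 0) : Function.Injective (exJ M J) := by
  let I : TwoSidedIdeal (M ⊗[K] Y) := TwoSidedIdeal.mk' {x | exJ M J x = 0}
    (map_zero _)
    (fun {x y} hx hy => by
      change exJ M J (x + y) = 0
      change exJ M J x = 0 at hx
      change exJ M J y = 0 at hy
      rw [map_add, hx, hy, add_zero])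
    (fun {x} hx => by
      change exJ M J (-x) = 0
      change exJ M J x = 0 at hx
      rw [map_neg, hx, neg_zero])
    (fun {x y} hy => by
      change exJ M J (x * y) = 0
      change exJ M J y = 0 at hy
      rw [exJ_mul hJ, hy, mul_zero])
    (fun {x y} hx => by
      change exJ M J (x * y) = 0
      change exJ M J x = 0 at hx
      rw [exJ_mul hJ, hx, zero_mul])
  have hI : ∀ x, x ∈ I ↔ exJ M J x = 0 := fun x => by
    rw [TwoSidedIdeal.mem_mk' ]
    rfl
  have hne : I ≠ ⊤ := by
    intro htop
    have h2 : (1 : M ⊗[K] Y) ∈ I := by rw [htop]; trivial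
    rw [hI, exJ_one] at h2
    exact h1 (bc_injective (h2.trans (map_zero _).symm))
  have hbot : I = ⊥ := (eq_bot_or_eq_top I).resolve_right hne
  rw [injective_iff_map_eq_zero]
  intro x hx
  have h3 : x ∈ I := (hI x).2 hx
  rw [hbot] at h3
  exact h3

theorem exJ_lam {F : IntermediateField k M} (hF : ∀ c : K, algebraMap K M c ∈ F)
    (l : M →ₗ[F] M) (l' : M →ₗ[K] M) (hl : ∀ x, l' x = l x) (y : M ⊗[K] Y) :
    exJ M J (lam l' y) = lam (l.restrictScalars k) (exJ M J y) := by
  induction y using TensorProduct.induction_on with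
  | zero => simp
  | add x y hx hy => simp only [map_add, hx, hy]
  | tmul s y => rw [lam_tmul, exJ_tmul, exJ_tmul, lam_smul_bc hF, hl]

/-- Transfer of the right ideal. -/
theorem exists_transfer [FiniteDimensional k A] [IsSimpleRing A] [Algebra.IsCentral k A]
    [FiniteDimensional K Y] [IsSimpleRing Y] [Algebra.IsCentral K Y]
    {p : K ⊗[k] A} (hJ : ∀ x y, J (x * y) = J x * J y) (hJ1 : J 1 = p)
    (hJr : ∀ x, ∃ y, J y = p * x * p) {m n s : ℕ} (hn : 0 < n) (hs : 0 < s)
    (hA : Module.finrank k A = n ^ 2) (hY : Module.finrank K Y = s ^ 2)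
    (hp : Module.finrank K (idl K p) = n * s) (I' : Submodule M (M ⊗[K] Y))
    (hI' : ∀ x ∈ I', ∀ y, x * y ∈ I') (hId : Module.finrank M I' = m * s)
    (hmin : ∀ F : IntermediateField K M, DefinedOver F I' → F = ⊤) :
    ∃ φ : M ⊗[k] A, φ * φ = φ ∧ bc k A K M p * φ = φ ∧ φ * bc k A K M p = φ ∧
      Module.finrank M (idl M φ) = m * n ∧
      ∀ F : IntermediateField k M, (∀ c : K, algebraMap K M c ∈ F) →
        DefinedOver F (idl M φ) → F = ⊤ := by
  have hsY : IsSimpleRing (M ⊗[K] Y) := isSimple_tensor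
  have hsA : IsSimpleRing (M ⊗[k] A) := isSimple_tensor
  have hsAK : IsSimpleRing (K ⊗[k] A) := isSimple_tensor
  have hpp : p * p = p := by rw [← hJ1, ← hJ, one_mul]
  have hp0 : p ≠ 0 := by
    rintro rfl
    have h1 : idl K (0 : K ⊗[k] A) = ⊥ := by
      ext x
      rw [mem_idl, zero_mul, Submodule.mem_bot]
      exact eq_comm
    rw [h1, finrank_bot] at hp
    have := Nat.mul_pos hn hs
    omega
  have hinj : Function.Injective (exJ M J) := exJ_injective hJ (by rw [hJ1]; exact hp0)
  obtain ⟨φ', hφ', rfl⟩ := exists_idem hI'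
  set P := bc k A K M p with hP
  have hPP : P * P = P := by rw [hP, ← map_mul, hpp]
  set φ := exJ M J φ' with hφdef
  have hφ : φ * φ = φ := by rw [hφdef, ← exJ_mul hJ, hφ']
  have hPφ : P * φ = φ := by
    have h1 := exJ_mul (M := M) hJ 1 φ'
    rw [one_mul, exJ_one, hJ1] at h1
    exact h1.symm
  have hφP : φ * P = φ := by
    have h1 := exJ_mul (M := M) hJ φ' 1
    rw [mul_one, exJ_one, hJ1] at h1
    exact h1.symm
  have hPx : ∀ y, P * exJ M J y = exJ M J y := by
    intro y
    have h1 := exJ_mul (M := M) hJ 1 y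
    rw [one_mul, exJ_one, hJ1] at h1
    exact h1.symm
  have hxP : ∀ y, exJ M J y * P = exJ M J y := by
    intro y
    have h1 := exJ_mul (M := M) hJ y 1
    rw [mul_one, exJ_one, hJ1] at h1
    exact h1.symm
  -- the dimensions
  have hd1 : Module.finrank M (bid M φ P) = m * s := by
    rw [← hId]
    have h1 : bid M φ P = (idl M φ').map (exJ M J) := by
      ext x
      rw [mem_bid, Submodule.mem_map]
      constructor
      · rintro ⟨h2, h3⟩
        have h4 : P * x * P = x := by rw [← h2, ← mul_assoc, hPφ, h2, h3]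
        obtain ⟨y, hy⟩ := exJ_range hJr x
        rw [← hP, h4] at hy
        refine ⟨y, ?_, hy⟩
        rw [mem_idl]
        apply hinj
        rw [exJ_mul hJ, hy, ← hφdef, h2]
      · rintro ⟨y, hy, rfl⟩
        rw [mem_idl] at hy
        exact ⟨by rw [hφdef, ← exJ_mul hJ, hy], hxP y⟩
    rw [h1]
    exact (Submodule.equivMapOfInjective _ hinj _).finrank_eq.symm
  have hd2 : Module.finrank M (bid M P P) = s ^ 2 := by
    have hYM : Module.finrank M (M ⊗[K] Y) = s ^ 2 := by rw [Module.finrank_baseChange, hY]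
    rw [← hYM]
    have h1 : bid M P P = LinearMap.range (exJ M J) := by
      ext x
      rw [mem_bid, LinearMap.mem_range]
      constructor
      · rintro ⟨h2, h3⟩
        obtain ⟨y, hy⟩ := exJ_range hJr x
        exact ⟨y, by rw [hy, ← hP, h2, h3]⟩
      · rintro ⟨y, rfl⟩
        exact ⟨hPx y, hxP y⟩
    rw [h1, LinearMap.finrank_range_of_inj hinj]
  have hd3 : Module.finrank M (idl M P) = n * s := by
    rw [hP, finrank_idl_bc hpp, hp]
  have hAM : Module.finrank M (M ⊗[k] A) = n ^ 2 := by
    rw [Module.finrank_baseChange, hA]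
  have hd4 : Module.finrank M (bid M 1 P) = n * s := by
    have h1 := finrank_bid (K := M) (φ := P) (p := P)
    rw [hd2, hd3, hAM] at h1
    apply Nat.eq_of_mul_eq_mul_left (Nat.mul_pos hn hs)
    rw [h1]
    ring
  have hd5 : Module.finrank M (idl M φ) = m * n := by
    have h1 := finrank_bid (K := M) (φ := φ) (p := P)
    rw [hd1, hd4, hAM] at h1
    apply Nat.eq_of_mul_eq_mul_right (Nat.mul_pos hn hs)
    rw [h1]
    ring
  refine ⟨φ, hφ, hPφ, hφP, hd5, fun F hFK hdef => ?_⟩
  -- the field of definition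
  let F' : IntermediateField K M :=
    { F.toSubfield with
      algebraMap_mem' := hFK }
  have hF' : F' = ⊤ := by
    apply hmin
    apply Stable.definedOver
    intro l y hy
    let l₁ : M →ₗ[F] M :=
      { toFun := l
        map_add' := map_add l
        map_smul' := fun c x => l.map_smul (⟨c, c.2⟩ : F') x }
    rw [mem_idl] at hy
    have h1 : exJ M J y ∈ idl M φ := by
      rw [mem_idl, hφdef, ← exJ_mul hJ, hy]
    have h2 := hdef.stable l₁ _ h1
    rw [← exJ_lam hFK l₁ (l.restrictScalars K) (fun x => rfl), mem_idl, hφdef,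
      ← exJ_mul hJ] at h2
    rw [mem_idl]
    exact hinj h2
  rw [eq_top_iff]
  intro x _
  have h3 : x ∈ F' := by rw [hF']; trivial
  exact h3

end transfer

end Pool.Agent.H49.Cop
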